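import Mathlib
import Pool.Agent.Helper41.BootDefs

set_option autoImplicit false

/-! Definitions for project GB (hub criterion for the running time of the `H`-process). -/

namespace Pool.Agent.Helper92.GB

open Pool.Agent.Helper41.Boot

variable {W V U : Type*}

/-- `p` is the neighbour of a vertex of degree one. -/
def IsSupport (H : SimpleGraph W) (p : W) : Prop := ∃ l, ∀ w, H.Adj l w ↔ w = p

/-- `H - S` has a vertex of degree one. -/
def HasLeaf (H : SimpleGraph W) (S : Set W) : Prop :=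
  ∃ q p, q ∉ S ∧ p ∉ S ∧ H.Adj q p ∧ ∀ r, r ∉ S → H.Adj q r → r = p

/-- `S` contains all neighbours of the vertices of degree one of `H`, and `H - S` has no vertex of
degree one. -/
def Core (H : SimpleGraph W) (S : Set W) : Prop :=
  (∀ p, IsSupport H p → p ∈ S) ∧ ¬ HasLeaf H S

/-- Some component of `H - S` is a cycle of length `k`. -/
def CycleComp (H : SimpleGraph W) (S : Set W) (k : ℕ) : Prop :=
  3 ≤ k ∧ ∃ c : ZMod k → W, Function.Injective c ∧
    ∀ i, c i ∉ S ∧ ∀ w, w ∉ S → (H.Adj (c i) w ↔ w = c (i + 1) ∨ w = c (i - 1))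

/-- The union of the copies `f 0 (H), ..., f (m-1) (H)` of `H` together with all pairs of a vertex
of `X` and a vertex outside `Y`. -/
def world (H : SimpleGraph W) (X Y : Set U) (m : ℕ) (f : ℕ → W ↪ U) : SimpleGraph U :=
  SimpleGraph.fromRel (fun x y => (∃ i, i < m ∧ ∃ a b, H.Adj a b ∧ f i a = x ∧ f i b = y) ∨
    (x ∈ X ∧ y ∉ Y))

/-- `Γ` together with `|W|` new vertices, pairwise non-adjacent, each joined to all vertices of `X`
and to no other vertex of `Γ`. -/
def addFree (W : Type*) (Γ : SimpleGraph U) (X : Set U) : SimpleGraph (U ⊕ W) where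
  Adj p q :=
    (∃ a b, p = Sum.inl a ∧ q = Sum.inl b ∧ Γ.Adj a b) ∨
    (∃ a j, p = Sum.inl a ∧ q = Sum.inr j ∧ a ∈ X) ∨ (∃ a j, p = Sum.inr j ∧ q = Sum.inl a ∧ a ∈ X)
  symm := ⟨by
    rintro p q (⟨a, b, rfl, rfl, h⟩ | ⟨a, j, rfl, rfl, h⟩ | ⟨a, j, rfl, rfl, h⟩)
    · exact Or.inl ⟨b, a, rfl, rfl, h.symm⟩
    · exact Or.inr (Or.inr ⟨a, j, rfl, rfl, h⟩)
    · exact Or.inr (Or.inl ⟨a, j, rfl, rfl, h⟩)⟩
  loopless := ⟨by
    rintro p (⟨a, b, h1, h2, h⟩ | ⟨a, j, h1, h2, h⟩ | ⟨a, j, h1, h2, h⟩)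
    · rw [h1] at h2
      cases Sum.inl.inj h2
      exact h.ne rfl
    · rw [h1] at h2; cases h2
    · rw [h1] at h2; cases h2⟩

/-- The graph after `t` rounds of the `H`-process started from `Γ` and `|W|` free vertices joined
to `X`. -/
noncomputable def run [Fintype W] [Fintype U] (H : SimpleGraph W) (Γ : SimpleGraph U) (X : Set U)
    (t : ℕ) : SimpleGraph (U ⊕ W) :=
  proc H (addFree W Γ X) t

/-- A critical chain of `m` copies `f 0 (H), ..., f (m-1) (H)` of `H` which cover `U`, relative to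
sets `X` and `Y` of vertices.  The copy `f i (H)` has a marked edge `f i (a i) f i (b i)`, which is
disjoint from `X` and not contained in `Y`, which is also an edge of `f (i+1) (H)`, and which for
`k < i` is not created within the first `i - (k+1)` rounds from the first `k + 1` copies. -/
structure IsChain [Fintype W] [Fintype U] (H : SimpleGraph W) (X Y : Set U) (m : ℕ)
    (f : ℕ → W ↪ U) (a b : ℕ → W) : Prop where
  cover : ∀ u, ∃ i, i < m ∧ ∃ w, f i w = u
  adj : ∀ i, i < m → H.Adj (a i) (b i)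
  out : ∀ i, i < m → f i (a i) ∉ X ∧ f i (b i) ∉ X ∧ ¬ (f i (a i) ∈ Y ∧ f i (b i) ∈ Y)
  next : ∀ i, i + 1 < m → ∃ c d, H.Adj c d ∧ f (i + 1) c = f i (a i) ∧ f (i + 1) d = f i (b i)
  crit : ∀ i k, k < i → i < m →
    ¬ (run H (world H X Y (k + 1) f) X (i - (k + 1))).Adj (Sum.inl (f i (a i)))
      (Sum.inl (f i (b i)))

/-- The process started from `Γ` and free vertices creates an edge from a free vertex to a vertex
outside `X` (an old one or a free one). -/
def Explosive [Fintype W] [Fintype U] (H : SimpleGraph W) (Γ : SimpleGraph U) (X : Set U) : Prop :=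
  ∃ t, ∃ j : W, ∃ q : U ⊕ W, (∀ x ∈ X, q ≠ Sum.inl x) ∧ (run H Γ X t).Adj (Sum.inr j) q

/-- The process started from `Γ` and free vertices contains at some time a copy `g (H)` of `H` such
that `𝒞` holds for the set of the vertices of `H` mapped into `X`. -/
def Creates [Fintype W] [Fintype U] (H : SimpleGraph W) (𝒞 : Set W → Prop) (Γ : SimpleGraph U)
    (X : Set U) : Prop :=
  ∃ t, ∃ g : W ↪ U ⊕ W, (∀ a b, H.Adj a b → (run H Γ X t).Adj (g a) (g b)) ∧
    𝒞 {w | ∃ x ∈ X, g w = Sum.inl x}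

/-- For every `y` there is an `m` such that every critical `m`-chain with at most `y` exceptional
vertices (`X ⊆ Y`, `|Y| ≤ y`) is explosive or creates a copy with trace in `𝒞`. -/
def ChainHyp [Fintype W] (H : SimpleGraph W) (𝒞 : Set W → Prop) : Prop :=
  ∀ y : ℕ, ∃ m : ℕ, 1 ≤ m ∧ ∀ (U : Type) [Fintype U] (X Y : Set U) (f : ℕ → W ↪ U) (a b : ℕ → W),
    X ⊆ Y → Y.ncard ≤ y → IsChain H X Y m f a b →
    Explosive H (world H X Y m f) X ∨ Creates H 𝒞 (world H X Y m f) X

end Pool.Agent.Helper92.GB
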