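import Mathlib
import Pool.Agent.Helper41.BootGap
import Pool.Agent.Helper92.GB.Defs

set_option autoImplicit false

/-! Basic facts on the `H`-process. -/

namespace Pool.Agent.Helper92.GB

open Pool.Agent.Helper41.Boot

variable {W V U : Type*}

theorem completes_mono {H : SimpleGraph W} {G G' : SimpleGraph V} (h : G ≤ G') {x y : V}
    (hc : Completes H G x y) : Completes H G' x y := by
  obtain ⟨f, hf, hab⟩ := hc
  exact ⟨f, fun a b hab => (hf a b hab).imp_left (fun h' => h h'), hab⟩

theorem step_mono [Fintype V] (H : SimpleGraph W) {G G' : SimpleGraph V} (h : G ≤ G') :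
    step H G ≤ step H G' := by
  intro x y hxy
  rw [step_adj] at hxy ⊢
  rcases hxy with hxy | ⟨hne, hc⟩
  · exact Or.inl (h hxy)
  · exact Or.inr ⟨hne, completes_mono h hc⟩

theorem proc_mono_graph [Fintype V] (H : SimpleGraph W) {G G' : SimpleGraph V} (h : G ≤ G')
    (i : ℕ) : proc H G i ≤ proc H G' i := by
  induction i with
  | zero => exact h
  | succ i ih => rw [proc_succ, proc_succ]; exact step_mono H ih

theorem proc_add [Fintype V] (H : SimpleGraph W) (G : SimpleGraph V) (i j : ℕ) :
    proc H (proc H G i) j = proc H G (i + j) := by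
  simp only [proc]
  rw [Nat.add_comm, Function.iterate_add_apply]

theorem proc_embed [Fintype V] [Fintype U] (H : SimpleGraph W) {Γ : SimpleGraph U}
    {G : SimpleGraph V} (ι : U ↪ V) (h : ∀ u v, Γ.Adj u v → G.Adj (ι u) (ι v)) (t : ℕ) {u v : U}
    (huv : (proc H Γ t).Adj u v) : (proc H G t).Adj (ι u) (ι v) :=
  proc_comap_le H G ι t u v (proc_mono_graph H (G' := G.comap ι) (fun a b hab => h a b hab) t huv)

theorem adj_succ [Fintype V] (H : SimpleGraph W) (G : SimpleGraph V) (t : ℕ) {x y : V}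
    (hxy : x ≠ y) (f : W ↪ V)
    (hf : ∀ a b, H.Adj a b → (proc H G t).Adj (f a) (f b) ∨ s(f a, f b) = s(x, y)) :
    (∃ a b, H.Adj a b ∧ s(f a, f b) = s(x, y)) → (proc H G (t + 1)).Adj x y := by
  intro h
  rw [proc_succ, step_adj]
  exact Or.inr ⟨hxy, f, hf, h⟩

theorem completes_of_new [Fintype V] (H : SimpleGraph W) (G : SimpleGraph V) {t : ℕ} {x y : V}
    (h1 : (proc H G (t + 1)).Adj x y) (h0 : ¬ (proc H G t).Adj x y) :
    Completes H (proc H G t) x y := by
  rw [proc_succ, step_adj] at h1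
  rcases h1 with h1 | ⟨-, h1⟩
  · exact absurd h1 h0
  · exact h1

theorem proc_aut [Fintype V] (H : SimpleGraph W) (G : SimpleGraph V) (σ : Equiv.Perm V)
    (hσ : ∀ x y, G.Adj (σ x) (σ y) ↔ G.Adj x y) (t : ℕ) (x y : V) :
    (proc H G t).Adj (σ x) (σ y) ↔ (proc H G t).Adj x y := by
  have key : ∀ τ : Equiv.Perm V, (∀ x y, G.Adj (τ x) (τ y) ↔ G.Adj x y) → ∀ x y,
      (proc H G t).Adj x y → (proc H G t).Adj (τ x) (τ y) := by
    intro τ hτ x y hxy
    exact proc_embed H τ.toEmbedding (fun u v huv => (hτ u v).2 huv) t hxy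
  constructor
  · intro h
    have := key σ.symm (fun x y => by rw [← hσ]; simp) _ _ h
    simpa using this
  · exact key σ hσ x y

theorem runTime_le [Fintype V] (H : SimpleGraph W) (G : SimpleGraph V) {t : ℕ}
    (h : proc H G t = proc H G (t + 1)) : runTime H G ≤ t := Nat.sInf_le h

theorem proc_runTime [Fintype V] (H : SimpleGraph W) (G : SimpleGraph V) {t : ℕ}
    (h : runTime H G ≤ t) : proc H G t = proc H G (runTime H G) :=
  proc_stable H G (runTime_spec H G) h

theorem stable_of_runTime_le [Fintype V] (H : SimpleGraph W) (G : SimpleGraph V) {t : ℕ}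
    (h : runTime H G ≤ t) : proc H G t = proc H G (t + 1) := by
  rw [proc_runTime H G h, proc_runTime H G (Nat.le_succ_of_le h)]

theorem runTime_le_sq [Fintype V] (H : SimpleGraph W) (G : SimpleGraph V) :
    runTime H G ≤ Fintype.card V ^ 2 := by
  classical
  let g : ℕ → ℕ := fun t => ((Finset.univ : Finset (V × V)).filter
    (fun p => (proc H G t).Adj p.1 p.2)).card
  have key : ∀ t, t ≤ runTime H G → t ≤ g t := by
    intro t
    induction t with
    | zero => intro _; exact Nat.zero_le _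
    | succ t ih =>
      intro ht
      have h1 := ih (by omega)
      have hne : proc H G t ≠ proc H G (t + 1) := Nat.notMem_of_lt_sInf (by exact ht)
      have hlt : g t < g (t + 1) := by
        apply Finset.card_lt_card
        refine ⟨?_, ?_⟩
        · intro p hp
          simp only [Finset.mem_filter, Finset.mem_univ, true_and] at hp ⊢
          exact proc_le_succ H G t hp
        · intro hsub
          apply hne
          refine le_antisymm (proc_le_succ H G t) ?_
          intro x y hxy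
          have : (x, y) ∈ (Finset.univ : Finset (V × V)).filter
              (fun p => (proc H G (t + 1)).Adj p.1 p.2) := by simpa using hxy
          have := hsub this
          simpa using this
      omega
  have h1 := key _ le_rfl
  have h2 : g (runTime H G) ≤ Fintype.card V ^ 2 := by
    calc g (runTime H G) ≤ (Finset.univ : Finset (V × V)).card := Finset.card_filter_le _ _
      _ = Fintype.card V ^ 2 := by simp [sq]
  omega

theorem maxRun_le_of_forall (H : SimpleGraph W) (n C : ℕ)
    (h : ∀ G : SimpleGraph (Fin n), runTime H G ≤ C) : maxRun H n ≤ C := by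
  obtain ⟨G, hG⟩ := exists_maxRun H n
  rw [← hG]
  exact h G

/-- `f` is a copy of `H` in `G`. -/
def IsCopy (H : SimpleGraph W) (G : SimpleGraph V) (f : W ↪ V) : Prop :=
  ∀ a b, H.Adj a b → G.Adj (f a) (f b)

/-- `X` is completely joined to the complement of `Y`. -/
def Hub (G : SimpleGraph V) (X Y : Finset V) : Prop := ∀ x ∈ X, ∀ v, v ∉ Y → G.Adj x v

theorem Hub.subset {G : SimpleGraph V} {X Y : Finset V} (h : Hub G X Y) : X ⊆ Y := by
  intro x hx
  by_contra hxY
  exact (h x hx x hxY).ne rfl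

theorem Hub.mono {G G' : SimpleGraph V} {X X' Y Y' : Finset V} (h : Hub G X Y) (hG : G ≤ G')
    (hX : X' ⊆ X) (hY : Y ⊆ Y') : Hub G' X' Y' :=
  fun x hx v hv => hG (h x (hX hx) v (fun hv' => hv (hY hv')))

/-- Every path on `k` vertices of `D` has its ends adjacent in `D'`. -/
def Ends {B : Type*} (k : ℕ) (D D' : SimpleGraph B) : Prop :=
  ∀ p : ℕ → B, Set.InjOn p (Set.Iio k) → (∀ i, i + 1 < k → D.Adj (p i) (p (i + 1))) →
    D'.Adj (p 0) (p (k - 1))

/-- `G` has `N` interchangeable blocks: pairwise disjoint non-empty vertex sets, any two of which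
are exchanged by an automorphism of `G` which fixes all vertices outside these two. -/
def HasBlocks (G : SimpleGraph V) (N : ℕ) : Prop :=
  ∃ B : Fin N → Set V, (∀ i, (B i).Nonempty) ∧ (∀ i j, i ≠ j → Disjoint (B i) (B j)) ∧
    ∀ i j, i ≠ j → ∃ σ : Equiv.Perm V, (∀ x y, G.Adj (σ x) (σ y) ↔ G.Adj x y) ∧
      (∀ x, x ∈ B i → σ x ∈ B j) ∧ ∀ x, x ∉ B i → x ∉ B j → σ x = x

/-- The edges of `G` inside `Q`. -/
def restr (G : SimpleGraph V) (Q : Finset V) : SimpleGraph V where
  Adj x y := G.Adj x y ∧ x ∈ Q ∧ y ∈ Q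
  symm := ⟨fun _ _ h => ⟨h.1.symm, h.2.2, h.2.1⟩⟩
  loopless := ⟨fun _ h => h.1.ne rfl⟩

/-- `Q` is disjoint from `Z` and every neighbour of a vertex of `Q` is in `Q` or in `Z`. -/
def Att (G : SimpleGraph V) (Z Q : Finset V) : Prop :=
  (∀ x ∈ Q, x ∉ Z) ∧ ∀ x ∈ Q, ∀ y, G.Adj x y → y ∉ Z → y ∈ Q

/-- The classes of `κ` on `Q` consist of twins with respect to `Q`. -/
def Twins (G : SimpleGraph V) (Q : Finset V) (κ : V → Bool) : Prop :=
  ∀ x ∈ Q, ∀ y ∈ Q, κ x = κ y → ∀ w ∈ Q, w ≠ x → w ≠ y → (G.Adj w x ↔ G.Adj w y)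

/-- `Q` contains no path on `k` vertices. -/
def NoPath (G : SimpleGraph V) (Q : Finset V) (k : ℕ) : Prop :=
  ∀ p : ℕ → V, Set.InjOn p (Set.Iio k) → (∀ i, i < k → p i ∈ Q) →
    (∀ i, i + 1 < k → G.Adj (p i) (p (i + 1))) → False

/-- The complement of `Z` is a union of classes (of a function `c`), without edges between
different classes, each of which is small, or has twin classes, or has no path on `k` vertices. -/
def Tame (k : ℕ) (G : SimpleGraph V) (Z : Finset V) : Prop :=
  ∃ c : V → V, (∀ x y, x ∉ Z → y ∉ Z → G.Adj x y → c x = c y) ∧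
    ∀ Q : Finset V, (∃ l, ∀ x, x ∈ Q ↔ x ∉ Z ∧ c x = l) →
      Q.card ≤ k ∨ (∃ κ : V → Bool, Twins G Q κ) ∨ NoPath G Q k

/-- The component of `u` contains a path on `k` vertices and a further vertex. -/
def BigComp {B : Type*} (k : ℕ) (D : SimpleGraph B) (u : B) : Prop :=
  ∃ p : ℕ → B, Set.InjOn p (Set.Iio k) ∧ (∀ i, i + 1 < k → D.Adj (p i) (p (i + 1))) ∧
    D.Reachable u (p 0) ∧ ∃ w, D.Reachable u w ∧ ∀ i, i < k → p i ≠ w

/-- Complete (if `k` is odd or the component is not bipartite) or complete bipartite graphs on the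
big components of `D`, the graph `D` itself on the other components. -/
def fill {B : Type*} (k : ℕ) (D : SimpleGraph B) : SimpleGraph B :=
  D ⊔ SimpleGraph.fromRel (fun u v => BigComp k D u ∧ D.Reachable u v ∧
    (Odd k ∨ ∃ q : D.Walk u v, Odd q.length))

end Pool.Agent.Helper92.GB
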