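import Mathlib
import Pool.Agent.Helper92.GB.Basic

set_option autoImplicit false

/-! Module GB-ChainEx.  Extraction of a chain of copies from consecutive rounds.

Proof.  Write `G_s = proc H G s`.  First the backwards construction, by induction on `m ≥ 1`, for
every edge `x y` of `G_{s+m}` which is not an edge of `G_{s+m-1}`: there are `f a b` such that for all
`i < m`: `H.Adj (a i) (b i)`; `f i (a i) f i (b i)` is not an edge of `G_{s+i}`; every edge of
`f i (H)` is an edge of `G_{s+i}` or equal to `s(f i (a i), f i (b i))`; property `next` of `IsChain`;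
and `s(f (m-1) (a (m-1)), f (m-1) (b (m-1))) = s(x, y)`.
Step: `completes_of_new` for `x y` at round `s + m` (in `G_{s+m+1}`, not in `G_{s+m}`) gives the
embedding `g` and `a', b'`.  Some edge `x' y'` of `g (H)` other than `x y` is in `G_{s+m}` and not in
`G_{s+m-1}`, because otherwise `x y` would be completed in `G_{s+m-1}` (`adj_succ`).  Apply the
induction hypothesis to `x' y'` and append `g` (functions `ℕ → _`, use `if i < m then .. else ..`; the
endpoints in `next` may have to be exchanged, use the symmetry of `H`; if needed choose `a i`, `b i`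
in the right order).
`out`: the edge `f i (a i) f i (b i)` is new at round `s + i + 1`; if one end were in `X`, the other
would be in `Y` by `Hub` (which holds at time `s`, hence at time `s + i`) and the first is in
`Y` by `Hub.subset`, contradicting `hY`.  `fresh`: all edges of `f j (H)` are edges of `G_{s+j+1}`,
contained in `G_{s+i}` for `j < i`.
The last property of the conclusion: every edge of every `f i (H)` is in `G_{s+m}`. -/

namespace Pool.Agent.Helper92.GB

open Pool.Agent.Helper41.Boot

private theorem chain_back {W V : Type*} [Fintype V] (H : SimpleGraph W)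
    (G : SimpleGraph V) (s : ℕ) (m : ℕ) : ∀ x y : V, (proc H G (s + m + 1)).Adj x y →
      ¬ (proc H G (s + m)).Adj x y →
    ∃ (f : ℕ → W ↪ V) (a b : ℕ → W),
      (∀ i, i < m + 1 → H.Adj (a i) (b i)) ∧
      (∀ i, i < m + 1 → ¬ (proc H G (s + i)).Adj (f i (a i)) (f i (b i))) ∧
      (∀ i, i < m + 1 → ∀ c d, H.Adj c d → (proc H G (s + i)).Adj (f i c) (f i d) ∨
        s(f i c, f i d) = s(f i (a i), f i (b i))) ∧
      (∀ i, i + 1 < m + 1 → ∃ c d, H.Adj c d ∧ f (i + 1) c = f i (a i) ∧
        f (i + 1) d = f i (b i)) ∧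
      s(f m (a m), f m (b m)) = s(x, y) := by
  induction m with
  | zero =>
    intro x y h1 h0
    obtain ⟨g, hg, a', b', hab, hxy⟩ := completes_of_new H G h1 h0
    refine ⟨fun _ => g, fun _ => a', fun _ => b', ?_, ?_, ?_, ?_, hxy⟩
    · intro i _; exact hab
    · intro i hi hadj
      have hi0 : i = 0 := by omega
      subst hi0
      apply h0
      rcases Sym2.eq_iff.1 hxy with ⟨e1, e2⟩ | ⟨e1, e2⟩
      · rw [← e1, ← e2]; exact hadj
      · rw [← e1, ← e2]; exact hadj.symm
    · intro i hi c d hcd
      have hi0 : i = 0 := by omega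
      subst hi0
      rcases hg c d hcd with h | h
      · exact Or.inl h
      · exact Or.inr (h.trans hxy.symm)
    · intro i hi
      omega
  | succ m ih =>
    intro x y h1 h0
    obtain ⟨g, hg, a', b', hab, hxy⟩ := completes_of_new H G h1 h0
    have hex : ∃ c d, H.Adj c d ∧ ¬ (proc H G (s + m)).Adj (g c) (g d) ∧
        s(g c, g d) ≠ s(x, y) := by
      by_contra hno
      push Not at hno
      apply h0
      have hne : x ≠ y := h1.ne
      refine adj_succ H G (s + m) hne g ?_ ⟨a', b', hab, hxy⟩
      intro c d hcd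
      by_cases hadj : (proc H G (s + m)).Adj (g c) (g d)
      · exact Or.inl hadj
      · exact Or.inr (hno c d hcd hadj)
    obtain ⟨c, d, hcd, hn, hne⟩ := hex
    have hnew : (proc H G (s + m + 1)).Adj (g c) (g d) := by
      rcases hg c d hcd with h | h
      · exact h
      · exact absurd h hne
    obtain ⟨f, a, b, p1, p2, p3, p4, p5⟩ := ih (g c) (g d) hnew hn
    refine ⟨fun i => if i < m + 1 then f i else g, fun i => if i < m + 1 then a i else a',
      fun i => if i < m + 1 then b i else b', ?_, ?_, ?_, ?_, ?_⟩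
    · intro i hi
      by_cases him : i < m + 1
      · simp only [if_pos him]; exact p1 i him
      · simp only [if_neg him]; exact hab
    · intro i hi
      by_cases him : i < m + 1
      · simp only [if_pos him]; exact p2 i him
      · simp only [if_neg him]
        have hi0 : i = m + 1 := by omega
        subst hi0
        intro hadj
        apply h0
        rcases Sym2.eq_iff.1 hxy with ⟨e1, e2⟩ | ⟨e1, e2⟩
        · rw [← e1, ← e2]; exact hadj
        · rw [← e1, ← e2]; exact hadj.symm
    · intro i hi c' d' hcd'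
      by_cases him : i < m + 1
      · simp only [if_pos him]; exact p3 i him c' d' hcd'
      · simp only [if_neg him]
        have hi0 : i = m + 1 := by omega
        subst hi0
        rcases hg c' d' hcd' with h | h
        · exact Or.inl h
        · exact Or.inr (h.trans hxy.symm)
    · intro i hi
      by_cases him : i + 1 < m + 1
      · have him' : i < m + 1 := by omega
        simp only [if_pos him, if_pos him']
        exact p4 i him
      · have hi0 : i = m := by omega
        subst hi0
        have hlt : i < i + 1 := Nat.lt_succ_self i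
        have hnlt : ¬ (i + 1 < i + 1) := lt_irrefl _
        simp only [if_pos hlt, if_neg hnlt]
        rcases Sym2.eq_iff.1 p5 with ⟨e1, e2⟩ | ⟨e1, e2⟩
        · exact ⟨c, d, hcd, e1.symm, e2.symm⟩
        · exact ⟨d, c, hcd.symm, e1.symm, e2.symm⟩
    · have hnlt : ¬ (m + 1 < m + 1) := lt_irrefl _
      simp only [if_neg hnlt]
      exact hxy

theorem chain_exists {W V : Type*} [Fintype V] [DecidableEq V] (H : SimpleGraph W)
    (G : SimpleGraph V) (s m : ℕ) (hm : 1 ≤ m) (X Y : Finset V) (hX : Hub (proc H G s) X Y)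
    (hY : ∀ i, i < m → ∀ x ∈ Y, ∀ y ∈ Y, (proc H G (s + i + 1)).Adj x y →
      (proc H G (s + i)).Adj x y)
    (hne : proc H G (s + m - 1) ≠ proc H G (s + m)) :
    ∃ (f : ℕ → W ↪ V) (a b : ℕ → W),
      (∀ i, i < m → H.Adj (a i) (b i)) ∧
      (∀ i, i < m → f i (a i) ∉ X ∧ f i (b i) ∉ X ∧ ¬ (f i (a i) ∈ Y ∧ f i (b i) ∈ Y)) ∧
      (∀ i, i + 1 < m → ∃ c d, H.Adj c d ∧ f (i + 1) c = f i (a i) ∧ f (i + 1) d = f i (b i)) ∧
      (∀ i, i < m → ¬ (proc H G (s + i)).Adj (f i (a i)) (f i (b i))) ∧
      ∀ i, i < m → IsCopy H (proc H G (s + i + 1)) (f i) := by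
  obtain ⟨m, rfl⟩ : ∃ m', m = m' + 1 := ⟨m - 1, by omega⟩
  have hne' : proc H G (s + m) ≠ proc H G (s + m + 1) := by
    intro h; apply hne
    rw [show s + (m + 1) - 1 = s + m by omega, h]; rfl
  have hnew : ∃ x y, (proc H G (s + m + 1)).Adj x y ∧ ¬ (proc H G (s + m)).Adj x y := by
    by_contra hno
    push Not at hno
    exact hne' (le_antisymm (proc_le_succ H G _) (fun x y hxy => hno x y hxy))
  obtain ⟨x, y, h1, h0⟩ := hnew
  obtain ⟨f, a, b, p1, p2, p3, p4, -⟩ := chain_back H G s m x y h1 h0
  have hcopy : ∀ i, i < m + 1 → IsCopy H (proc H G (s + i + 1)) (f i) := by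
    intro i hi c d hcd
    rcases p3 i hi c d hcd with h | h
    · exact proc_mono H G (Nat.le_succ _) h
    · have hne1 : f i c ≠ f i d := fun e => hcd.ne ((f i).injective e)
      refine adj_succ H G (s + i) hne1 (f i) ?_ ⟨c, d, hcd, rfl⟩
      intro c' d' hcd'
      rcases p3 i hi c' d' hcd' with h' | h'
      · exact Or.inl h'
      · exact Or.inr (h'.trans h.symm)
  refine ⟨f, a, b, p1, ?_, p4, ?_, ?_⟩
  · intro i hi
    have hnadj := p2 i hi
    have hadj : (proc H G (s + i + 1)).Adj (f i (a i)) (f i (b i)) := hcopy i hi _ _ (p1 i hi)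
    have hub : Hub (proc H G (s + i)) X Y :=
      hX.mono (proc_mono H G (Nat.le_add_right _ _)) (Finset.Subset.refl _)
        (Finset.Subset.refl _)
    refine ⟨?_, ?_, ?_⟩
    · intro hx
      by_cases hy : f i (b i) ∈ Y
      · exact hnadj (hY i hi _ (hub.subset hx) _ hy hadj)
      · exact hnadj (hub _ hx _ hy)
    · intro hx
      by_cases hy : f i (a i) ∈ Y
      · exact hnadj (hY i hi _ hy _ (hub.subset hx) hadj)
      · exact hnadj (hub _ hx _ hy).symm
    · intro hxy
      exact hnadj (hY i hi _ hxy.1 _ hxy.2 hadj)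
  · exact p2
  · exact hcopy

end Pool.Agent.Helper92.GB
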