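import Mathlib
import Pool.Agent.Helper92.GB.Basic

set_option autoImplicit false

/-! Module GB-Many.  Many bounded pieces attached to a bounded set give interchangeable blocks.

Proof.  For every `i` let `e i : Fin (Q i).card ≃ Q i`.  The type of `i` is the triple of
`(Q i).card ∈ {0..s}`, the relation `a, b ↦ G.Adj (e i a) (e i b)` on `Fin s` (false if `a` or `b` is not
less than the cardinality) and, for `a : Fin s`, the set of `ζ ∈ Z` with `G.Adj (e i a) ζ`.  With an
enumeration of `Z` by `Fin z` the types are elements of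
`Fin (s+1) × (Fin s → Fin s → Bool) × (Fin s → Fin z → Bool)`, a fixed finite type; if `M` is larger than
`N` times its cardinality then `N` indices have the same type (pigeonhole).  For two such indices
`i ≠ j` the bijection `Q i ≃ Q j` given by `e i`, `e j` extends to an involution `σ` of `V` exchanging
`Q i` and `Q j`, identity elsewhere; it is an automorphism of `G`: pairs inside `Q i` or `Q j`:
same relation; pairs between `Q i ∪ Q j` and `Z`: same adjacency to `Z`; other pairs meeting
`Q i ∪ Q j` are not adjacent, before and after (no edges between `Q i`, `Q j` or to the rest, by `Att`). -/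

namespace Pool.Agent.Helper92.GB

private theorem enum_exists {V : Type} (S : Finset V) (d : V) :
    ∃ w : ℕ → V, (∀ a, a < S.card → w a ∈ S) ∧
      (∀ a b, a < S.card → b < S.card → w a = w b → a = b) ∧
      ∀ x ∈ S, ∃ a, a < S.card ∧ w a = x := by
  classical
  refine ⟨fun a => if h : a < S.card then (S.equivFin.symm ⟨a, h⟩ : V) else d, ?_, ?_, ?_⟩
  · intro a ha
    simp only [ha, dif_pos]
    exact (S.equivFin.symm ⟨a, ha⟩).2
  · intro a b ha hb h
    simp only [ha, hb, dif_pos] at h
    have h1 := S.equivFin.symm.injective (Subtype.ext h)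
    exact Fin.mk.inj_iff.1 h1
  · intro x hx
    refine ⟨(S.equivFin ⟨x, hx⟩ : ℕ), (S.equivFin ⟨x, hx⟩).2, ?_⟩
    simp

private theorem swap_exists {V : Type} [DecidableEq V] (p q : ℕ → V) (k : ℕ)
    (hp : ∀ a b, a < k → b < k → p a = p b → a = b)
    (hq : ∀ a b, a < k → b < k → q a = q b → a = b)
    (hpq : ∀ a b, a < k → b < k → p a ≠ q b) :
    ∃ σ : Equiv.Perm V, (∀ a, a < k → σ (p a) = q a) ∧ (∀ a, a < k → σ (q a) = p a) ∧
      ∀ x, (∀ a, a < k → x ≠ p a) → (∀ a, a < k → x ≠ q a) → σ x = x := by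
  induction k with
  | zero => exact ⟨1, by simp, by simp, fun x _ _ => rfl⟩
  | succ k ih =>
    obtain ⟨σ, h1, h2, h3⟩ := ih (fun a b ha hb => hp a b (by omega) (by omega))
      (fun a b ha hb => hq a b (by omega) (by omega))
      (fun a b ha hb => hpq a b (by omega) (by omega))
    have fp : σ (p k) = p k := h3 _
      (fun a ha h => by have := hp k a (by omega) (by omega) h; omega)
      (fun a ha h => hpq k a (by omega) (by omega) h)
    have fq : σ (q k) = q k := h3 _
      (fun a ha h => hpq a k (by omega) (by omega) h.symm)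
      (fun a ha h => by have := hq k a (by omega) (by omega) h; omega)
    refine ⟨σ * Equiv.swap (p k) (q k), ?_, ?_, ?_⟩
    · intro a ha
      rw [Equiv.Perm.mul_apply]
      by_cases hak : a = k
      · subst hak
        rw [Equiv.swap_apply_left, fq]
      · have ha' : a < k := by omega
        rw [Equiv.swap_apply_of_ne_of_ne, h1 a ha']
        · intro h
          exact hak (hp a k (by omega) (by omega) h)
        · exact hpq a k (by omega) (by omega)
    · intro a ha
      rw [Equiv.Perm.mul_apply]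
      by_cases hak : a = k
      · subst hak
        rw [Equiv.swap_apply_right, fp]
      · have ha' : a < k := by omega
        rw [Equiv.swap_apply_of_ne_of_ne, h2 a ha']
        · exact (hpq k a (by omega) (by omega)).symm
        · intro h
          exact hak (hq a k (by omega) (by omega) h)
    · intro x hx hx'
      rw [Equiv.Perm.mul_apply, Equiv.swap_apply_of_ne_of_ne (hx k (by omega)) (hx' k (by omega))]
      exact h3 x (fun a ha => hx a (by omega)) (fun a ha => hx' a (by omega))

theorem blocks_of_many (z s N : ℕ) :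
    ∃ M : ℕ, ∀ (V : Type) [Fintype V] [DecidableEq V] (G : SimpleGraph V) (Z : Finset V)
      (Q : Fin M → Finset V), Z.card ≤ z → (∀ i, (Q i).Nonempty) → (∀ i, (Q i).card ≤ s) →
      (∀ i j, i ≠ j → Disjoint (Q i) (Q j)) → (∀ i, Att G Z (Q i)) → HasBlocks G N := by
  classical
  refine ⟨Fintype.card (Fin (s + 1) × (Fin s → Fin s → Prop) × (Fin s → Fin z → Prop)) * N + 1, ?_⟩
  intro V _ _ G Z Q hz hne hs hd hA
  obtain ⟨d, -⟩ := hne 0
  choose w hw1 hw2 hw3 using fun i => enum_exists (Q i) d
  obtain ⟨ζ, -, -, hζ⟩ := enum_exists Z d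
  let ty : Fin (Fintype.card (Fin (s + 1) × (Fin s → Fin s → Prop) × (Fin s → Fin z → Prop)) * N + 1)
      → Fin (s + 1) × (Fin s → Fin s → Prop) × (Fin s → Fin z → Prop) := fun i =>
    (⟨(Q i).card, by have := hs i; omega⟩, fun a b => G.Adj (w i a) (w i b),
      fun a c => G.Adj (w i a) (ζ c))
  obtain ⟨y, hy⟩ := Fintype.exists_lt_card_fiber_of_mul_lt_card ty (n := N)
    (by rw [Fintype.card_fin]; exact Nat.lt_succ_self _)
  set F := Finset.univ.filter (fun x => ty x = y) with hF
  have hFm : ∀ x ∈ F, ty x = y := fun x hx => (Finset.mem_filter.1 hx).2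
  let g : Fin N → Fin (Fintype.card
      (Fin (s + 1) × (Fin s → Fin s → Prop) × (Fin s → Fin z → Prop)) * N + 1) :=
    fun a => (F.equivFin.symm ⟨a, a.2.trans hy⟩ : F)
  have hg : ∀ a, ty (g a) = y := fun a => hFm _ (F.equivFin.symm ⟨a, a.2.trans hy⟩).2
  have hginj : Function.Injective g := by
    intro a b h
    have h1 := F.equivFin.symm.injective (Subtype.ext h)
    exact Fin.ext (Fin.mk.inj_iff.1 h1)
  refine ⟨fun a => ((Q (g a) : Finset V) : Set V), fun a => ?_, fun a b hab => ?_,
    fun a b hab => ?_⟩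
  · exact Finset.coe_nonempty.2 (hne (g a))
  · exact Finset.disjoint_coe.2 (hd _ _ (fun h => hab (hginj h)))
  · have hne' : g a ≠ g b := fun h => hab (hginj h)
    have hty : ty (g a) = ty (g b) := (hg a).trans (hg b).symm
    have hdis := hd _ _ hne'
    show ∃ σ : Equiv.Perm V, (∀ x y, G.Adj (σ x) (σ y) ↔ G.Adj x y) ∧
      (∀ x, x ∈ ((Q (g a) : Finset V) : Set V) → σ x ∈ ((Q (g b) : Finset V) : Set V)) ∧
      ∀ x, x ∉ ((Q (g a) : Finset V) : Set V) → x ∉ ((Q (g b) : Finset V) : Set V) → σ x = x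
    generalize g a = i at hne' hty hdis ⊢
    generalize g b = j at hne' hty hdis ⊢
    have hcard : (Q i).card = (Q j).card := congrArg (fun t => (t.1 : ℕ)) hty
    have hrel : ∀ a b, a < (Q i).card → b < (Q i).card →
        (G.Adj (w i a) (w i b) ↔ G.Adj (w j a) (w j b)) := by
      intro a b ha hb
      have h1 := congrArg (fun t => t.2.1 ⟨a, ha.trans_le (hs i)⟩ ⟨b, hb.trans_le (hs i)⟩) hty
      exact Eq.to_iff h1
    have hatt : ∀ a, a < (Q i).card → ∀ x ∈ Z, (G.Adj (w i a) x ↔ G.Adj (w j a) x) := by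
      intro a ha x hx
      obtain ⟨c, hc, rfl⟩ := hζ x hx
      have h1 := congrArg (fun t => t.2.2 ⟨a, ha.trans_le (hs i)⟩ ⟨c, hc.trans_le hz⟩) hty
      exact Eq.to_iff h1
    have hdisj : ∀ a b, a < (Q i).card → b < (Q i).card → w i a ≠ w j b := by
      intro a b ha hb h
      have h1 := hw1 i a ha
      have h2 := hw1 j b (hcard ▸ hb)
      rw [← h] at h2
      exact Finset.disjoint_left.1 hdis h1 h2
    obtain ⟨σ, s1, s2, s3⟩ := swap_exists (w i) (w j) (Q i).card (hw2 i)
      (fun a b ha hb => hw2 j a b (hcard ▸ ha) (hcard ▸ hb)) hdisj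
    have s3' : ∀ x, x ∉ Q i → x ∉ Q j → σ x = x := by
      intro x hx hx'
      refine s3 x (fun a ha h => hx (h ▸ hw1 i a ha)) (fun a ha h => hx' (h ▸ hw1 j a (hcard ▸ ha)))
    have hcase : ∀ x, (∃ a, a < (Q i).card ∧ w i a = x) ∨ (∃ a, a < (Q i).card ∧ w j a = x) ∨
        (x ∉ Q i ∧ x ∉ Q j) := by
      intro x
      by_cases h1 : x ∈ Q i
      · exact Or.inl (hw3 i x h1)
      · by_cases h2 : x ∈ Q j
        · right; left
          rw [hcard]
          exact hw3 j x h2
        · exact Or.inr (Or.inr ⟨h1, h2⟩)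
    have hinv : ∀ x, σ (σ x) = x := by
      intro x
      rcases hcase x with ⟨a, ha, rfl⟩ | ⟨a, ha, rfl⟩ | ⟨h1, h2⟩
      · rw [s1 a ha, s2 a ha]
      · rw [s2 a ha, s1 a ha]
      · rw [s3' x h1 h2, s3' x h1 h2]
    have key1 : ∀ a, a < (Q i).card → ∀ y, G.Adj (w i a) y → G.Adj (w j a) (σ y) := by
      intro a ha y hxy
      by_cases hy : y ∈ Z
      · have h1 : y ∉ Q i := fun h => (hA i).1 y h hy
        have h2 : y ∉ Q j := fun h => (hA j).1 y h hy
        rw [s3' y h1 h2]
        exact (hatt a ha y hy).1 hxy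
      · have h1 := (hA i).2 _ (hw1 i a ha) y hxy hy
        obtain ⟨b, hb, rfl⟩ := hw3 i y h1
        rw [s1 b hb]
        exact (hrel a b ha hb).1 hxy
    have key2 : ∀ a, a < (Q i).card → ∀ y, G.Adj (w j a) y → G.Adj (w i a) (σ y) := by
      intro a ha y hxy
      by_cases hy : y ∈ Z
      · have h1 : y ∉ Q i := fun h => (hA i).1 y h hy
        have h2 : y ∉ Q j := fun h => (hA j).1 y h hy
        rw [s3' y h1 h2]
        exact (hatt a ha y hy).2 hxy
      · have h1 := (hA j).2 _ (hw1 j a (hcard ▸ ha)) y hxy hy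
        obtain ⟨b, hb, rfl⟩ := hw3 j y h1
        rw [← hcard] at hb
        rw [s2 b hb]
        exact (hrel a b ha hb).2 hxy
    have key : ∀ x y, G.Adj x y → G.Adj (σ x) (σ y) := by
      intro x y hxy
      rcases hcase x with ⟨a, ha, rfl⟩ | ⟨a, ha, rfl⟩ | ⟨h1, h2⟩
      · rw [s1 a ha]
        exact key1 a ha y hxy
      · rw [s2 a ha]
        exact key2 a ha y hxy
      · rcases hcase y with ⟨a, ha, rfl⟩ | ⟨a, ha, rfl⟩ | ⟨h3, h4⟩
        · rw [s1 a ha]
          exact (key1 a ha x hxy.symm).symm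
        · rw [s2 a ha]
          exact (key2 a ha x hxy.symm).symm
        · rw [s3' x h1 h2, s3' y h3 h4]
          exact hxy
    refine ⟨σ, fun x y => ⟨fun h => ?_, key x y⟩, ?_, ?_⟩
    · have := key _ _ h
      rwa [hinv, hinv] at this
    · intro x hx
      obtain ⟨a, ha, rfl⟩ := hw3 i x (Finset.mem_coe.1 hx)
      rw [s1 a ha]
      exact Finset.mem_coe.2 (hw1 j a (hcard ▸ ha))
    · intro x hx hx'
      exact s3' x (fun h => hx (Finset.mem_coe.2 h)) (fun h => hx' (Finset.mem_coe.2 h))

end Pool.Agent.Helper92.GB
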