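import Mathlib
import Pool.Agent.Helper92.GB.Basic
import Pool.Agent.Helper92.GB.Many

set_option autoImplicit false

/-! Module GB-Classes.  Consequence of `blocks_of_many`.

Proof.  Let `M₀` be the bound of `blocks_of_many z s N` and `M = M₀ * s + 1`.  The non-empty classes
`Q.filter (c · = l)`, `l ∈ Q.image c`, have at most `s` elements each, so there are more than `M₀` of
them (`Finset.card_le_mul_card_image` or similar); choose `M₀` distinct values `l`; the classes are
attached to `Z`. -/

namespace Pool.Agent.Helper92.GB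

theorem blocks_of_classes (z s N : ℕ) :
    ∃ M : ℕ, ∀ (V : Type) [Fintype V] [DecidableEq V] (G : SimpleGraph V) (Z Q : Finset V)
      (c : V → V), Z.card ≤ z → Att G Z Q → (∀ x ∈ Q, ∀ y ∈ Q, G.Adj x y → c x = c y) →
      (∀ l, (Q.filter (fun x => c x = l)).card ≤ s) → M ≤ Q.card → HasBlocks G N := by
  obtain ⟨M₀, hM₀⟩ := blocks_of_many z s N
  refine ⟨M₀ * s + 1, ?_⟩
  intro V _ _ G Z Q c hZ hatt hc hs hM
  have h1 : Q.card ≤ s * (Q.image c).card :=
    Finset.card_le_mul_card_image Q s (fun a _ => hs a)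
  have h2 : M₀ ≤ (Q.image c).card := by
    by_contra hlt
    push Not at hlt
    have h3 : s * (Q.image c).card ≤ s * M₀ := Nat.mul_le_mul_left s hlt.le
    rw [Nat.mul_comm s M₀] at h3
    omega
  obtain ⟨T, hT, hTc⟩ := Finset.exists_subset_card_eq h2
  have e : Fin M₀ ≃ T := (Finset.equivFinOfCardEq hTc).symm
  refine hM₀ V G Z (fun i => Q.filter (fun x => c x = (e i : V))) hZ ?_ ?_ ?_ ?_
  · intro i
    have h3 : ((e i : T) : V) ∈ Q.image c := hT (e i).2
    obtain ⟨x, hx, hxc⟩ := Finset.mem_image.1 h3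
    exact ⟨x, Finset.mem_filter.2 ⟨hx, hxc⟩⟩
  · intro i
    exact hs _
  · intro i j hij
    rw [Finset.disjoint_left]
    intro x hx hx'
    apply hij
    apply e.injective
    apply Subtype.ext
    rw [← (Finset.mem_filter.1 hx).2, ← (Finset.mem_filter.1 hx').2]
  · intro i
    refine ⟨fun x hx => hatt.1 x (Finset.mem_filter.1 hx).1, ?_⟩
    intro x hx y hxy hy
    have hx1 := Finset.mem_filter.1 hx
    have hyQ := hatt.2 x hx1.1 y hxy hy
    exact Finset.mem_filter.2 ⟨hyQ, by rw [← hc x hx1.1 y hyQ hxy]; exact hx1.2⟩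

end Pool.Agent.Helper92.GB
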