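import Mathlib
import Pool.Agent.Helper92.GB.Basic

set_option autoImplicit false

/-! Module GB-CycSkip.  Closed graphs: neighbours of a cycle of length `k`.

`cyc_of_path`: put `c i = p i.val`; the closing edge is `hclosed p`.
`cyc_skip` (`m = 1`, then induction): the path `v, c j, c (j-1), ..., c (j-(k-2)) = c (j+2)` has `k`
vertices, so `v` is adjacent to `c (j+2)` (take `p 0 = v`, `p (i+1) = c (j - i)`; injective on
`{0,...,k-1}` because `0, ..., k-2` are distinct in `ZMod k`; `-(k-2) = 2` in `ZMod k`).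
`cyc_swap`: if `v` is outside the cycle and adjacent to `c (i-1)` and `c (i+1)` then replacing `c i` by
`v` gives a cycle (`Function.update c i v`). -/

namespace Pool.Agent.Helper92.GB

/-- `c` is a cycle of length `k` in `Γ`. -/
structure IsCyc {U : Type*} (k : ℕ) (Γ : SimpleGraph U) (c : ZMod k → U) : Prop where
  inj : Function.Injective c
  adj : ∀ i, Γ.Adj (c i) (c (i + 1))

theorem cyc_of_path {U : Type*} (k : ℕ) (hk : 3 ≤ k) (Γ : SimpleGraph U) (hclosed : Ends k Γ Γ)
    (p : ℕ → U) (hp : Set.InjOn p (Set.Iio k)) (hadj : ∀ i, i + 1 < k → Γ.Adj (p i) (p (i + 1))) :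
    ∃ c : ZMod k → U, IsCyc k Γ c ∧ ∀ i, ∃ j, j < k ∧ c i = p j := by
  have : NeZero k := ⟨by omega⟩
  refine ⟨fun i => p i.val, ⟨?_, ?_⟩, fun i => ⟨i.val, ZMod.val_lt i, rfl⟩⟩
  · intro i j hij
    have h := hp (Set.mem_Iio.2 (ZMod.val_lt i)) (Set.mem_Iio.2 (ZMod.val_lt j)) hij
    exact ZMod.val_injective k h
  · intro i
    have h1 : (i + 1).val = (i.val + 1) % k := by
      rw [ZMod.val_add, ZMod.val_one'' (by omega)]
    have hlt := ZMod.val_lt i
    show Γ.Adj (p i.val) (p (i + 1).val)
    rw [h1]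
    by_cases h : i.val + 1 < k
    · rw [Nat.mod_eq_of_lt h]
      exact hadj _ h
    · have h2 : i.val = k - 1 := by omega
      have h3 : (i.val + 1) % k = 0 := by
        rw [h2, Nat.sub_add_cancel (by omega), Nat.mod_self]
      rw [h3, h2]
      exact (hclosed p hp hadj).symm

private theorem cyc_skip_one {U : Type*} (k : ℕ) (hk : 3 ≤ k) (Γ : SimpleGraph U)
    (hclosed : Ends k Γ Γ) (c : ZMod k → U) (hc : IsCyc k Γ c) (v : U) (hv : ∀ i, c i ≠ v)
    (j : ZMod k) (hvj : Γ.Adj v (c j)) : Γ.Adj v (c (j + 2)) := by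
  have : NeZero k := ⟨by omega⟩
  obtain ⟨p, hp0, hp1⟩ : ∃ p : ℕ → U, p 0 = v ∧ ∀ n : ℕ, p (n + 1) = c (j - (n : ZMod k)) :=
    ⟨fun n => Nat.rec (motive := fun _ => U) v (fun n _ => c (j - (n : ZMod k))) n, rfl,
      fun n => rfl⟩
  have hinj : Set.InjOn p (Set.Iio k) := by
    intro a ha b hb hab
    rw [Set.mem_Iio] at ha hb
    rcases a with _ | a
    · rcases b with _ | b
      · rfl
      · rw [hp0, hp1] at hab
        exact absurd hab.symm (hv _)
    · rcases b with _ | b
      · rw [hp0, hp1] at hab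
        exact absurd hab (hv _)
      · rw [hp1, hp1] at hab
        have h1 := hc.inj hab
        have h2 : ((a : ℕ) : ZMod k) = (b : ℕ) := by
          have := congrArg (fun x => j - x) h1
          simpa using this
        rw [ZMod.natCast_eq_natCast_iff'] at h2
        rw [Nat.mod_eq_of_lt (by omega), Nat.mod_eq_of_lt (by omega)] at h2
        rw [h2]
  have hadj : ∀ i, i + 1 < k → Γ.Adj (p i) (p (i + 1)) := by
    intro i _
    rcases i with _ | i
    · rw [hp0, hp1]
      simpa using hvj
    · rw [hp1, hp1]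
      have h1 := hc.adj (j - ((i + 1 : ℕ) : ZMod k))
      have h2 : j - ((i + 1 : ℕ) : ZMod k) + 1 = j - (i : ZMod k) := by
        push_cast
        ring
      rw [h2] at h1
      exact h1.symm
  have h := hclosed p hinj hadj
  have h1 : k - 1 = (k - 2) + 1 := by omega
  rw [hp0, h1, hp1] at h
  have h2 : j - ((k - 2 : ℕ) : ZMod k) = j + 2 := by
    rw [Nat.cast_sub (by omega), ZMod.natCast_self]
    push_cast
    ring
  rw [h2] at h
  exact h

theorem cyc_skip {U : Type*} (k : ℕ) (hk : 3 ≤ k) (Γ : SimpleGraph U) (hclosed : Ends k Γ Γ)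
    (c : ZMod k → U) (hc : IsCyc k Γ c) (v : U) (hv : ∀ i, c i ≠ v) (j : ZMod k)
    (hvj : Γ.Adj v (c j)) (m : ℕ) : Γ.Adj v (c (j + 2 * (m : ZMod k))) := by
  induction m with
  | zero => simpa using hvj
  | succ m ih =>
    have h := cyc_skip_one k hk Γ hclosed c hc v hv _ ih
    have h2 : j + 2 * (m : ZMod k) + 2 = j + 2 * ((m + 1 : ℕ) : ZMod k) := by
      push_cast
      ring
    rw [h2] at h
    exact h

theorem cyc_swap {U : Type*} (k : ℕ) (hk : 3 ≤ k) (Γ : SimpleGraph U) (c : ZMod k → U)
    (hc : IsCyc k Γ c) (v : U) (hv : ∀ i, c i ≠ v) (i : ZMod k) (h1 : Γ.Adj v (c (i - 1)))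
    (h2 : Γ.Adj v (c (i + 1))) :
    IsCyc k Γ (Function.update c i v) ∧ ∀ j, Function.update c i v j ≠ c i := by
  have : NeZero k := ⟨by omega⟩
  have : Fact (1 < k) := ⟨by omega⟩
  refine ⟨⟨?_, ?_⟩, ?_⟩
  · intro a b hab
    by_cases ha : a = i
    · by_cases hb : b = i
      · rw [ha, hb]
      · rw [ha, Function.update_self, Function.update_of_ne hb] at hab
        exact absurd hab.symm (hv b)
    · by_cases hb : b = i
      · rw [hb, Function.update_self, Function.update_of_ne ha] at hab
        exact absurd hab (hv a)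
      · rw [Function.update_of_ne ha, Function.update_of_ne hb] at hab
        exact hc.inj hab
  · intro l
    by_cases hl : l = i
    · have h3 : l + 1 ≠ i := by
        intro h
        rw [hl] at h
        exact one_ne_zero (α := ZMod k) (by simpa using h)
      rw [hl] at h3 ⊢
      rw [Function.update_self, Function.update_of_ne h3]
      exact h2
    · by_cases hl1 : l + 1 = i
      · have h4 : l = i - 1 := by rw [← hl1]; ring
        rw [Function.update_of_ne hl, hl1, Function.update_self, h4]
        exact h1.symm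
      · rw [Function.update_of_ne hl, Function.update_of_ne hl1]
        exact hc.adj l
  · intro j
    by_cases hj : j = i
    · rw [hj, Function.update_self]
      exact fun h => hv i h.symm
    · rw [Function.update_of_ne hj]
      exact fun h => hj (hc.inj h)

end Pool.Agent.Helper92.GB
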