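import Mathlib
import Pool.Agent.Helper92.GB.Basic
import Pool.Agent.Helper92.GB.CycSkip

set_option autoImplicit false

/-! Module GB-Colour.  Structure of a connected closed graph with a `k`-cycle `c` and a vertex outside.

Proof.  Let `R` be the set of the vertices outside the cycle which are adjacent to some `c i`.
(1) Every vertex is in the cycle or in `R`: walk from `c 0` (`hconn`); if `x ∈ R` and `y` is adjacent
to `x`, `y` outside the cycle: `x` is adjacent to `c j` and `c (j+2)` (`cyc_skip`), so `x` can replace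
`c (j+1)` (`cyc_swap`); `y` is adjacent to the new cycle at the place `j + 1`, so (`cyc_skip`) to the
new cycle at `j + 3`, which is `c (j+3)` as `2 ≠ 0` in `ZMod k`; so `y ∈ R` (if `y = c (j+1)` it is in
the old cycle anyway).  `R` is not empty because of `w₀`.
(2) Let `v ∈ R`.  `k` odd: `v` is adjacent to all `c i` (every element of `ZMod k` is `j + 2 m`,
`m` a natural number, as `2` is a unit).  Replacing `c i` by `v`, the vertex `c i` is outside the new
cycle and adjacent to `c (i+1)`, so adjacent to the whole new cycle: `v` and all `c l`, `l ≠ i`.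
For `x ≠ y` in `R`: put `x` in the place of `c 1`, then `y` is adjacent to all of the new cycle, so
to `x`.  So `Γ` is complete.
(3) `k` even (`k ≥ 4`).  The parity of `i : ZMod k` is that of `i.val`, it changes with `i + 1`, and
the elements `j + 2 m` are those of the parity of `j`.  `v ∈ R` adjacent to `c j`: adjacent to all `c i`
with `i` of the parity of `j`.  Replacing `c i` (`i` of the other parity) by `v`: `c i` is adjacent to
all `c l` with `l` of the parity of `j` (`l` and `i` have different parity, so `c l` is in the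
new cycle).  So all `c i`, `c l` with `i - l` odd are adjacent.  Colour `c i` by the parity of `i`
(`true` if `i.val` is even), `x ∈ R` by `false` if `x` is adjacent to some `c j` with `j.val` even (so to
all such) and by `true` otherwise (then `x` is adjacent to all `c j` with `j.val` odd).
Different colours are adjacent: two cycle vertices: done; `x ∈ R` and `c j`: by the choice of the
colour; `x, y ∈ R` with `x` adjacent to all even `c j` and `y` adjacent to all odd `c j`: put `x` in the
place of `c 1` (adjacent to `c 0`, `c 2`); `y` is adjacent to the new cycle at `3 ≠ 1` (`k ≥ 4`), so at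
`3 + 2 m = 1` for a suitable `m`, i.e. to `x`. -/

namespace Pool.Agent.Helper92.GB

private theorem two_ne {k : ℕ} (hk : 3 ≤ k) : (2 : ZMod k) ≠ 0 := by
  intro h
  have h1 : ((2 : ℕ) : ZMod k) = 0 := by exact_mod_cast h
  rw [ZMod.natCast_eq_zero_iff] at h1
  have := Nat.le_of_dvd (by norm_num) h1
  omega

private theorem one_ne {k : ℕ} (hk : 3 ≤ k) : (1 : ZMod k) ≠ 0 := by
  intro h
  have h1 : ((1 : ℕ) : ZMod k) = 0 := by exact_mod_cast h
  rw [ZMod.natCast_eq_zero_iff] at h1
  have := Nat.le_of_dvd (by norm_num) h1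
  omega

private theorem add_one_ne {k : ℕ} (hk : 3 ≤ k) (i : ZMod k) : i + 1 ≠ i := by
  intro h
  apply one_ne hk
  have := congrArg (fun x => x - i) h
  simpa using this

private theorem sub_one_ne {k : ℕ} (hk : 3 ≤ k) (i : ZMod k) : i - 1 ≠ i := by
  intro h
  apply one_ne hk
  have := congrArg (fun x => i - x) h
  simpa using this

private theorem cover {U : Type*} (k : ℕ) (hk : 3 ≤ k) (Γ : SimpleGraph U)
    (hconn : Γ.Preconnected) (hclosed : Ends k Γ Γ) (c : ZMod k → U) (hc : IsCyc k Γ c) (x : U) :
    (∃ i, c i = x) ∨ ∃ i, Γ.Adj x (c i) := by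
  have key : ∀ u x : U, Γ.Walk u x → ((∃ i, c i = u) ∨ ∃ i, Γ.Adj u (c i)) →
      ((∃ i, c i = x) ∨ ∃ i, Γ.Adj x (c i)) := by
    intro u x p
    induction p with
    | nil => exact fun h => h
    | @cons x y z hxy _ ih =>
      intro hx
      apply ih
      by_cases hyc : ∃ i, c i = y
      · exact Or.inl hyc
      right
      push Not at hyc
      by_cases hxc : ∃ i, c i = x
      · obtain ⟨i, rfl⟩ := hxc
        exact ⟨i, hxy.symm⟩
      · rcases hx with hx | ⟨j, hj⟩
        · exact absurd hx hxc
        push Not at hxc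
        have h2 := cyc_skip k hk Γ hclosed c hc x hxc j hj 1
        have e1 : j = j + 1 - 1 := by ring
        have e2 : j + 2 * ((1 : ℕ) : ZMod k) = j + 1 + 1 := by push_cast; ring
        rw [e2] at h2
        rw [e1] at hj
        obtain ⟨hc', -⟩ := cyc_swap k hk Γ c hc x hxc (j + 1) hj h2
        have hv' : ∀ i, Function.update c (j + 1) x i ≠ y := by
          intro i
          by_cases hi : i = j + 1
          · rw [hi, Function.update_self]
            exact hxy.ne
          · rw [Function.update_of_ne hi]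
            exact hyc i
        have h3 : Γ.Adj y (Function.update c (j + 1) x (j + 1)) := by
          rw [Function.update_self]
          exact hxy.symm
        have h4 := cyc_skip k hk Γ hclosed _ hc' y hv' (j + 1) h3 1
        have h5 : j + 1 + 2 * ((1 : ℕ) : ZMod k) ≠ j + 1 := by
          intro h
          apply two_ne hk
          have := congrArg (fun x => x - (j + 1)) h
          simpa using this
        rw [Function.update_of_ne h5] at h4
        exact ⟨_, h4⟩
  obtain ⟨p⟩ := hconn (c 0) x
  exact key _ _ p (Or.inl ⟨0, rfl⟩)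

private theorem all_of_odd {U : Type*} (k : ℕ) (hk : 3 ≤ k) (hodd : Odd k) (Γ : SimpleGraph U)
    (hclosed : Ends k Γ Γ) (c : ZMod k → U) (hc : IsCyc k Γ c) (v : U)
    (hv : ∀ i, c i ≠ v) (j : ZMod k) (hj : Γ.Adj v (c j)) (l : ZMod k) : Γ.Adj v (c l) := by
  have : NeZero k := ⟨by omega⟩
  obtain ⟨h, hh⟩ := hodd
  have h1 := cyc_skip k hk Γ hclosed c hc v hv j hj ((h + 1) * (l - j).val)
  have h2 : j + 2 * (((h + 1) * (l - j).val : ℕ) : ZMod k) = l := by
    have h3 : (2 : ZMod k) * ((h + 1 : ℕ) : ZMod k) = 1 := by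
      have h4 : ((2 * (h + 1) : ℕ) : ZMod k) = ((k + 1 : ℕ) : ZMod k) := by
        congr 1
        omega
      rw [Nat.cast_mul, Nat.cast_add k 1, ZMod.natCast_self] at h4
      simpa using h4
    rw [Nat.cast_mul, ZMod.natCast_zmod_val, ← mul_assoc, h3]
    ring
  rw [h2] at h1
  exact h1

theorem complete_of_odd {U : Type*} (k : ℕ) (hk : 3 ≤ k) (hodd : Odd k) (Γ : SimpleGraph U)
    (hconn : Γ.Preconnected) (hclosed : Ends k Γ Γ) (c : ZMod k → U) (hc : IsCyc k Γ c) (w₀ : U)
    (hw : ∀ i, c i ≠ w₀) (u v : U) (huv : u ≠ v) : Γ.Adj u v := by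
  have hR : ∀ x, (∀ i, c i ≠ x) → ∀ l, Γ.Adj x (c l) := by
    intro x hx l
    rcases cover k hk Γ hconn hclosed c hc x with ⟨i, hi⟩ | ⟨i, hi⟩
    · exact absurd hi (hx i)
    · exact all_of_odd k hk hodd Γ hclosed c hc x hx i hi l
  have hcc : ∀ i l, i ≠ l → Γ.Adj (c i) (c l) := by
    intro i l hil
    obtain ⟨hc', h2⟩ := cyc_swap k hk Γ c hc w₀ hw i (hR _ hw _) (hR _ hw _)
    have h3 : Γ.Adj (c i) (Function.update c i w₀ (i + 1)) := by
      rw [Function.update_of_ne (add_one_ne hk i)]
      exact hc.adj i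
    have h4 := all_of_odd k hk hodd Γ hclosed _ hc' (c i) h2 (i + 1) h3 l
    rw [Function.update_of_ne hil.symm] at h4
    exact h4
  by_cases hu : ∃ i, c i = u
  · obtain ⟨i, rfl⟩ := hu
    by_cases hv : ∃ l, c l = v
    · obtain ⟨l, rfl⟩ := hv
      exact hcc i l (fun h => huv (congrArg c h))
    · push Not at hv
      exact (hR v hv i).symm
  · push Not at hu
    by_cases hv : ∃ l, c l = v
    · obtain ⟨l, rfl⟩ := hv
      exact hR u hu l
    · push Not at hv
      obtain ⟨hc', -⟩ := cyc_swap k hk Γ c hc u hu 1 (hR _ hu _) (hR _ hu _)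
      have hv' : ∀ i, Function.update c 1 u i ≠ v := by
        intro i
        by_cases hi : i = 1
        · rw [hi, Function.update_self]
          exact huv
        · rw [Function.update_of_ne hi]
          exact hv i
      have h3 : Γ.Adj v (Function.update c 1 u (1 + 1)) := by
        rw [Function.update_of_ne (add_one_ne hk 1)]
        exact hR v hv _
      have h4 := all_of_odd k hk hodd Γ hclosed _ hc' v hv' (1 + 1) h3 1
      rw [Function.update_self] at h4
      exact h4.symm

private theorem val_succ_mod {k : ℕ} (hk : 3 ≤ k) (heven : Even k) (i : ZMod k) :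
    (i + 1).val % 2 = (i.val + 1) % 2 := by
  have : NeZero k := ⟨by omega⟩
  rw [ZMod.val_add, ZMod.val_one'' (by omega)]
  exact Nat.mod_mod_of_dvd _ (even_iff_two_dvd.1 heven)

private theorem all_of_par {U : Type*} (k : ℕ) (hk : 3 ≤ k) (heven : Even k) (Γ : SimpleGraph U)
    (hclosed : Ends k Γ Γ) (c : ZMod k → U) (hc : IsCyc k Γ c) (v : U)
    (hv : ∀ i, c i ≠ v) (j : ZMod k) (hj : Γ.Adj v (c j)) (l : ZMod k)
    (hl : l.val % 2 = j.val % 2) : Γ.Adj v (c l) := by
  have : NeZero k := ⟨by omega⟩
  obtain ⟨h, hh⟩ := heven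
  have hjlt := ZMod.val_lt j
  have h1 := cyc_skip k hk Γ hclosed c hc v hv j hj ((l.val + k - j.val) / 2)
  have h2 : j + 2 * (((l.val + k - j.val) / 2 : ℕ) : ZMod k) = l := by
    have h3 : j.val + 2 * ((l.val + k - j.val) / 2) = l.val + k := by omega
    have h4 := congrArg (fun n : ℕ => (n : ZMod k)) h3
    simp only [Nat.cast_add, Nat.cast_mul, ZMod.natCast_zmod_val, ZMod.natCast_self, add_zero] at h4
    simpa using h4
  rw [h2] at h1
  exact h1

theorem exists_colour {U : Type*} (k : ℕ) (hk : 3 ≤ k) (heven : Even k) (Γ : SimpleGraph U)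
    (hconn : Γ.Preconnected) (hclosed : Ends k Γ Γ) (c : ZMod k → U) (hc : IsCyc k Γ c) (w₀ : U)
    (hw : ∀ i, c i ≠ w₀) :
    ∃ χ : U → Bool, (∀ x y, χ x ≠ χ y → Γ.Adj x y) ∧
      ∀ i : ZMod k, χ (c i) = decide (i.val % 2 = 0) := by
  classical
  have : NeZero k := ⟨by omega⟩
  have hR : ∀ x, (∀ i, c i ≠ x) → ∃ j, Γ.Adj x (c j) := by
    intro x hx
    rcases cover k hk Γ hconn hclosed c hc x with ⟨i, hi⟩ | h
    · exact absurd hi (hx i)
    · exact h
  obtain ⟨j₀, hj₀⟩ := hR w₀ hw
  have hcc1 : ∀ i l : ZMod k, i.val % 2 ≠ j₀.val % 2 → l.val % 2 = j₀.val % 2 →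
      Γ.Adj (c i) (c l) := by
    intro i l hi hl
    have hi1 : (i + 1).val % 2 = j₀.val % 2 := by
      rw [val_succ_mod hk heven]
      omega
    have hi2 : (i - 1).val % 2 = j₀.val % 2 := by
      have h := val_succ_mod hk heven (i - 1)
      rw [sub_add_cancel] at h
      omega
    obtain ⟨hc', h2⟩ := cyc_swap k hk Γ c hc w₀ hw i
      (all_of_par k hk heven Γ hclosed c hc w₀ hw j₀ hj₀ _ hi2)
      (all_of_par k hk heven Γ hclosed c hc w₀ hw j₀ hj₀ _ hi1)
    have h3 : Γ.Adj (c i) (Function.update c i w₀ (i + 1)) := by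
      rw [Function.update_of_ne (add_one_ne hk i)]
      exact hc.adj i
    have h4 := all_of_par k hk heven Γ hclosed _ hc' (c i) h2 (i + 1) h3 l (by rw [hl, hi1])
    have hli : l ≠ i := by
      rintro rfl
      exact hi hl
    rw [Function.update_of_ne hli] at h4
    exact h4
  have hcc : ∀ i l : ZMod k, i.val % 2 ≠ l.val % 2 → Γ.Adj (c i) (c l) := by
    intro i l hil
    by_cases hi : i.val % 2 = j₀.val % 2
    · exact (hcc1 l i (by omega) hi).symm
    · exact hcc1 i l hi (by omega)
  obtain ⟨χ, hχ⟩ : ∃ χ : U → Bool, ∀ x, χ x = true ↔ ((∃ i, c i = x ∧ i.val % 2 = 0) ∨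
      ((∀ i, c i ≠ x) ∧ ¬ ∃ i : ZMod k, i.val % 2 = 0 ∧ Γ.Adj x (c i))) :=
    ⟨fun x => decide ((∃ i, c i = x ∧ i.val % 2 = 0) ∨
      ((∀ i, c i ≠ x) ∧ ¬ ∃ i : ZMod k, i.val % 2 = 0 ∧ Γ.Adj x (c i))),
      fun x => decide_eq_true_iff⟩
  have hχc : ∀ i : ZMod k, χ (c i) = true ↔ i.val % 2 = 0 := by
    intro i
    rw [hχ]
    constructor
    · rintro (⟨l, hl, h⟩ | ⟨h, -⟩)
      · rw [← hc.inj hl]
        exact h
      · exact absurd rfl (h i)
    · intro h
      exact Or.inl ⟨i, rfl, h⟩
  have main : ∀ x y, χ x = true → χ y ≠ true → Γ.Adj x y := by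
    intro x y hx hy
    by_cases hxc : ∃ i, c i = x
    · obtain ⟨i, rfl⟩ := hxc
      rw [hχc] at hx
      by_cases hyc : ∃ l, c l = y
      · obtain ⟨l, rfl⟩ := hyc
        rw [Ne, hχc] at hy
        exact hcc i l (by omega)
      · push Not at hyc
        rw [Ne, hχ, not_or] at hy
        obtain ⟨-, hy2⟩ := hy
        rw [not_and, not_not] at hy2
        obtain ⟨i₀, h0, h1⟩ := hy2 hyc
        exact (all_of_par k hk heven Γ hclosed c hc y hyc i₀ h1 i (by rw [hx, h0])).symm
    · push Not at hxc
      rw [hχ] at hx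
      have hx2 : ¬ ∃ i : ZMod k, i.val % 2 = 0 ∧ Γ.Adj x (c i) := by
        rcases hx with ⟨i, hi, -⟩ | ⟨-, h⟩
        · exact absurd hi (hxc i)
        · exact h
      obtain ⟨j, hj⟩ := hR x hxc
      have hjodd : j.val % 2 = 1 := by
        by_contra h
        exact hx2 ⟨j, by omega, hj⟩
      by_cases hyc : ∃ l, c l = y
      · obtain ⟨l, rfl⟩ := hyc
        rw [Ne, hχc] at hy
        exact all_of_par k hk heven Γ hclosed c hc x hxc j hj l (by omega)
      · push Not at hyc
        rw [Ne, hχ, not_or] at hy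
        obtain ⟨-, hy2⟩ := hy
        rw [not_and, not_not] at hy2
        obtain ⟨i₀, h0, h1⟩ := hy2 hyc
        have e1 : (1 : ZMod k).val % 2 = 1 := by
          rw [ZMod.val_one'' (by omega)]
        have e2 : ((1 : ZMod k) + 1).val % 2 = 0 := by
          rw [val_succ_mod hk heven]
          omega
        have e0 : ((1 : ZMod k) - 1).val % 2 = 0 := by
          rw [sub_self, ZMod.val_zero]
        obtain ⟨hc', -⟩ := cyc_swap k hk Γ c hc y hyc 1
          (all_of_par k hk heven Γ hclosed c hc y hyc i₀ h1 _ (by rw [e0, h0]))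
          (all_of_par k hk heven Γ hclosed c hc y hyc i₀ h1 _ (by rw [e2, h0]))
        have hxy : y ≠ x := by
          rintro rfl
          exact hx2 ⟨i₀, h0, h1⟩
        have hv' : ∀ i, Function.update c 1 y i ≠ x := by
          intro i
          by_cases hi : i = 1
          · rw [hi, Function.update_self]
            exact hxy
          · rw [Function.update_of_ne hi]
            exact hxc i
        have e3 : ((1 : ZMod k) + 1 + 1).val % 2 = 1 := by
          rw [val_succ_mod hk heven]
          omega
        have h3 : (1 : ZMod k) + 1 + 1 ≠ 1 := by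
          intro h
          apply two_ne hk
          have := congrArg (fun x => x - 1) h
          simp only [add_sub_cancel_right, sub_self] at this
          rw [← this]
          norm_num
        have h4 : Γ.Adj x (Function.update c 1 y (1 + 1 + 1)) := by
          rw [Function.update_of_ne h3]
          exact all_of_par k hk heven Γ hclosed c hc x hxc j hj _ (by rw [e3, hjodd])
        have h5 := all_of_par k hk heven Γ hclosed _ hc' x hv' _ h4 1 (by rw [e3, e1])
        rw [Function.update_self] at h5
        exact h5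
  refine ⟨χ, ?_, ?_⟩
  · intro x y hxy
    by_cases hx : χ x = true
    · exact main x y hx (by rw [← hx]; exact hxy.symm)
    · have hy : χ y = true := by
        cases h1 : χ x
        · cases h2 : χ y
          · rw [h1, h2] at hxy
            exact absurd rfl hxy
          · rfl
        · exact absurd h1 hx
      exact (main y x hy hx).symm
  · intro i
    by_cases h : i.val % 2 = 0
    · rw [(hχc i).2 h]
      simp [h]
    · have h1 : χ (c i) ≠ true := fun h' => h ((hχc i).1 h')
      rw [Ne, Bool.not_eq_true] at h1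
      rw [h1]
      simp [h]

end Pool.Agent.Helper92.GB
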