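import Mathlib
import Pool.Agent.Helper92.GB.Basic
import Pool.Agent.Helper92.GB.CycSkip

set_option autoImplicit false

/-! Module GB-Mono.  A closed graph, `k` even, with a colouring whose bichromatic pairs are all
adjacent and with a monochromatic edge is complete.

Proof.  (a) Let `x y` be an edge of colour `d` and `u ≠ v` of the other colour.  Template: if
`d = true` let `q 0 = c 1`, `q 1 = c 0`, `q i = c i` for `2 ≤ i < k`, so `q` is injective on
`{0,...,k-1}`, `q 1 = c 0` and `q 2 = c 2` have colour `true`, `q 0 = c 1`, `q (k-1) = c (k-1)` have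
colour `false` and all other consecutive pairs are bichromatic.  (If `d = false` use `c (i+1)` in place
of `c i`.)  There is a permutation `g` of `U` preserving `χ` with `g (q 1) = x`, `g (q 2) = y`,
`g (q 0) = u`, `g (q (k-1)) = v` (products of transpositions inside the colour classes; `x ≠ y`,
`u ≠ v`, `0 ≠ k - 1`).  The sequence `g ∘ q` is a path on `k` vertices: bichromatic pairs are adjacent,
`x y` is an edge.  So `u v` is an edge (`hclosed`).
(b) By (a) all pairs of the colour other than `d` are adjacent; this colour has two vertices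
(`c 1`, `c 3` or `c 0`, `c 2`, `k ≥ 4`), so by (a) again all pairs of colour `d` are adjacent. -/

namespace Pool.Agent.Helper92.GB

private theorem mono_perm {U : Type*} (χ : U → Bool) (e : Bool) {a₁ a₂ b₁ b₂ : U} (ha : a₁ ≠ a₂)
    (hb : b₁ ≠ b₂) (ha₁ : χ a₁ = e) (ha₂ : χ a₂ = e) (hb₁ : χ b₁ = e) (hb₂ : χ b₂ = e) :
    ∃ g : Equiv.Perm U, (∀ z, χ (g z) = χ z) ∧ g a₁ = b₁ ∧ g a₂ = b₂ ∧
      ∀ z, χ z ≠ e → g z = z := by
  classical
  have hswap : ∀ a b : U, χ a = e → χ b = e → ∀ z, χ (Equiv.swap a b z) = χ z := by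
    intro a b h1 h2 z
    rw [Equiv.swap_apply_def]
    split_ifs with h3 h4
    · rw [h3, h1, h2]
    · rw [h4, h1, h2]
    · rfl
  have hfix : ∀ a b : U, χ a = e → χ b = e → ∀ z, χ z ≠ e → Equiv.swap a b z = z := by
    intro a b h1 h2 z hz
    apply Equiv.swap_apply_of_ne_of_ne
    · rintro rfl
      exact hz h1
    · rintro rfl
      exact hz h2
  have hne : b₁ ≠ Equiv.swap a₁ b₁ a₂ := by
    intro h
    have h' : Equiv.swap a₁ b₁ a₁ = Equiv.swap a₁ b₁ a₂ := by rw [Equiv.swap_apply_left, ← h]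
    exact ha ((Equiv.swap a₁ b₁).injective h')
  have hc : χ (Equiv.swap a₁ b₁ a₂) = e := by rw [hswap a₁ b₁ ha₁ hb₁, ha₂]
  refine ⟨(Equiv.swap a₁ b₁).trans (Equiv.swap (Equiv.swap a₁ b₁ a₂) b₂), ?_, ?_, ?_, ?_⟩
  · intro z
    rw [Equiv.trans_apply, hswap _ _ hc hb₂, hswap _ _ ha₁ hb₁]
  · rw [Equiv.trans_apply, Equiv.swap_apply_left, Equiv.swap_apply_of_ne_of_ne hne hb]
  · rw [Equiv.trans_apply, Equiv.swap_apply_left]
  · intro z hz
    rw [Equiv.trans_apply, hfix _ _ ha₁ hb₁ z hz, hfix _ _ hc hb₂ z hz]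

/-- the transposition of `0` and `1` -/
private def monoS (i : ℕ) : ℕ := if i = 0 then 1 else if i = 1 then 0 else i

private theorem monoS_lt {i k : ℕ} (hk : 4 ≤ k) (hi : i < k) : monoS i < k := by
  unfold monoS
  split_ifs <;> omega

private theorem monoS_inj {i j : ℕ} (h : monoS i = monoS j) : i = j := by
  unfold monoS at h
  split_ifs at h <;> omega

private theorem mono_cast_inj {k a b e : ℕ} (ha : a < k) (hb : b < k)
    (h : ((a + e : ℕ) : ZMod k) = ((b + e : ℕ) : ZMod k)) : a = b := by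
  rw [ZMod.natCast_eq_natCast_iff] at h
  have h1 := Nat.ModEq.add_right_cancel' e h
  unfold Nat.ModEq at h1
  rwa [Nat.mod_eq_of_lt ha, Nat.mod_eq_of_lt hb] at h1

private theorem mono_step {U : Type*} (k : ℕ) (hk : 4 ≤ k) (heven : Even k) (Γ : SimpleGraph U)
    (hclosed : Ends k Γ Γ) (χ : U → Bool) (hχ : ∀ x y, χ x ≠ χ y → Γ.Adj x y) (c : ZMod k → U)
    (hc : Function.Injective c) (hχc : ∀ i : ZMod k, χ (c i) = decide (i.val % 2 = 0)) (x y : U)
    (hxy : Γ.Adj x y) (hm : χ x = χ y) (u v : U) (huv : u ≠ v) (hu : χ u = !χ x)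
    (hv : χ v = !χ x) : Γ.Adj u v := by
  have hcol : ∀ i : ℕ, χ (c (i : ZMod k)) = decide (i % 2 = 0) := by
    intro i
    rw [hχc, ZMod.val_natCast, Nat.mod_mod_of_dvd _ heven.two_dvd]
  obtain ⟨e, he⟩ : ∃ e : ℕ, ∀ i : ℕ, decide ((i + e) % 2 = 0) = xor (decide (i % 2 = 1)) (χ x) := by
    cases hx : χ x
    · refine ⟨1, fun i => ?_⟩
      rcases Nat.mod_two_eq_zero_or_one i with h | h
      · have h2 : (i + 1) % 2 = 1 := by omega
        simp [h, h2]
      · have h2 : (i + 1) % 2 = 0 := by omega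
        simp [h, h2]
    · refine ⟨0, fun i => ?_⟩
      rcases Nat.mod_two_eq_zero_or_one i with h | h
      · simp [h]
      · simp [h]
  set q : ℕ → U := fun i => c ((monoS i + e : ℕ) : ZMod k) with hq
  have hqc : ∀ i, χ (q i) = xor (decide (monoS i % 2 = 1)) (χ x) := fun i => by
    rw [hq]
    simp only
    rw [hcol, he]
  have hqi : ∀ i j, i < k → j < k → q i = q j → i = j := by
    intro i j hi hj h
    exact monoS_inj (mono_cast_inj (monoS_lt hk hi) (monoS_lt hk hj) (hc h))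
  have hk2 : k % 2 = 0 := Nat.even_iff.mp heven
  have q0 : χ (q 0) = !χ x := by rw [hqc]; simp [monoS]
  have q1 : χ (q 1) = χ x := by rw [hqc]; simp [monoS]
  have q2 : χ (q 2) = χ x := by rw [hqc]; simp [monoS]
  have qk : χ (q (k - 1)) = !χ x := by
    rw [hqc]
    have h1 : monoS (k - 1) = k - 1 := by
      unfold monoS
      rw [if_neg (by omega), if_neg (by omega)]
    have h2 : (k - 1) % 2 = 1 := by omega
    rw [h1, h2]
    simp
  obtain ⟨g, g1, g2, g3, g4⟩ := mono_perm χ (χ x) (a₁ := q 1) (a₂ := q 2) (b₁ := x) (b₂ := y)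
    (fun h => absurd (hqi 1 2 (by omega) (by omega) h) (by norm_num)) hxy.ne q1 q2 rfl hm.symm
  obtain ⟨g', g1', g2', g3', g4'⟩ := mono_perm χ (!χ x) (a₁ := q 0) (a₂ := q (k - 1)) (b₁ := u)
    (b₂ := v) (fun h => absurd (hqi 0 (k - 1) (by omega) (by omega) h) (by omega)) huv q0 qk hu hv
  have hnb : ∀ b : Bool, b ≠ !b := by decide
  have hnb' : ∀ b : Bool, (!b) ≠ b := by decide
  have p0 : g' (g (q 0)) = u := by
    rw [g4 (q 0) (by rw [q0]; exact hnb' _), g2']
  have pk : g' (g (q (k - 1))) = v := by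
    rw [g4 (q (k - 1)) (by rw [qk]; exact hnb' _), g3']
  have p1 : g' (g (q 1)) = x := by
    rw [g2, g4' x (hnb _)]
  have p2 : g' (g (q 2)) = y := by
    rw [g3, g4' y (by rw [← hm]; exact hnb _)]
  have key : Γ.Adj (g' (g (q 0))) (g' (g (q (k - 1)))) := hclosed (fun i => g' (g (q i))) (by
    intro i hi j hj h
    exact hqi i j hi hj (g.injective (g'.injective h))) (by
    intro i hi
    by_cases h1 : i = 1
    · subst h1
      show Γ.Adj (g' (g (q 1))) (g' (g (q 2)))
      rw [p1, p2]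
      exact hxy
    · apply hχ
      rw [g1', g1, g1', g1, hqc, hqc]
      have h3 : monoS i % 2 ≠ monoS (i + 1) % 2 := by
        unfold monoS
        split_ifs <;> first | contradiction | omega
      intro h4
      rcases Nat.mod_two_eq_zero_or_one (monoS i) with h5 | h5 <;>
        rcases Nat.mod_two_eq_zero_or_one (monoS (i + 1)) with h6 | h6
      · exact h3 (h5.trans h6.symm)
      · rw [h5, h6] at h4
        revert h4
        cases χ x <;> decide
      · rw [h5, h6] at h4
        revert h4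
        cases χ x <;> decide
      · exact h3 (h5.trans h6.symm))
  rwa [p0, pk] at key

theorem complete_of_mono {U : Type*} (k : ℕ) (hk : 4 ≤ k) (heven : Even k) (Γ : SimpleGraph U)
    (hclosed : Ends k Γ Γ) (χ : U → Bool) (hχ : ∀ x y, χ x ≠ χ y → Γ.Adj x y) (c : ZMod k → U)
    (hc : Function.Injective c) (hχc : ∀ i : ZMod k, χ (c i) = decide (i.val % 2 = 0)) (x y : U)
    (hxy : Γ.Adj x y) (hm : χ x = χ y) (u v : U) (huv : u ≠ v) : Γ.Adj u v := by
  have hstep := mono_step k hk heven Γ hclosed χ hχ c hc hχc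
  have hcol : ∀ i : ℕ, χ (c (i : ZMod k)) = decide (i % 2 = 0) := by
    intro i
    rw [hχc, ZMod.val_natCast, Nat.mod_mod_of_dvd _ heven.two_dvd]
  obtain ⟨a, b, hab, hac, hbc⟩ : ∃ a b : U, a ≠ b ∧ χ a = !χ x ∧ χ b = !χ x := by
    cases hx : χ x
    · refine ⟨c ((0 : ℕ) : ZMod k), c ((2 : ℕ) : ZMod k), fun h => ?_, ?_, ?_⟩
      · have h1 := hc h
        have h2 := mono_cast_inj (k := k) (a := 0) (b := 2) (e := 0) (by omega) (by omega) h1
        omega
      · rw [hcol]; rfl
      · rw [hcol]; rfl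
    · refine ⟨c ((1 : ℕ) : ZMod k), c ((3 : ℕ) : ZMod k), fun h => ?_, ?_, ?_⟩
      · have h1 := hc h
        have h2 := mono_cast_inj (k := k) (a := 1) (b := 3) (e := 0) (by omega) (by omega) h1
        omega
      · rw [hcol]; rfl
      · rw [hcol]; rfl
  by_cases h1 : χ u = χ v
  · by_cases h2 : χ u = χ x
    · have h3 : Γ.Adj a b := hstep x y hxy hm a b hab hac hbc
      refine hstep a b h3 (hac.trans hbc.symm) u v huv ?_ ?_
      · rw [hac, Bool.not_not, h2]
      · rw [hac, Bool.not_not, ← h1, h2]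
    · have h4 : ∀ p q : Bool, p ≠ q → p = !q := by decide
      exact hstep x y hxy hm u v huv (h4 _ _ h2) (h4 _ _ (h1 ▸ h2))
  · exact hχ u v h1

end Pool.Agent.Helper92.GB
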