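import Mathlib
import Pool.Agent.Helper92.GB.Basic
import Pool.Agent.Helper92.GB.CycSkip
import Pool.Agent.Helper92.GB.Colour
import Pool.Agent.Helper92.GB.Mono

set_option autoImplicit false

/-! Module GB-ClosedAdj.

Proof.  `cyc_of_path` gives a cycle `c` avoiding `w₀`.  `k` odd: `complete_of_odd`.  `k` even (so
`k ≥ 4`): take `χ` from `exists_colour` and the odd walk `q` from `u` to `v`.  If `χ u ≠ χ v` done.
Otherwise some edge of the walk is monochromatic (if all edges were bichromatic then the colours of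
the ends of an odd walk would differ, induction on the walk), so `complete_of_mono`. -/

namespace Pool.Agent.Helper92.GB

private theorem closed_walk {U : Type*} (Γ : SimpleGraph U) (χ : U → Bool) {u v : U}
    (q : Γ.Walk u v) : (∃ x y, Γ.Adj x y ∧ χ x = χ y) ∨ (χ u = χ v ↔ Even q.length) := by
  induction q with
  | nil => right; simp
  | @cons a b d h q ih =>
    rcases ih with ih | ih
    · exact Or.inl ih
    · by_cases hab : χ a = χ b
      · exact Or.inl ⟨a, b, h, hab⟩
      · right
        rw [SimpleGraph.Walk.length_cons, Nat.even_add_one, ← ih]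
        cases ha : χ a <;> cases hb : χ b <;> cases hd : χ d <;> simp_all

theorem closed_adj {U : Type*} (k : ℕ) (hk : 3 ≤ k) (Γ : SimpleGraph U) (hconn : Γ.Preconnected)
    (hclosed : Ends k Γ Γ) (p : ℕ → U) (hp : Set.InjOn p (Set.Iio k))
    (hadj : ∀ i, i + 1 < k → Γ.Adj (p i) (p (i + 1))) (w₀ : U) (hw : ∀ i, i < k → p i ≠ w₀)
    (u v : U) (huv : u ≠ v) (hpar : Odd k ∨ ∃ q : Γ.Walk u v, Odd q.length) : Γ.Adj u v := by
  obtain ⟨c, hc, hcp⟩ := cyc_of_path k hk Γ hclosed p hp hadj
  have hw' : ∀ i, c i ≠ w₀ := by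
    intro i h
    obtain ⟨j, hj, hj2⟩ := hcp i
    exact hw j hj (hj2.symm.trans h)
  rcases Nat.even_or_odd k with heven | hodd
  · rcases hpar with hodd | ⟨q, hq⟩
    · exact absurd heven (Nat.not_even_iff_odd.2 hodd)
    have hk4 : 4 ≤ k := by
      rcases heven with ⟨r, hr⟩
      omega
    obtain ⟨χ, hχ, hχc⟩ := exists_colour k hk heven Γ hconn hclosed c hc w₀ hw'
    by_cases huv' : χ u = χ v
    · rcases closed_walk Γ χ q with ⟨x, y, hxy, hm⟩ | h
      · exact complete_of_mono k hk4 heven Γ hclosed χ hχ c hc.inj hχc x y hxy hm u v huv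
      · exact absurd (h.1 huv') (Nat.not_even_iff_odd.2 hq)
    · exact hχ u v huv'
  · exact complete_of_odd k hk hodd Γ hconn hclosed c hc w₀ hw' u v huv

end Pool.Agent.Helper92.GB
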