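import Mathlib
import Pool.Agent.Helper92.GB.Basic

set_option autoImplicit false

/-! Module GB-Forest.  Structure of `H - S` for a core `S`.

`no_edge_of_forest`: `H - A` is acyclic, `A` the set of supports.  Suppose `a, b ∉ S` are adjacent.
`H.induce Sᶜ` embeds into `H.induce {w | ¬ IsSupport H w}` (as `A ⊆ S`), so it is acyclic and has an
edge, so it has a vertex with exactly one neighbour (a finite acyclic graph with an edge: for instance
the end of a longest path), i.e. `HasLeaf H S`, contradiction.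
`cycle_of_pseudo`: let `T` be the set of all `x ∉ S` with a neighbour outside `S`.  Every `x ∈ T` has
two neighbours in `T` (no vertex of degree one in `H - S`), so by the hypothesis exactly two.  `T` is not
empty, so `H.induce T` is not acyclic (a finite non-empty graph with all degrees at least two has a
cycle).  Take a cycle (`SimpleGraph.Walk.IsCycle`), `k` its length, `c i` its `i.val`-th vertex; every
`c i` has the two neighbours `c (i+1) ≠ c (i-1)`, so no others in `T`, and all its neighbours outside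
`S` are in `T`. -/

namespace Pool.Agent.Helper92.GB

private lemma not_acyclic_of_two {V : Type*} [Fintype V] (G : SimpleGraph V) [Nonempty V]
    (h : ∀ v, ∃ y z, y ≠ z ∧ G.Adj v y ∧ G.Adj v z) : ¬ G.IsAcyclic := by
  intro hac
  have key : ∀ n : ℕ, ∃ (u v : V) (p : G.Walk u v), p.IsPath ∧ p.length = n := by
    intro n
    induction n with
    | zero =>
      obtain ⟨v⟩ := (inferInstance : Nonempty V)
      exact ⟨v, v, SimpleGraph.Walk.nil, SimpleGraph.Walk.IsPath.nil, rfl⟩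
    | succ n ih =>
      obtain ⟨u, v, p, hp, hl⟩ := ih
      obtain ⟨y, z, hyz, hy, hz⟩ := h v
      have hex : ∃ w, G.Adj v w ∧ w ≠ p.penultimate := by
        by_cases hyp : y = p.penultimate
        · exact ⟨z, hz, fun hzp => hyz (hyp.trans hzp.symm)⟩
        · exact ⟨y, hy, hyp⟩
      obtain ⟨w, hw, hwp⟩ := hex
      have hws : w ∉ p.support := fun hs => hwp (hac.eq_penultimate_of_adj_end hp hw hs)
      exact ⟨u, w, p.concat hw, hp.concat hws hw, by rw [SimpleGraph.Walk.length_concat, hl]⟩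
  obtain ⟨u, v, p, hp, hl⟩ := key (Fintype.card V)
  have := hp.length_lt
  omega

private lemma exists_other {W : Type*} (H : SimpleGraph W) (S : Set W) (hS : Core H S)
    {q p : W} (hq : q ∉ S) (hp : p ∉ S) (hqp : H.Adj q p) : ∃ r, r ∉ S ∧ H.Adj q r ∧ r ≠ p := by
  by_contra hcon
  push Not at hcon
  exact hS.2 ⟨q, p, hq, hp, hqp, fun r hr hqr => hcon r hr hqr⟩

private lemma not_acyclic_of_core {W : Type*} [Fintype W] (H : SimpleGraph W) (S : Set W)
    (hS : Core H S) (a b : W) (ha : a ∉ S) (hb : b ∉ S) (hab : H.Adj a b) :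
    ¬ (H.induce {x | x ∉ S ∧ ∃ y, y ∉ S ∧ H.Adj x y}).IsAcyclic := by
  classical
  have : Nonempty ({x | x ∉ S ∧ ∃ y, y ∉ S ∧ H.Adj x y} : Set W) := ⟨⟨a, ha, b, hb, hab⟩⟩
  apply not_acyclic_of_two
  rintro ⟨x, hx, y, hy, hxy⟩
  obtain ⟨r, hr, hxr, hry⟩ := exists_other H S hS hx hy hxy
  refine ⟨⟨y, hy, x, hx, hxy.symm⟩, ⟨r, hr, x, hx, hxr.symm⟩, ?_, hxy, hxr⟩
  intro he
  exact hry (congrArg Subtype.val he).symm

theorem no_edge_of_forest {W : Type*} [Fintype W] (H : SimpleGraph W)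
    (hF : (H.induce {w | ¬ IsSupport H w}).IsAcyclic) (S : Set W) (hS : Core H S) (a b : W)
    (ha : a ∉ S) (hb : b ∉ S) : ¬ H.Adj a b := by
  intro hab
  apply not_acyclic_of_core H S hS a b ha hb hab
  refine SimpleGraph.IsAcyclic.embedding (H.induceHomOfLE ?_) hF
  intro x hx hsup
  exact hx.1 (hS.1 x hsup)

/-- Every non-empty subgraph of minimum degree at least two of `H - A` (`A` the set of supports) is
regular of degree two. -/
def Pseudo {W : Type*} (H : SimpleGraph W) : Prop :=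
  ∀ T : Set W, (∀ x ∈ T, ¬ IsSupport H x) →
    (∀ x ∈ T, ∃ y ∈ T, ∃ z ∈ T, y ≠ z ∧ H.Adj x y ∧ H.Adj x z) →
    ∀ x ∈ T, ∀ y₁ ∈ T, ∀ y₂ ∈ T, ∀ y₃ ∈ T, H.Adj x y₁ → H.Adj x y₂ → H.Adj x y₃ →
      y₁ = y₂ ∨ y₁ = y₃ ∨ y₂ = y₃

theorem cycle_of_pseudo {W : Type*} [Fintype W] (H : SimpleGraph W) (hF : Pseudo H) (S : Set W)
    (hS : Core H S) (a b : W) (ha : a ∉ S) (hb : b ∉ S) (hab : H.Adj a b) :
    ∃ k, CycleComp H S k := by
  have hnot := not_acyclic_of_core H S hS a b ha hb hab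
  set T : Set W := {x | x ∉ S ∧ ∃ y, y ∉ S ∧ H.Adj x y} with hT
  have h3 := hF T (fun x hx hsup => hx.1 (hS.1 x hsup)) (by
    rintro x ⟨hx, y, hy, hxy⟩
    obtain ⟨r, hr, hxr, hry⟩ := exists_other H S hS hx hy hxy
    exact ⟨y, ⟨hy, x, hx, hxy.symm⟩, r, ⟨hr, x, hx, hxr.symm⟩, hry.symm, hxy, hxr⟩)
  rw [SimpleGraph.isAcyclic_iff_free_cycleGraph] at hnot
  push Not at hnot
  obtain ⟨n, hn, hc⟩ := hnot
  obtain ⟨f⟩ : Nonempty (SimpleGraph.Copy (SimpleGraph.cycleGraph n) (H.induce T)) := hc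
  obtain ⟨m, rfl⟩ : ∃ m, n = m + 3 := ⟨n - 3, by omega⟩
  have hadj : ∀ i : Fin (m + 3), H.Adj (f i).val (f (i + 1)).val := by
    intro i
    have h1 : (SimpleGraph.cycleGraph (m + 3)).Adj i (i + 1) := by
      rw [SimpleGraph.cycleGraph_adj]
      right
      simp
    exact f.toHom.map_adj h1
  have hinj : Function.Injective (fun i : Fin (m + 3) => (f i).val) := by
    intro i j hij
    exact f.injective (Subtype.ext hij)
  obtain ⟨c, hc0⟩ : ∃ c : ZMod (m + 3) → W, c = fun i : Fin (m + 3) => (f i).val := ⟨_, rfl⟩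
  have hcT : ∀ i, c i ∈ T := by
    intro i
    rw [hc0]
    exact (f (i : Fin (m + 3))).property
  have hcinj : Function.Injective c := by rw [hc0]; exact hinj
  have hc1 : ∀ i : ZMod (m + 3), H.Adj (c i) (c (i + 1)) := by rw [hc0]; exact hadj
  have hc2 : ∀ i : ZMod (m + 3), H.Adj (c i) (c (i - 1)) := by
    intro i
    have h1 := hc1 (i - 1)
    rw [sub_add_cancel] at h1
    exact h1.symm
  have hne : ∀ i : ZMod (m + 3), i + 1 ≠ i - 1 := by
    intro i hi
    have h2 : ((2 : ℕ) : ZMod (m + 3)) = 0 := by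
      have h4 : (i + 1) - (i - 1) = 0 := by rw [hi, sub_self]
      have h5 : (i + 1) - (i - 1) = ((2 : ℕ) : ZMod (m + 3)) := by push_cast; ring
      rw [← h5, h4]
    rw [ZMod.natCast_eq_zero_iff] at h2
    have := Nat.le_of_dvd (by norm_num) h2
    omega
  refine ⟨m + 3, by omega, c, hcinj, ?_⟩
  intro i
  refine ⟨(hcT i).1, ?_⟩
  intro w hw
  constructor
  · intro hiw
    have hwT : w ∈ T := ⟨hw, c i, (hcT i).1, hiw.symm⟩
    rcases h3 (c i) (hcT i) w hwT (c (i + 1)) (hcT _) (c (i - 1)) (hcT _) hiw (hc1 i) (hc2 i)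
      with h | h | h
    · exact Or.inl h
    · exact Or.inr h
    · exact absurd (hcinj h) (hne i)
  · rintro (h | h)
    · rw [h]; exact hc1 i
    · rw [h]; exact hc2 i

end Pool.Agent.Helper92.GB
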