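import Mathlib
import Pool.Agent.Helper92.GB.Basic

set_option autoImplicit false

/-! Module GB-HubNew.  A copy whose trace on the hub set is not a core gives a new hub.

Proof.  Let `S = {w | f w ∈ X}`, `Z = Y ∪ f(W)`.
(1) If `HasLeaf H S` with `q p ∉ S`: for `v ∉ Z` let `g` be `f` with `q` sent to `v` (an embedding).
Every edge of `H` not at `q` is mapped to an edge of `proc H G t`.  The neighbours of `q` other than `p` are
in `S`, so are mapped into `X`, which is completely joined to `v ∉ Y`.  So `f p` and `v` are adjacent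
in `proc H G (t+1)` by `adj_succ`; `f p ∉ X`.
(2) Otherwise some support `p` (with vertex `l` of degree one) is not in `S`; for `v ∉ Z` let `g` be `f`
with `l` sent to `v`: again only the edge `f p, v` may be missing. -/

namespace Pool.Agent.Helper92.GB

open Pool.Agent.Helper41.Boot

private theorem hub_new_aux {W V : Type*} [Fintype W] [Fintype V] [DecidableEq V]
    (H : SimpleGraph W) (G : SimpleGraph V) (t : ℕ) (X Y : Finset V)
    (hX : Hub (proc H G t) X Y) (f : W ↪ V) (hf : IsCopy H (proc H G t) f) (q p : W)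
    (hp : f p ∉ X) (hqp : H.Adj q p) (hr : ∀ r, f r ∉ X → H.Adj q r → r = p) :
    ∃ x, x ∉ X ∧ Hub (proc H G (t + 1)) {x} (Y ∪ Finset.univ.map f) := by
  classical
  refine ⟨f p, hp, fun x hx v hv => ?_⟩
  rw [Finset.mem_singleton] at hx
  subst hx
  rw [Finset.mem_union, not_or, Finset.mem_map] at hv
  obtain ⟨hvY, hvf⟩ := hv
  have hvf' : ∀ w, f w ≠ v := fun w hw => hvf ⟨w, Finset.mem_univ _, hw⟩
  let g : W ↪ V := ⟨fun w => if w = q then v else f w, by
    intro a b hab
    by_cases ha : a = q <;> by_cases hb : b = q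
    · rw [ha, hb]
    · simp only [ha, hb, if_true, if_false] at hab
      exact absurd hab.symm (hvf' b)
    · simp only [ha, hb, if_true, if_false] at hab
      exact absurd hab (hvf' a)
    · simp only [ha, hb, if_false] at hab
      exact f.injective hab⟩
  have gq : g q = v := if_pos rfl
  have gn : ∀ w, w ≠ q → g w = f w := fun w hw => if_neg hw
  have hpq : p ≠ q := hqp.ne'
  have key : ∀ b, H.Adj q b → (proc H G t).Adj v (f b) ∨ b = p := by
    intro b hb
    by_cases hbX : f b ∈ X
    · exact Or.inl (hX _ hbX v hvY).symm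
    · exact Or.inr (hr b hbX hb)
  refine adj_succ H G t (hvf' p) g (fun a b hab => ?_) ⟨p, q, hqp.symm, ?_⟩
  · by_cases ha : a = q
    · subst ha
      have hb : b ≠ a := hab.ne'
      rw [gq, gn b hb]
      rcases key b hab with h | h
      · exact Or.inl h
      · rw [h]; exact Or.inr Sym2.eq_swap
    · by_cases hb : b = q
      · subst hb
        rw [gq, gn a ha]
        rcases key a hab.symm with h | h
        · exact Or.inl h.symm
        · rw [h]; exact Or.inr rfl
      · rw [gn a ha, gn b hb]
        exact Or.inl (hf a b hab)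
  · rw [gq, gn p hpq]

theorem hub_new {W V : Type*} [Fintype W] [Fintype V] [DecidableEq V] (H : SimpleGraph W)
    (G : SimpleGraph V) (t : ℕ) (X Y : Finset V) (hX : Hub (proc H G t) X Y) (f : W ↪ V)
    (hf : IsCopy H (proc H G t) f) (hS : ¬ Core H {w | f w ∈ X}) :
    ∃ x, x ∉ X ∧ Hub (proc H G (t + 1)) {x} (Y ∪ Finset.univ.map f) := by
  unfold Core at hS
  rw [not_and_or, not_not] at hS
  rcases hS with hS | ⟨q, p, hq, hp, hqp, hr⟩
  · push Not at hS
    obtain ⟨p, ⟨l, hl⟩, hp⟩ := hS
    exact hub_new_aux H G t X Y hX f hf l p hp ((hl p).2 rfl) fun r _ hlr => (hl r).1 hlr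
  · exact hub_new_aux H G t X Y hX f hf q p hp hqp hr

end Pool.Agent.Helper92.GB
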