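import Mathlib
import Pool.Agent.Helper92.GB.Basic
import Pool.Agent.Helper92.GB.HubNew
import Pool.Agent.Helper92.GB.Forest

set_option autoImplicit false

/-! Graphs for which all relevant cores have a property satisfy the chain hypothesis with `m = 1`. -/

namespace Pool.Agent.Helper92.GB

open Pool.Agent.Helper41.Boot

theorem chainHyp_of_core {W : Type*} [Fintype W] (H : SimpleGraph W) (𝒞 : Set W → Prop)
    (h : ∀ S, Core H S → (∃ a b, a ∉ S ∧ b ∉ S ∧ H.Adj a b) → 𝒞 S) : ChainHyp H 𝒞 := by
  intro y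
  refine ⟨1, le_rfl, ?_⟩
  intro U _ X Y f a b hXY hy hch
  classical
  have hcopy : ∀ c d, H.Adj c d → (world H X Y 1 f).Adj (f 0 c) (f 0 d) := by
    intro c d hcd
    rw [world, SimpleGraph.fromRel_adj]
    exact ⟨fun e => hcd.ne ((f 0).injective e), Or.inl (Or.inl ⟨0, by omega, c, d, hcd, rfl, rfl⟩)⟩
  have hcopy' : ∀ c d, H.Adj c d →
      (addFree W (world H X Y 1 f) X).Adj (Sum.inl (f 0 c)) (Sum.inl (f 0 d)) := by
    intro c d hcd
    exact Or.inl ⟨_, _, rfl, rfl, hcopy c d hcd⟩
  by_cases hS : Core H {w | f 0 w ∈ X}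
  · right
    refine ⟨0, (f 0).trans Function.Embedding.inl, ?_, ?_⟩
    · intro c d hcd
      exact hcopy' c d hcd
    · have : {w | ∃ x ∈ X, ((f 0).trans Function.Embedding.inl) w = (Sum.inl x : U ⊕ W)} =
          {w | f 0 w ∈ X} := by
        ext w
        simp
      rw [this]
      apply h _ hS
      have h1 := hch.out 0 (by omega)
      exact ⟨a 0, b 0, h1.1, h1.2.1, hch.adj 0 (by omega)⟩
  · left
    let XF : Finset (U ⊕ W) := Finset.univ.filter (fun q => ∃ x ∈ X, q = Sum.inl x)
    let YF : Finset (U ⊕ W) := Finset.univ.map Function.Embedding.inl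
    have hX : Hub (proc H (addFree W (world H X Y 1 f) X) 0) XF YF := by
      intro q hq v hv
      simp only [XF, Finset.mem_filter, Finset.mem_univ, true_and] at hq
      obtain ⟨x, hx, rfl⟩ := hq
      rcases v with v | v
      · exact absurd (Finset.mem_map_of_mem _ (Finset.mem_univ v)) hv
      · exact Or.inr (Or.inl ⟨x, v, rfl, rfl, hx⟩)
    have hset : {w | ((f 0).trans Function.Embedding.inl) w ∈ XF} = {w | f 0 w ∈ X} := by
      ext w
      simp [XF]
    obtain ⟨q, hq, hhub⟩ := hub_new H (addFree W (world H X Y 1 f) X) 0 XF YF hX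
      ((f 0).trans Function.Embedding.inl) (fun c d hcd => hcopy' c d hcd) (by rw [hset]; exact hS)
    have hout : ∀ j : W, (Sum.inr j : U ⊕ W) ∉ YF ∪
        Finset.univ.map ((f 0).trans Function.Embedding.inl) := by
      intro j hj
      simp [YF] at hj
    refine ⟨0 + 1, a 0, q, ?_, (hhub q (Finset.mem_singleton_self q) _ (hout (a 0))).symm⟩
    intro x hx hqx
    apply hq
    simp only [XF, Finset.mem_filter, Finset.mem_univ, true_and]
    exact ⟨x, hx, hqx⟩

theorem chainHyp_of_pseudo {W : Type*} [Fintype W] (H : SimpleGraph W) (hF : Pseudo H) :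
    ChainHyp H (fun S => ∃ k, CycleComp H S k) := by
  apply chainHyp_of_core
  rintro S hS ⟨a, b, ha, hb, hab⟩
  exact cycle_of_pseudo H hF S hS a b ha hb hab

theorem chainHyp_of_forest {W : Type*} [Fintype W] (H : SimpleGraph W)
    (hF : (H.induce {w | ¬ IsSupport H w}).IsAcyclic) : ChainHyp H (fun _ => False) := by
  apply chainHyp_of_core
  rintro S hS ⟨a, b, ha, hb, hab⟩
  exact no_edge_of_forest H hF S hS a b ha hb hab

end Pool.Agent.Helper92.GB
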