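import Mathlib
import Pool.Agent.Helper92.GB.Basic

set_option autoImplicit false

/-! Module GB-Dist.  Distances shrink exponentially.

Proof.  (a) If `(D t).dist x y = k - 1` and `x, y` are reachable then `(D (t+1)).Adj x y`: a shortest
walk is a path (`SimpleGraph.Walk.isPath_of_length_eq_dist`), `getVert` of it is injective on
`{0,...,k-1}`, and `hrule` applies.
(b) `(D (t+1)).dist x y ≤ (D t).dist x y / 2 + k` for `x, y` reachable in `D t`, by strong induction on
`d = (D t).dist x y`: if `d ≤ k` then use monotonicity of `D` (`dist` decreases).  If `d > k`: on a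
shortest walk take the vertex `z` at distance `k - 1` from `x`, so `(D t).dist x z = k - 1`,
`(D t).dist z y = d - (k-1)`; by (a) `(D (t+1)).dist x y ≤ 1 + (d - (k-1))/2 + k ≤ d/2 + k` as `k ≥ 3`.
(c) induction on `t`: `dist` in `D 0` is at most `Fintype.card B` (a path has fewer than `card B`
edges); `(n/2^t + 2k)/2 + k ≤ n/2^(t+1) + 2k`. -/

namespace Pool.Agent.Helper92.GB

private theorem Dist_adj {B : Type*} (k : ℕ) (hk : 3 ≤ k) {D D' : SimpleGraph B}
    (hrule : Ends k D D') {x y : B} (hr : D.Reachable x y) (hd : D.dist x y = k - 1) :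
    D'.Adj x y := by
  obtain ⟨w, hw⟩ := hr.exists_walk_length_eq_dist
  have hp : w.IsPath := w.isPath_of_length_eq_dist hw
  have h1 := hrule (fun i => w.getVert i) ?_ ?_
  · simp only [SimpleGraph.Walk.getVert_zero] at h1
    have h2 : w.getVert (k - 1) = y := by
      rw [← hd, ← hw, SimpleGraph.Walk.getVert_length]
    rwa [h2] at h1
  · intro i hi j hj hij
    have hi' : i < k := hi
    have hj' : j < k := hj
    exact hp.getVert_injOn (by rw [Set.mem_ofPred_eq]; omega) (by rw [Set.mem_ofPred_eq]; omega) hij
  · intro i hi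
    exact w.adj_getVert_succ (by omega)

private theorem Dist_half {B : Type*} (k : ℕ) (hk : 3 ≤ k) {D D' : SimpleGraph B} (hle : D ≤ D')
    (hrule : Ends k D D') : ∀ (d : ℕ) (x y : B), D.Reachable x y → D.dist x y = d →
    D'.dist x y ≤ d / 2 + k := by
  intro d
  induction d using Nat.strong_induction_on with
  | _ d ih =>
    intro x y hr hd
    by_cases hdk : d ≤ k
    · have h1 : D'.dist x y ≤ D.dist x y := hr.dist_anti hle
      omega
    · push Not at hdk
      obtain ⟨w, hw⟩ := hr.exists_walk_length_eq_dist
      set z := w.getVert (k - 1) with hz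
      have hxz : D.dist x z ≤ k - 1 := by
        have h1 := SimpleGraph.dist_le (w.take (k - 1))
        rw [SimpleGraph.Walk.take_length] at h1
        exact h1.trans (min_le_left _ _)
      have hzy : D.dist z y ≤ d - (k - 1) := by
        have h1 := SimpleGraph.dist_le (w.drop (k - 1))
        rw [SimpleGraph.Walk.drop_length, hw, hd] at h1
        exact h1
      have rxz : D.Reachable x z := ⟨w.take (k - 1)⟩
      have rzy : D.Reachable z y := ⟨w.drop (k - 1)⟩
      have htri : D.dist x y ≤ D.dist x z + D.dist z y := by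
        obtain ⟨w1, hw1⟩ := rxz.exists_walk_length_eq_dist
        obtain ⟨w2, hw2⟩ := rzy.exists_walk_length_eq_dist
        have h1 := SimpleGraph.dist_le (w1.append w2)
        rw [SimpleGraph.Walk.length_append, hw1, hw2] at h1
        exact h1
      have e1 : D.dist x z = k - 1 := by omega
      have e2 : D.dist z y = d - (k - 1) := by omega
      have ha := Dist_adj k hk hrule rxz e1
      have hb := ih (d - (k - 1)) (by omega) z y rzy e2
      have hc : D'.dist x y ≤ 1 + D'.dist z y := by
        obtain ⟨w2, hw2⟩ := (rzy.mono hle).exists_walk_length_eq_dist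
        have h1 := SimpleGraph.dist_le (SimpleGraph.Walk.cons ha w2)
        rw [SimpleGraph.Walk.length_cons, hw2] at h1
        omega
      omega

theorem dist_shrink {B : Type*} [Fintype B] (k : ℕ) (hk : 3 ≤ k) (D : ℕ → SimpleGraph B)
    (hmono : Monotone D) (hrule : ∀ t, Ends k (D t) (D (t + 1))) (u v : B)
    (huv : (D 0).Reachable u v) (t : ℕ) :
    (D t).dist u v ≤ Fintype.card B / 2 ^ t + 2 * k := by
  induction t with
  | zero =>
    obtain ⟨w, hw⟩ := huv.exists_walk_length_eq_dist
    have hp : w.IsPath := w.isPath_of_length_eq_dist hw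
    have h1 := hp.length_lt
    rw [pow_zero, Nat.div_one]
    omega
  | succ t ih =>
    have hr : (D t).Reachable u v := huv.mono (hmono (Nat.zero_le t))
    have hle : D t ≤ D (t + 1) := hmono (Nat.le_succ t)
    have h1 := Dist_half k hk hle (hrule t) _ u v hr rfl
    have h2 : Fintype.card B / 2 ^ (t + 1) = Fintype.card B / 2 ^ t / 2 := by
      rw [pow_succ, Nat.div_div_eq_div_mul]
    rw [h2]
    omega

end Pool.Agent.Helper92.GB
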