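import Mathlib
import Pool.Agent.Helper92.GB.Basic

set_option autoImplicit false

/-! Module GB-Expl.  Transfer of an explosive configuration into the host graph.

Proof.  Write `G_t = proc H G t`, `Z = Y ∪ ι(U)`.  The complement of `Z` has at least `|W|` vertices,
so for given vertices outside `Z` there are injections `g : W ↪ V` with values outside `Z` and with
one (or two) prescribed values (take any injection and compose it with transpositions).  The map
`ι ⊕ g : U ⊕ W ↪ V` sends the edges of `addFree W Γ X'` (`X' = {u | ι u ∈ X}`) to edges of `G_t`: the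
edges of `Γ` by hypothesis, the edges between `X'` and new vertices by `Hub`.  Hence (`proc_embed`,
`proc_add`) `proc H (addFree W Γ X') s` is mapped into `G_{t+s}`.  By `proc_runTime`, `runTime_le_sq`
(`Fintype.card (U ⊕ W) = |U| + |W|`) and `proc_mono` the edge of `Explosive` is present at time `τ`
of the process of `addFree W Γ X'`.
If `q = inl u` (`u ∉ X'`): for every `w ∉ Z` choose `g` with `g j = w`: `ι u` is adjacent to `w` at time
`t + τ`, first alternative with `x = ι u`.  If `q = inr j'` (then `j ≠ j'` by irreflexivity): for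
`x ≠ y` outside `Z` choose `g` with `g j = x`, `g j' = y`, second alternative. -/

namespace Pool.Agent.Helper92.GB

open Pool.Agent.Helper41.Boot

theorem exists_emb_out {W V : Type*} [Fintype W] [Fintype V] [DecidableEq V] (Z : Finset V)
    (hcard : Z.card + Fintype.card W ≤ Fintype.card V) : ∃ g : W ↪ V, ∀ w, g w ∉ Z := by
  have h : Fintype.card W ≤ Fintype.card {v : V // v ∉ Z} := by
    rw [Fintype.card_subtype_compl, Fintype.card_coe]
    omega
  obtain ⟨g⟩ := Function.Embedding.nonempty_of_card_le h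
  exact ⟨g.trans (Function.Embedding.subtype _), fun w => (g w).2⟩

private theorem swap_out {V : Type*} [DecidableEq V] (Z : Finset V) {a x v : V} (ha : a ∉ Z)
    (hx : x ∉ Z) (hv : v ∉ Z) : Equiv.swap a x v ∉ Z := by
  by_cases h1 : v = a
  · rw [h1, Equiv.swap_apply_left]; exact hx
  · by_cases h2 : v = x
    · rw [h2, Equiv.swap_apply_right]; exact ha
    · rw [Equiv.swap_apply_of_ne_of_ne h1 h2]; exact hv

private theorem exists_emb_one {W V : Type*} [Fintype W] [Fintype V] [DecidableEq V] (Z : Finset V)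
    (hcard : Z.card + Fintype.card W ≤ Fintype.card V) (j : W) (x : V) (hx : x ∉ Z) :
    ∃ g : W ↪ V, (∀ w, g w ∉ Z) ∧ g j = x := by
  obtain ⟨g, hg⟩ := exists_emb_out (W := W) Z hcard
  refine ⟨g.trans (Equiv.swap (g j) x).toEmbedding, fun w => ?_, ?_⟩
  · exact swap_out Z (hg j) hx (hg w)
  · simp

private theorem exists_emb_two {W V : Type*} [Fintype W] [Fintype V] [DecidableEq V] (Z : Finset V)
    (hcard : Z.card + Fintype.card W ≤ Fintype.card V) (j j' : W) (hj : j ≠ j') (x y : V)
    (hx : x ∉ Z) (hy : y ∉ Z) (hxy : x ≠ y) :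
    ∃ g : W ↪ V, (∀ w, g w ∉ Z) ∧ g j = x ∧ g j' = y := by
  obtain ⟨g, hg, hgj⟩ := exists_emb_one (W := W) Z hcard j x hx
  refine ⟨g.trans (Equiv.swap (g j') y).toEmbedding, fun w => ?_, ?_, ?_⟩
  · exact swap_out Z (hg j') hy (hg w)
  · have h1 : x ≠ g j' := fun h => hj (g.injective (hgj.trans h))
    simp only [Function.Embedding.trans_apply, Equiv.coe_toEmbedding, hgj]
    exact Equiv.swap_apply_of_ne_of_ne h1 hxy
  · simp

theorem sum_embed {W V U : Type*} [Fintype W] [Fintype V] [DecidableEq V] [Fintype U]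
    (H : SimpleGraph W) (G : SimpleGraph V) (X Y : Finset V)
    (hX : Hub G X Y) (Γ : SimpleGraph U) (ι : U ↪ V)
    (hΓ : ∀ u v, Γ.Adj u v → G.Adj (ι u) (ι v)) (g : W ↪ V)
    (hg : ∀ w, g w ∉ Y ∪ Finset.univ.map ι) (s : ℕ) (p q : U ⊕ W)
    (hpq : (proc H (addFree W Γ {u | ι u ∈ X}) s).Adj p q) :
    (proc H G s).Adj (Sum.elim ι g p) (Sum.elim ι g q) := by
  have hinj : Function.Injective (Sum.elim ι g) := by
    refine Function.Injective.sumElim ι.injective g.injective (fun u w h => hg w ?_)
    rw [← h]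
    exact Finset.mem_union_right _ (Finset.mem_map_of_mem _ (Finset.mem_univ u))
  have hgY : ∀ w, g w ∉ Y := fun w hw => hg w (Finset.mem_union_left _ hw)
  refine proc_embed H (⟨Sum.elim ι g, hinj⟩ : U ⊕ W ↪ V) ?_ s hpq
  rintro a b (⟨u, v, rfl, rfl, h⟩ | ⟨u, j, rfl, rfl, h⟩ | ⟨u, j, rfl, rfl, h⟩)
  · exact hΓ u v h
  · exact hX (ι u) h (g j) (hgY j)
  · exact (hX (ι u) h (g j) (hgY j)).symm

theorem explosive_transfer {W V U : Type*} [Fintype W] [Fintype V] [DecidableEq V] [Fintype U]
    (H : SimpleGraph W) (G : SimpleGraph V) (t τ : ℕ) (X Y : Finset V)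
    (hX : Hub (proc H G t) X Y) (Γ : SimpleGraph U) (ι : U ↪ V)
    (hΓ : ∀ u v, Γ.Adj u v → (proc H G t).Adj (ι u) (ι v))
    (hE : Explosive H Γ {u | ι u ∈ X})
    (hτ : (Fintype.card U + Fintype.card W) ^ 2 ≤ τ)
    (hcard : (Y ∪ Finset.univ.map ι).card + Fintype.card W ≤ Fintype.card V) :
    (∃ x, x ∉ X ∧ Hub (proc H G (t + τ)) {x} (Y ∪ Finset.univ.map ι)) ∨
      ∀ x y, x ∉ Y ∪ Finset.univ.map ι → y ∉ Y ∪ Finset.univ.map ι → x ≠ y →
        (proc H G (t + τ)).Adj x y := by
  classical
  obtain ⟨t0, j, q, hq, hadj⟩ := hE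
  set Z := Y ∪ Finset.univ.map ι with hZ
  -- the edge is present at time `τ`
  have hτadj : (proc H (addFree W Γ {u | ι u ∈ X}) τ).Adj (Sum.inr j) q := by
    set G0 := addFree W Γ {u | ι u ∈ X} with hG0
    have hrun : runTime H G0 ≤ τ := by
      refine (runTime_le_sq H G0).trans ?_
      rw [Fintype.card_sum]
      exact hτ
    have h1 : proc H G0 (max t0 τ) = proc H G0 τ := by
      rw [proc_runTime H G0 (hrun.trans (le_max_right _ _)), proc_runTime H G0 hrun]
    rw [← h1]
    exact proc_mono H G0 (le_max_left _ _) hadj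
  have hne : Sum.inr j ≠ q := hτadj.ne
  have key : ∀ g : W ↪ V, (∀ w, g w ∉ Z) →
      (proc H G (t + τ)).Adj (Sum.elim ι g (Sum.inr j)) (Sum.elim ι g q) := by
    intro g hg
    rw [← proc_add]
    exact sum_embed H (proc H G t) X Y hX Γ ι hΓ g hg τ _ _ hτadj
  rcases q with u | j'
  · left
    refine ⟨ι u, fun hu => hq u hu rfl, ?_⟩
    intro x hx v hv
    rw [Finset.mem_singleton] at hx
    subst hx
    obtain ⟨g, hg, hgj⟩ := exists_emb_one (W := W) Z hcard j v hv
    have := key g hg
    simp only [Sum.elim_inr, Sum.elim_inl, hgj] at this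
    exact this.symm
  · right
    intro x y hx hy hxy
    have hjj : j ≠ j' := fun h => hne (by rw [h])
    obtain ⟨g, hg, hgj, hgj'⟩ := exists_emb_two (W := W) Z hcard j j' hjj x y hx hy hxy
    have := key g hg
    simpa only [Sum.elim_inr, hgj, hgj'] using this

/-- Transfer of a created copy into the host graph. -/
theorem creates_transfer {W V U : Type*} [Fintype W] [Fintype V] [DecidableEq V] [Fintype U]
    (H : SimpleGraph W) (𝒞 : Set W → Prop) (G : SimpleGraph V) (t τ : ℕ) (X Y : Finset V)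
    (hX : Hub (proc H G t) X Y) (Γ : SimpleGraph U) (ι : U ↪ V)
    (hΓ : ∀ u v, Γ.Adj u v → (proc H G t).Adj (ι u) (ι v))
    (hE : Creates H 𝒞 Γ {u | ι u ∈ X})
    (hτ : (Fintype.card U + Fintype.card W) ^ 2 ≤ τ)
    (hcard : (Y ∪ Finset.univ.map ι).card + Fintype.card W ≤ Fintype.card V) :
    ∃ f : W ↪ V, IsCopy H (proc H G (t + τ)) f ∧ 𝒞 {w | f w ∈ X} := by
  classical
  obtain ⟨t0, g, hg, hC⟩ := hE
  obtain ⟨e, he⟩ := exists_emb_out (W := W) (Y ∪ Finset.univ.map ι) hcard
  have hinj : Function.Injective (Sum.elim ι e) := by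
    refine Function.Injective.sumElim ι.injective e.injective (fun u w h => he w ?_)
    rw [← h]
    exact Finset.mem_union_right _ (Finset.mem_map_of_mem _ (Finset.mem_univ u))
  refine ⟨g.trans ⟨Sum.elim ι e, hinj⟩, ?_, ?_⟩
  · intro a b hab
    have h1 := hg a b hab
    have h2 : (proc H (addFree W Γ {u | ι u ∈ X}) τ).Adj (g a) (g b) := by
      set G0 := addFree W Γ {u | ι u ∈ X} with hG0
      have hrun : runTime H G0 ≤ τ := by
        refine (runTime_le_sq H G0).trans ?_
        rw [Fintype.card_sum]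
        exact hτ
      have h3 : proc H G0 (max t0 τ) = proc H G0 τ := by
        rw [proc_runTime H G0 (hrun.trans (le_max_right _ _)), proc_runTime H G0 hrun]
      rw [← h3]
      exact proc_mono H G0 (le_max_left _ _) h1
    rw [← proc_add]
    exact sum_embed H (proc H G t) X Y hX Γ ι hΓ e he τ _ _ h2
  · have : {w | (g.trans ⟨Sum.elim ι e, hinj⟩) w ∈ X} =
        {w | ∃ x ∈ {u | ι u ∈ X}, g w = Sum.inl x} := by
      ext w
      simp only [Set.mem_ofPred_eq, Function.Embedding.trans_apply, Function.Embedding.coeFn_mk]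
      constructor
      · intro hw
        rcases hgw : g w with u | j
        · rw [hgw] at hw
          exact ⟨u, hw, rfl⟩
        · rw [hgw] at hw
          exact absurd (Finset.mem_union_left _ (hX.subset hw)) (he j)
      · rintro ⟨x, hx, hgw⟩
        rw [hgw]
        exact hx
    rw [this]
    exact hC

end Pool.Agent.Helper92.GB
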