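import Mathlib
import Pool.Agent.Helper92.GB.Basic
import Pool.Agent.Helper92.GB.Dist
import Pool.Agent.Helper92.GB.ClosedAdj

set_option autoImplicit false

/-! Module GB-FillLe.  The fill of `D 0` is reached in logarithmic time.

Proof.  Let `T₁ = Nat.log 2 n + 1`, `n = |B|`: `n / 2 ^ T₁ = 0`, so by `dist_shrink` all pairs reachable
in `D 0` have distance at most `2k` in `D T₁`.  `N = 5 * (2 * k + 1) + k`, `T = T₁ + N ^ 2`.
Let `u v` be an edge of `fill k (D 0)` not in `D 0` (edges of `D 0` are in `D T`); by symmetry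
`BigComp k (D 0) u`, `(D 0).Reachable u v`, `u ≠ v` and (`Odd k` or there is an odd walk in `D 0`).
Let `p`, `w₀` be from `BigComp`.
Claim: there is a set `S` of at most `N` vertices containing `u, v, w₀` and all `p i` (`i < k`) such that
`Γ₀ = (D T₁).induce S` is preconnected and (`Odd k` or `Γ₀` has an odd walk from `u` to `v`).
`S` is the union of the `p i` and of the supports of shortest walks in `D T₁` from `u` to `v`, `p 0`,
`w₀` and (see below) `x`, `y`.  All vertices of `S` are connected to `u` inside `S`.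
Parity if `k` is even: if there is an edge `x y` of `D 0` (with `x`, `y` reachable from `u` in `D 0`) such
that `dist u x` and `dist u y` (in `D T₁`) have the same parity, include shortest walks to `x` and `y`:
`u → x → y → u` is an odd closed walk in `S`; combined with the walk `u → v`, of any parity, there is
an odd walk from `u` to `v` in `S`.  Otherwise the parity of the distance from `u` changes along every
edge of the odd walk of `D 0` from `u` to `v`, so `dist u v` is odd and the shortest walk `u → v` is odd.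
Now `i ↦ (D (T₁ + i)).induce S` is increasing; some `i ≤ N²` has
`(D (T₁ + i)).induce S = (D (T₁ + i + 1)).induce S =: Γ` (count edges).  `Γ` is closed:
`Ends k Γ Γ` (a path of `Γ` on `k` vertices is a path of `D (T₁ + i)`, its ends are adjacent in
`D (T₁ + i + 1)`).  It contains `Γ₀`, so it is preconnected, contains the path `p` and an odd walk from
`u` to `v` if `k` is even.  `closed_adj` gives `Γ.Adj u v`, so `(D T).Adj u v`. -/

namespace Pool.Agent.Helper92.GB

private theorem FL_stab {U : Type*} [Fintype U] (E : ℕ → SimpleGraph U) (hE : Monotone E) :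
    ∃ i, i ≤ Fintype.card U ^ 2 ∧ E i = E (i + 1) := by
  classical
  by_contra hcon
  push Not at hcon
  let g : ℕ → ℕ := fun t => ((Finset.univ : Finset (U × U)).filter
    (fun p => (E t).Adj p.1 p.2)).card
  have key : ∀ t, t ≤ Fintype.card U ^ 2 + 1 → t ≤ g t := by
    intro t
    induction t with
    | zero => intro _; exact Nat.zero_le _
    | succ t ih =>
      intro ht
      have h1 := ih (by omega)
      have hne := hcon t (by omega)
      have hle : E t ≤ E (t + 1) := hE (Nat.le_succ t)
      have hlt : g t < g (t + 1) := by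
        apply Finset.card_lt_card
        refine ⟨?_, ?_⟩
        · intro p hp
          simp only [Finset.mem_filter, Finset.mem_univ, true_and] at hp ⊢
          exact hle hp
        · intro hsub
          apply hne
          refine le_antisymm hle ?_
          intro x y hxy
          have : (x, y) ∈ (Finset.univ : Finset (U × U)).filter
              (fun p => (E (t + 1)).Adj p.1 p.2) := by simpa using hxy
          have := hsub this
          simpa using this
      omega
  have h1 := key _ le_rfl
  have h2 : g (Fintype.card U ^ 2 + 1) ≤ Fintype.card U ^ 2 := by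
    calc g (Fintype.card U ^ 2 + 1) ≤ (Finset.univ : Finset (U × U)).card :=
          Finset.card_filter_le _ _
      _ = Fintype.card U ^ 2 := by simp [sq]
  omega

private theorem FL_par {B : Type*} (G₀ G₁ : SimpleGraph B) (u : B)
    (hpar : ∀ x y, G₀.Reachable u x → G₀.Adj x y → G₁.dist u x % 2 ≠ G₁.dist u y % 2)
    {a v : B} (q : G₀.Walk a v) (ha : G₀.Reachable u a) :
    G₁.dist u v % 2 = (G₁.dist u a + q.length) % 2 := by
  induction q with
  | nil => simp
  | cons h q ih =>
    have h1 := ih (ha.trans h.reachable)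
    have h2 := hpar _ _ ha h
    simp only [SimpleGraph.Walk.length_cons]
    omega

private theorem FL_reach {B : Type*} (G : SimpleGraph B) (S : Set B) {u z : B} (w : G.Walk u z)
    (hw : ∀ x ∈ w.support, x ∈ S) (s : B) (hs : s ∈ w.support) :
    (G.induce S).Reachable ⟨u, hw _ w.start_mem_support⟩ ⟨s, hw _ hs⟩ := by
  classical
  exact ⟨(w.takeUntil s hs).induce S
    (fun x hx => hw x (w.support_takeUntil_subset_support hs hx))⟩

private theorem FL_length {B : Type*} (G : SimpleGraph B) (S : Set B) {u z : B} (w : G.Walk u z)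
    (hw : ∀ x ∈ w.support, x ∈ S) : (w.induce S hw).length = w.length := by
  have h := congrArg SimpleGraph.Walk.length (w.map_induce hw)
  rwa [SimpleGraph.Walk.length_map] at h

private theorem FL_main {B : Type*} [Fintype B] (k : ℕ) (hk : 3 ≤ k) (D : ℕ → SimpleGraph B)
    (hmono : Monotone D) (hrule : ∀ t, Ends k (D t) (D (t + 1))) (u v : B) (huv : u ≠ v)
    (hbig : BigComp k (D 0) u) (hreach : (D 0).Reachable u v)
    (hodd : Odd k ∨ ∃ q : (D 0).Walk u v, Odd q.length) :
    (D (Nat.log 2 (Fintype.card B) + 1 + (5 * (2 * k + 1) + k) ^ 2)).Adj u v := by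
  classical
  obtain ⟨p, hp, hpadj, hup, w₀, huw, hw₀⟩ := hbig
  set T₁ : ℕ := Nat.log 2 (Fintype.card B) + 1 with hT₁
  have hdist : ∀ z, (D 0).Reachable u z → (D T₁).dist u z ≤ 2 * k := by
    intro z hz
    have h := dist_shrink k hk D hmono hrule u z hz T₁
    have h0 : Fintype.card B / 2 ^ T₁ = 0 :=
      Nat.div_eq_of_lt (Nat.lt_pow_succ_log_self (by norm_num) _)
    omega
  have h01 : D 0 ≤ D T₁ := hmono (Nat.zero_le _)
  have hwalk : ∀ z, (D 0).Reachable u z →
      ∃ w : (D T₁).Walk u z, w.length = (D T₁).dist u z ∧ w.length ≤ 2 * k := by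
    intro z hz
    obtain ⟨w, hw⟩ := (hz.mono h01).exists_walk_length_eq_dist
    exact ⟨w, hw, hw ▸ hdist z hz⟩
  -- the parity alternative
  have hxy : ∃ x y, (D 0).Reachable u x ∧ (D 0).Reachable u y ∧ (Odd k ∨
      ((D 0).Adj x y ∧ (D T₁).dist u x % 2 = (D T₁).dist u y % 2) ∨ (D T₁).dist u v % 2 = 1) := by
    rcases hodd with ho | ⟨q, hq⟩
    · exact ⟨u, u, SimpleGraph.Reachable.refl _, SimpleGraph.Reachable.refl _, Or.inl ho⟩
    · by_cases hE : ∃ x y, (D 0).Reachable u x ∧ (D 0).Adj x y ∧
          (D T₁).dist u x % 2 = (D T₁).dist u y % 2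
      · obtain ⟨x, y, h1, h2, h3⟩ := hE
        exact ⟨x, y, h1, h1.trans h2.reachable, Or.inr (Or.inl ⟨h2, h3⟩)⟩
      · push Not at hE
        refine ⟨u, u, SimpleGraph.Reachable.refl _, SimpleGraph.Reachable.refl _,
          Or.inr (Or.inr ?_)⟩
        have h := FL_par (D 0) (D T₁) u hE q (SimpleGraph.Reachable.refl _)
        rw [SimpleGraph.dist_self, zero_add] at h
        rw [h]
        exact Nat.odd_iff.1 hq
  obtain ⟨x, y, hux, huy, hpar⟩ := hxy
  obtain ⟨Wv, hWv, hWv'⟩ := hwalk v hreach
  obtain ⟨Wp, hWp, hWp'⟩ := hwalk (p 0) hup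
  obtain ⟨Ww, hWw, hWw'⟩ := hwalk w₀ huw
  obtain ⟨Wx, hWx, hWx'⟩ := hwalk x hux
  obtain ⟨Wy, hWy, hWy'⟩ := hwalk y huy
  set S : Finset B := (Finset.range k).image p ∪ Wv.support.toFinset ∪ Wp.support.toFinset ∪
    Ww.support.toFinset ∪ Wx.support.toFinset ∪ Wy.support.toFinset with hS
  have hSv : ∀ z ∈ Wv.support, z ∈ (S : Set B) := by intro z hz; simp [hS, hz]
  have hSp : ∀ z ∈ Wp.support, z ∈ (S : Set B) := by intro z hz; simp [hS, hz]
  have hSw : ∀ z ∈ Ww.support, z ∈ (S : Set B) := by intro z hz; simp [hS, hz]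
  have hSx : ∀ z ∈ Wx.support, z ∈ (S : Set B) := by intro z hz; simp [hS, hz]
  have hSy : ∀ z ∈ Wy.support, z ∈ (S : Set B) := by intro z hz; simp [hS, hz]
  have hSi : ∀ i, i < k → p i ∈ (S : Set B) := by
    intro i hi
    have : p i ∈ (Finset.range k).image p := Finset.mem_image_of_mem _ (Finset.mem_range.2 hi)
    simp only [hS, Finset.coe_union, Set.mem_union, Finset.mem_coe]
    exact Or.inl (Or.inl (Or.inl (Or.inl (Or.inl this))))
  have hu : u ∈ (S : Set B) := hSv _ Wv.start_mem_support
  have hv : v ∈ (S : Set B) := hSv _ Wv.end_mem_support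
  have hlen : ∀ {z : B} (w : (D T₁).Walk u z), w.length ≤ 2 * k →
      w.support.toFinset.card ≤ 2 * k + 1 := by
    intro z w hw
    have h1 := List.toFinset_card_le w.support
    rw [SimpleGraph.Walk.length_support] at h1
    omega
  have hcard : S.card ≤ 5 * (2 * k + 1) + k := by
    have h1 : ((Finset.range k).image p).card ≤ k := by
      simpa using (Finset.card_image_le (s := Finset.range k) (f := p))
    have h2 := hlen Wv hWv'
    have h3 := hlen Wp hWp'
    have h4 := hlen Ww hWw'
    have h5 := hlen Wx hWx'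
    have h6 := hlen Wy hWy'
    have c1 := Finset.card_union_le ((Finset.range k).image p) Wv.support.toFinset
    have c2 := Finset.card_union_le ((Finset.range k).image p ∪ Wv.support.toFinset)
      Wp.support.toFinset
    have c3 := Finset.card_union_le ((Finset.range k).image p ∪ Wv.support.toFinset ∪
      Wp.support.toFinset) Ww.support.toFinset
    have c4 := Finset.card_union_le ((Finset.range k).image p ∪ Wv.support.toFinset ∪
      Wp.support.toFinset ∪ Ww.support.toFinset) Wx.support.toFinset
    have c5 := Finset.card_union_le ((Finset.range k).image p ∪ Wv.support.toFinset ∪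
      Wp.support.toFinset ∪ Ww.support.toFinset ∪ Wx.support.toFinset) Wy.support.toFinset
    rw [hS]
    omega
  -- connectedness
  have hconn : ∀ s : (S : Set B), ((D T₁).induce (S : Set B)).Reachable ⟨u, hu⟩ s := by
    have hpath : ∀ i (hi : i < k), ((D T₁).induce (S : Set B)).Reachable ⟨u, hu⟩
        ⟨p i, hSi i hi⟩ := by
      intro i
      induction i with
      | zero => intro hi; exact FL_reach (D T₁) S Wp hSp (p 0) Wp.end_mem_support
      | succ i ih =>
        intro hi
        refine (ih (by omega)).trans ?_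
        apply SimpleGraph.Adj.reachable
        rw [SimpleGraph.induce_adj]
        exact h01 (hpadj i hi)
    rintro ⟨s, hs⟩
    have hs' := hs
    simp only [hS, Finset.coe_union, Set.mem_union, Finset.mem_coe, List.mem_toFinset] at hs'
    rcases hs' with ((((h | h) | h) | h) | h) | h
    · obtain ⟨i, hi, rfl⟩ := Finset.mem_image.1 h
      exact hpath i (Finset.mem_range.1 hi)
    · exact FL_reach (D T₁) S Wv hSv s h
    · exact FL_reach (D T₁) S Wp hSp s h
    · exact FL_reach (D T₁) S Ww hSw s h
    · exact FL_reach (D T₁) S Wx hSx s h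
    · exact FL_reach (D T₁) S Wy hSy s h
  have hpre : ((D T₁).induce (S : Set B)).Preconnected := fun a b =>
    (hconn a).symm.trans (hconn b)
  -- parity
  have hparity : Odd k ∨ ∃ q : ((D T₁).induce (S : Set B)).Walk ⟨u, hu⟩ ⟨v, hv⟩,
      Odd q.length := by
    rcases hpar with ho | ⟨hxy, hd⟩ | hd
    · exact Or.inl ho
    · right
      by_cases hv2 : Odd Wv.length
      · exact ⟨Wv.induce S hSv, by rw [FL_length]; exact hv2⟩
      · have hxy' : ((D T₁).induce (S : Set B)).Adj ⟨x, hSx _ Wx.end_mem_support⟩
            ⟨y, hSy _ Wy.end_mem_support⟩ := by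
          rw [SimpleGraph.induce_adj]
          exact h01 hxy
        refine ⟨((Wx.induce S hSx).append ((SimpleGraph.Walk.cons hxy'
          (Wy.induce S hSy).reverse))).append (Wv.induce S hSv), ?_⟩
        rw [SimpleGraph.Walk.length_append, SimpleGraph.Walk.length_append,
          SimpleGraph.Walk.length_cons, SimpleGraph.Walk.length_reverse, FL_length, FL_length,
          FL_length, hWx, hWy]
        rw [Nat.not_odd_iff_even, Nat.even_iff] at hv2
        rw [Nat.odd_iff]
        omega
    · right
      exact ⟨Wv.induce S hSv, by rw [FL_length, hWv]; exact Nat.odd_iff.2 hd⟩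
  -- stabilisation
  obtain ⟨i, hi, hEq⟩ := FL_stab (fun i => (D (T₁ + i)).induce (S : Set B)) (by
    intro i j hij
    exact fun a b hab => hmono (Nat.add_le_add_left hij _) hab)
  have hcardS : Fintype.card (S : Set B) = S.card := by simp
  rw [hcardS] at hi
  have hi' : i ≤ (5 * (2 * k + 1) + k) ^ 2 := hi.trans (Nat.pow_le_pow_left hcard 2)
  set Γ : SimpleGraph (S : Set B) := (D (T₁ + i)).induce (S : Set B) with hΓ
  have hΓle : (D T₁).induce (S : Set B) ≤ Γ := fun a b hab =>
    hmono (Nat.le_add_right T₁ i) hab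
  have hclosed : Ends k Γ Γ := by
    intro r hr hradj
    have h1 := hrule (T₁ + i) (fun j => (r j : B))
      (fun a ha b hb hab => hr ha hb (Subtype.ext hab))
      (fun j hj => hradj j hj)
    have h2 : ((D (T₁ + (i + 1))).induce (S : Set B)).Adj (r 0) (r (k - 1)) := h1
    have h3 : Γ = (D (T₁ + (i + 1))).induce (S : Set B) := hEq
    rw [h3]
    exact h2
  have hfin : Γ.Adj ⟨u, hu⟩ ⟨v, hv⟩ := by
    refine closed_adj k hk Γ (hpre.mono hΓle) hclosed
      (fun i => if h : i < k then ⟨p i, hSi i h⟩ else ⟨u, hu⟩) ?_ ?_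
      ⟨w₀, hSw _ Ww.end_mem_support⟩ ?_ _ _ ?_ ?_
    · intro a ha b hb hab
      rw [Set.mem_Iio] at ha hb
      simp only [dif_pos ha, dif_pos hb, Subtype.mk.injEq] at hab
      exact hp ha hb hab
    · intro j hj
      simp only [dif_pos hj, dif_pos (show j < k by omega)]
      exact hmono (Nat.zero_le _) (hpadj j hj)
    · intro j hj
      simp only [dif_pos hj, ne_eq, Subtype.mk.injEq]
      exact hw₀ j hj
    · simpa using huv
    · rcases hparity with ho | ⟨q, hq⟩
      · exact Or.inl ho
      · exact Or.inr ⟨q.mapLe hΓle, by rw [SimpleGraph.Walk.length_mapLe]; exact hq⟩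
  exact hmono (Nat.add_le_add_left hi' T₁) hfin

theorem fill_le {B : Type*} [Fintype B] (k : ℕ) (hk : 3 ≤ k) (D : ℕ → SimpleGraph B)
    (hmono : Monotone D) (hrule : ∀ t, Ends k (D t) (D (t + 1))) :
    fill k (D 0) ≤ D (Nat.log 2 (Fintype.card B) + 1 + (5 * (2 * k + 1) + k) ^ 2) := by
  intro u v huv
  rcases huv with h | h
  · exact hmono (Nat.zero_le _) h
  · rw [SimpleGraph.fromRel_adj] at h
    obtain ⟨hne, ⟨h1, h2, h3⟩ | ⟨h1, h2, h3⟩⟩ := h
    · exact FL_main k hk D hmono hrule u v hne h1 h2 h3
    · exact (FL_main k hk D hmono hrule v u hne.symm h1 h2 h3).symm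

end Pool.Agent.Helper92.GB
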