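import Mathlib
import Pool.Agent.Helper92.GB.Basic

set_option autoImplicit false

/-! Module GB-FillTame.  Filling the big components outside `Z` gives a tame graph.

Proof.  `B = {x // x ∉ Z}`, `D = G.comap val : SimpleGraph B`, `G' = G ⊔ (fill k D).map val`.  `c x` for
`x ∉ Z` is (the value of) a representative of the component of `x` in `D`, `c x = x` for `x ∈ Z`.
Two vertices outside `Z` adjacent in `G'` are in the same component of `D`.  Let `Q` be a class, i.e.
the set of the vertices outside `Z` whose representative is `l` (if `Q` is empty then `Q.card ≤ k`).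
If `BigComp k D u` for the elements `u` of `Q`: in `G'` two distinct elements `w, x` of `Q` are adjacent
iff `Odd k` or there is an odd walk of `D` from `w` to `x` (an edge of `D` is an odd walk).
`κ x = true` iff there is an even walk of `D` from `l` to `x`.  If `κ x = κ y` there is an even walk from
`x` to `y` (if both are `false`, there are walks from `l` to `x`, `y`, which are odd, and the
concatenation is even); so `w` has an odd walk to `x` iff it has one to `y`: `Twins`.
If not `BigComp`: `G'` and `D` have the same edges in `Q` (for all `u, v ∈ Q`).  If `Q` contains a path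
`p` on `k` vertices then by `¬ BigComp` all vertices of `Q` are among the `p i`, `i < k`, so
`Q.card ≤ k`.  Otherwise `NoPath G' Q k`. -/

namespace Pool.Agent.Helper92.GB

theorem bigComp_of_reachable {B : Type*} {k : ℕ} {D : SimpleGraph B} {u v : B}
    (h : D.Reachable v u) (hb : BigComp k D u) : BigComp k D v := by
  obtain ⟨p, h1, h2, h3, w, h4, h5⟩ := hb
  exact ⟨p, h1, h2, h.trans h3, w, h.trans h4, h5⟩

theorem fill_adj_reachable {B : Type*} {k : ℕ} {D : SimpleGraph B} {u v : B}
    (h : (fill k D).Adj u v) : D.Reachable u v := by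
  unfold fill at h
  rw [SimpleGraph.sup_adj, SimpleGraph.fromRel_adj] at h
  rcases h with h | ⟨-, h | h⟩
  · exact h.reachable
  · exact h.2.1
  · exact h.2.1.symm

/-- edges of the filled graph in a big component -/
theorem fill_adj_big {B : Type*} {k : ℕ} {D : SimpleGraph B} {u v : B} (hu : BigComp k D u)
    (hr : D.Reachable u v) :
    (fill k D).Adj u v ↔ u ≠ v ∧ (Odd k ∨ ∃ q : D.Walk u v, Odd q.length) := by
  unfold fill
  rw [SimpleGraph.sup_adj, SimpleGraph.fromRel_adj]
  constructor
  · rintro (h | ⟨hne, h | h⟩)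
    · refine ⟨h.ne, Or.inr ⟨h.toWalk, ?_⟩⟩
      simp
    · exact ⟨hne, h.2.2⟩
    · refine ⟨hne, ?_⟩
      rcases h.2.2 with h' | ⟨q, hq⟩
      · exact Or.inl h'
      · exact Or.inr ⟨q.reverse, by rwa [SimpleGraph.Walk.length_reverse]⟩
  · rintro ⟨hne, h⟩
    exact Or.inr ⟨hne, Or.inl ⟨hu, hr, h⟩⟩

theorem fill_adj_small {B : Type*} {k : ℕ} {D : SimpleGraph B} {u v : B} (hu : ¬ BigComp k D u)
    (hv : ¬ BigComp k D v) : (fill k D).Adj u v ↔ D.Adj u v := by
  unfold fill
  rw [SimpleGraph.sup_adj, SimpleGraph.fromRel_adj]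
  constructor
  · rintro (h | ⟨-, h | h⟩)
    · exact h
    · exact absurd h.1 hu
    · exact absurd h.1 hv
  · exact Or.inl

/-- the parity classes -/
theorem odd_walk_iff {B : Type*} {D : SimpleGraph B} {l x y w : B} (hx : D.Reachable l x)
    (hy : D.Reachable l y)
    (hκ : (∃ q : D.Walk l x, Even q.length) ↔ (∃ q : D.Walk l y, Even q.length)) :
    (∃ q : D.Walk w x, Odd q.length) → (∃ q : D.Walk w y, Odd q.length) := by
  have key : ∃ q : D.Walk x y, Even q.length := by
    by_cases h : ∃ q : D.Walk l x, Even q.length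
    · obtain ⟨q1, h1⟩ := h
      obtain ⟨q2, h2⟩ := hκ.1 ⟨q1, h1⟩
      refine ⟨q1.reverse.append q2, ?_⟩
      rw [SimpleGraph.Walk.length_append, SimpleGraph.Walk.length_reverse]
      exact h1.add h2
    · obtain ⟨q1⟩ := hx
      obtain ⟨q2⟩ := hy
      have h1 : Odd q1.length := by
        rw [← Nat.not_even_iff_odd]
        exact fun h' => h ⟨q1, h'⟩
      have h2 : Odd q2.length := by
        rw [← Nat.not_even_iff_odd]
        exact fun h' => h (hκ.2 ⟨q2, h'⟩)
      refine ⟨q1.reverse.append q2, ?_⟩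
      rw [SimpleGraph.Walk.length_append, SimpleGraph.Walk.length_reverse]
      exact h1.add_odd h2
  rintro ⟨q, hq⟩
  obtain ⟨q', hq'⟩ := key
  refine ⟨q.append q', ?_⟩
  rw [SimpleGraph.Walk.length_append]
  exact hq.add_even hq'

theorem fill_tame {V : Type*} [Fintype V] [DecidableEq V] (k : ℕ) (G : SimpleGraph V)
    (Z : Finset V) :
    Tame k (G ⊔ (fill k (G.comap (Subtype.val : {x // x ∉ Z} → V))).map
      (Function.Embedding.subtype (fun x => x ∉ Z))) Z := by
  classical
  set D : SimpleGraph {x // x ∉ Z} := G.comap (Subtype.val : {x // x ∉ Z} → V) with hD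
  set G' : SimpleGraph V := G ⊔ (fill k D).map (Function.Embedding.subtype (fun x => x ∉ Z))
    with hG'
  have hadj : ∀ x y (hx : x ∉ Z) (hy : y ∉ Z), G'.Adj x y ↔ (fill k D).Adj ⟨x, hx⟩ ⟨y, hy⟩ := by
    intro x y hx hy
    rw [hG', SimpleGraph.sup_adj, SimpleGraph.map_adj]
    constructor
    · rintro (h | ⟨u, v, h, hu, hv⟩)
      · have : D.Adj ⟨x, hx⟩ ⟨y, hy⟩ := h
        unfold fill
        rw [SimpleGraph.sup_adj]
        exact Or.inl this
      · have e1 : u = ⟨x, hx⟩ := Subtype.ext hu
        have e2 : v = ⟨y, hy⟩ := Subtype.ext hv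
        rwa [e1, e2] at h
    · intro h
      exact Or.inr ⟨⟨x, hx⟩, ⟨y, hy⟩, h, rfl, rfl⟩
  let rep : {x // x ∉ Z} → {x // x ∉ Z} := fun u => Quot.out (D.connectedComponentMk u)
  have hrep : ∀ u, D.Reachable (rep u) u := by
    intro u
    apply SimpleGraph.ConnectedComponent.exact
    exact Quot.out_eq (D.connectedComponentMk u)
  have hrep2 : ∀ u v, D.Reachable u v → rep u = rep v := by
    intro u v h
    have : D.connectedComponentMk u = D.connectedComponentMk v :=
      SimpleGraph.ConnectedComponent.sound h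
    simp only [rep, this]
  refine ⟨fun x => if h : x ∉ Z then (rep ⟨x, h⟩ : V) else x, ?_, ?_⟩
  · intro x y hx hy hxy
    rw [hadj x y hx hy] at hxy
    have := hrep2 _ _ (fill_adj_reachable hxy)
    simp only [dif_pos hx, dif_pos hy, this]
  · rintro Q ⟨l, hl⟩
    rcases Q.eq_empty_or_nonempty with hQ | ⟨x0, hx0⟩
    · left
      rw [hQ]
      simp
    have hx0Z : x0 ∉ Z := ((hl x0).1 hx0).1
    have hl0 : (rep ⟨x0, hx0Z⟩ : V) = l := by
      have := ((hl x0).1 hx0).2
      simpa only [dif_pos hx0Z] using this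
    have hreach : ∀ x (hx : x ∈ Q), D.Reachable ⟨x0, hx0Z⟩ ⟨x, ((hl x).1 hx).1⟩ := by
      intro x hx
      have hxZ := ((hl x).1 hx).1
      have h2 := ((hl x).1 hx).2
      simp only [dif_pos hxZ] at h2
      have h3 : rep ⟨x, hxZ⟩ = rep ⟨x0, hx0Z⟩ := Subtype.ext (h2.trans hl0.symm)
      have h4 := hrep ⟨x, hxZ⟩
      rw [h3] at h4
      exact (hrep ⟨x0, hx0Z⟩).symm.trans h4
    by_cases hB : BigComp k D ⟨x0, hx0Z⟩
    · right
      left
      refine ⟨fun x => if h : x ∉ Z then
        decide (∃ q : D.Walk ⟨x0, hx0Z⟩ ⟨x, h⟩, Even q.length) else false, ?_⟩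
      intro x hx y hy hκ w hw hwx hwy
      have hxZ := ((hl x).1 hx).1
      have hyZ := ((hl y).1 hy).1
      have hwZ := ((hl w).1 hw).1
      simp only [dif_pos hxZ, dif_pos hyZ, decide_eq_decide] at hκ
      have hrw := hreach w hw
      have hrx := hreach x hx
      have hry := hreach y hy
      have hBw : BigComp k D ⟨w, hwZ⟩ := bigComp_of_reachable hrw.symm hB
      rw [hadj w x hwZ hxZ, hadj w y hwZ hyZ, fill_adj_big hBw (hrw.symm.trans hrx),
        fill_adj_big hBw (hrw.symm.trans hry)]
      have e1 : (⟨w, hwZ⟩ : {x // x ∉ Z}) ≠ ⟨x, hxZ⟩ := fun h => hwx (congrArg Subtype.val h)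
      have e2 : (⟨w, hwZ⟩ : {x // x ∉ Z}) ≠ ⟨y, hyZ⟩ := fun h => hwy (congrArg Subtype.val h)
      constructor
      · rintro ⟨-, h | h⟩
        · exact ⟨e2, Or.inl h⟩
        · exact ⟨e2, Or.inr (odd_walk_iff hrx hry hκ h)⟩
      · rintro ⟨-, h | h⟩
        · exact ⟨e1, Or.inl h⟩
        · exact ⟨e1, Or.inr (odd_walk_iff hry hrx hκ.symm h)⟩
    · by_cases hP : NoPath G' Q k
      · exact Or.inr (Or.inr hP)
      left
      unfold NoPath at hP
      push Not at hP
      obtain ⟨p, hp1, hp2, hp3, -⟩ := hP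
      have hk : 0 < k := by
        by_contra hk
        have hk0 : k = 0 := by omega
        apply hB
        refine ⟨fun _ => ⟨x0, hx0Z⟩, ?_, ?_, SimpleGraph.Reachable.refl _, ⟨x0, hx0Z⟩,
          SimpleGraph.Reachable.refl _, ?_⟩
        · rw [hk0]
          intro i hi
          simp at hi
        · intro i hi
          omega
        · intro i hi
          omega
      have hsmall : ∀ x (hx : x ∈ Q), ¬ BigComp k D ⟨x, ((hl x).1 hx).1⟩ :=
        fun x hx h => hB (bigComp_of_reachable (hreach x hx) h)
      have hsub : Q ⊆ (Finset.range k).image p := by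
        intro w hw
        by_contra hnot
        apply hB
        let p' : ℕ → {x // x ∉ Z} := fun i => if h : p i ∉ Z then ⟨p i, h⟩ else ⟨x0, hx0Z⟩
        have hp' : ∀ i (hi : i < k), p' i = ⟨p i, ((hl _).1 (hp2 i hi)).1⟩ := by
          intro i hi
          simp only [p']
          rw [dif_pos ((hl _).1 (hp2 i hi)).1]
        refine ⟨p', ?_, ?_, ?_, ⟨w, ((hl w).1 hw).1⟩, hreach w hw, ?_⟩
        · intro i hi j hj hij
          rw [hp' i hi, hp' j hj] at hij
          exact hp1 hi hj (congrArg Subtype.val hij)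
        · intro i hi
          have h1 := hp3 i hi
          rw [hadj _ _ ((hl _).1 (hp2 i (by omega))).1 ((hl _).1 (hp2 (i + 1) hi)).1,
            fill_adj_small (hsmall _ (hp2 i (by omega))) (hsmall _ (hp2 (i + 1) hi))] at h1
          rw [hp' i (by omega), hp' (i + 1) hi]
          exact h1
        · rw [hp' 0 hk]
          exact hreach _ (hp2 0 hk)
        · intro i hi h
          rw [hp' i hi] at h
          apply hnot
          rw [Finset.mem_image]
          exact ⟨i, Finset.mem_range.2 hi, congrArg Subtype.val h⟩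
      calc Q.card ≤ ((Finset.range k).image p).card := Finset.card_le_card hsub
        _ ≤ (Finset.range k).card := Finset.card_image_le
        _ = k := Finset.card_range k

end Pool.Agent.Helper92.GB
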