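import Mathlib
import Pool.Agent.Helper92.GB.Basic

set_option autoImplicit false

/-! Module GB-Finish.  The last rounds.

`H` has a vertex `l` of degree one, with neighbour `p`; `h = |W|`.
`clique_hubs`: `K` is a clique with `h` vertices completely joined to the complement of `Y` (so
`K ⊆ Y`).  For `x ≠ y` outside `Y` let `g : W ↪ V` send `p` to `x`, `l` to `y` and the other vertices
injectively into `K`.  All edges of `H` except `l p` are mapped to edges.  So `x y` is an edge one
round later.
`finish`: the complement of `Z` is a clique with at least `h` vertices (`h ≥ 2`).  For `x ∉ Z` and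
any `y ≠ x`: `g` sends `p` to `x`, `l` to `y` and the other vertices injectively into the complement of
`Z ∪ {x, y}` (if `y ∉ Z` the pair is adjacent anyway, so assume `y ∈ Z`); all edges but `l p` are
edges, so `x y` is an edge of `G_{t+1}`.  Then for `x ≠ y` in `Z`: `g` sends `p` to `x`, `l` to `y`
and the rest into the complement of `Z`; all edges but `x y` are in `G_{t+1}`, so `x y` is in
`G_{t+2}`.  So `proc H G (t+2) = ⊤`, hence it is equal to `proc H G (t+3)`. -/

namespace Pool.Agent.Helper92.GB

open Pool.Agent.Helper41.Boot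

private theorem Finish_embed {W V : Type*} [Fintype W] [Fintype V] [DecidableEq V] {p l : W}
    (hpl : p ≠ l) {x y : V} (hxy : x ≠ y) (K : Finset V) (hx : x ∉ K) (hy : y ∉ K)
    (hcard : Fintype.card W ≤ K.card + 2) :
    ∃ g : W ↪ V, g p = x ∧ g l = y ∧ ∀ w, w ≠ p → w ≠ l → g w ∈ K := by
  classical
  have h1 : Fintype.card {w : W // w ≠ p ∧ w ≠ l} ≤ Fintype.card K := by
    rw [Fintype.card_coe, Fintype.card_subtype]
    have h2 : (Finset.univ.filter fun w : W => w ≠ p ∧ w ≠ l) = (Finset.univ.erase p).erase l := by
      ext w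
      simp only [Finset.mem_filter, Finset.mem_univ, true_and, Finset.mem_erase, and_true]
      exact and_comm
    rw [h2, Finset.card_erase_of_mem (Finset.mem_erase.2 ⟨hpl.symm, Finset.mem_univ _⟩),
      Finset.card_erase_of_mem (Finset.mem_univ _), Finset.card_univ]
    omega
  obtain ⟨e⟩ := Function.Embedding.nonempty_of_card_le h1
  let g : W → V := fun w => if hp : w = p then x else if hl : w = l then y else
    (e ⟨w, hp, hl⟩ : V)
  have gp : g p = x := dif_pos rfl
  have gl : g l = y := by
    show (if hp : l = p then x else if hl : l = l then y else (e ⟨l, hp, hl⟩ : V)) = y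
    rw [dif_neg hpl.symm, dif_pos rfl]
  have gw : ∀ w (hp : w ≠ p) (hl : w ≠ l), g w = (e ⟨w, hp, hl⟩ : V) := by
    intro w hp hl
    show (if hp : w = p then x else if hl : w = l then y else (e ⟨w, hp, hl⟩ : V)) = _
    rw [dif_neg hp, dif_neg hl]
  have gK : ∀ w, w ≠ p → w ≠ l → g w ∈ K := by
    intro w hp hl
    rw [gw w hp hl]
    exact (e ⟨w, hp, hl⟩).2
  have inj : Function.Injective g := by
    intro a b hab
    by_cases ap : a = p
    · by_cases bp : b = p
      · rw [ap, bp]
      · exfalso
        rw [ap, gp] at hab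
        by_cases bl : b = l
        · rw [bl, gl] at hab
          exact hxy hab
        · exact hx (hab ▸ gK b bp bl)
    · by_cases al : a = l
      · by_cases bl : b = l
        · rw [al, bl]
        · exfalso
          rw [al, gl] at hab
          by_cases bp : b = p
          · rw [bp, gp] at hab
            exact hxy hab.symm
          · exact hy (hab ▸ gK b bp bl)
      · by_cases bp : b = p
        · exfalso
          rw [bp, gp] at hab
          exact hx (hab ▸ gK a ap al)
        · by_cases bl : b = l
          · exfalso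
            rw [bl, gl] at hab
            exact hy (hab ▸ gK a ap al)
          · rw [gw a ap al, gw b bp bl] at hab
            have h3 := e.injective (Subtype.ext hab)
            exact congrArg Subtype.val h3
  exact ⟨⟨g, inj⟩, gp, gl, gK⟩

/-- one round with the rest of the copy inside a clique `K` which is joined to `x` -/
private theorem Finish_round {W V : Type*} [Fintype W] [Fintype V] [DecidableEq V]
    (H : SimpleGraph W) (G : SimpleGraph V) (t : ℕ) (hH : ∃ p, IsSupport H p) {x y : V}
    (hxy : x ≠ y) (K : Finset V) (hx : x ∉ K) (hy : y ∉ K)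
    (hcard : Fintype.card W ≤ K.card + 2)
    (hcl : ∀ a ∈ K, ∀ b ∈ K, a ≠ b → (proc H G t).Adj a b)
    (hxK : ∀ a ∈ K, (proc H G t).Adj x a) : (proc H G (t + 1)).Adj x y := by
  obtain ⟨p, l, hl⟩ := hH
  have hlp : H.Adj l p := (hl p).2 rfl
  obtain ⟨g, gp, gl, gK⟩ := Finish_embed (p := p) (l := l) hlp.ne.symm hxy K hx hy hcard
  refine adj_succ H G t hxy g ?_ ⟨p, l, hlp.symm, by rw [gp, gl]⟩
  intro a b hab
  by_cases al : a = l
  · right
    rw [al] at hab ⊢
    rw [(hl b).1 hab, gp, gl]
    exact Sym2.eq_swap
  · by_cases bl : b = l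
    · right
      rw [bl] at hab ⊢
      rw [(hl a).1 hab.symm, gp, gl]
    · left
      by_cases ap : a = p
      · have bp : b ≠ p := fun h => hab.ne (ap.trans h.symm)
        rw [ap, gp]
        exact hxK _ (gK b bp bl)
      · by_cases bp : b = p
        · rw [bp, gp]
          exact (hxK _ (gK a ap al)).symm
        · exact hcl _ (gK a ap al) _ (gK b bp bl) (fun h => hab.ne (g.injective h))

theorem clique_hubs {W V : Type*} [Fintype W] [Fintype V] [DecidableEq V] (H : SimpleGraph W)
    (G : SimpleGraph V) (t : ℕ) (K Y : Finset V) (hH : ∃ p, IsSupport H p)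
    (hK : Hub (proc H G t) K Y) (hcl : ∀ x ∈ K, ∀ y ∈ K, x ≠ y → (proc H G t).Adj x y)
    (hcard : Fintype.card W ≤ K.card) :
    ∀ x y, x ∉ Y → y ∉ Y → x ≠ y → (proc H G (t + 1)).Adj x y := by
  intro x y hx hy hxy
  exact Finish_round H G t hH hxy K (fun h => hx (hK.subset h)) (fun h => hy (hK.subset h))
    (by omega) hcl (fun a ha => (hK a ha x hx).symm)

theorem finish {W V : Type*} [Fintype W] [Fintype V] [DecidableEq V] (H : SimpleGraph W)
    (G : SimpleGraph V) (t : ℕ) (Z : Finset V) (hH : ∃ p, IsSupport H p)
    (hcl : ∀ x y, x ∉ Z → y ∉ Z → x ≠ y → (proc H G t).Adj x y)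
    (hcard : Z.card + Fintype.card W ≤ Fintype.card V) :
    proc H G (t + 2) = proc H G (t + 3) := by
  have hc : (Zᶜ : Finset V).card = Fintype.card V - Z.card := Finset.card_compl Z
  have h1 : ∀ x y, x ∉ Z → x ≠ y → (proc H G (t + 1)).Adj x y := by
    intro x y hx hxy
    by_cases hy : y ∉ Z
    · exact proc_le_succ H G t (hcl x y hx hy hxy)
    · push Not at hy
      refine Finish_round H G t hH hxy (Zᶜ.erase x) (Finset.notMem_erase x _) ?_ ?_ ?_ ?_
      · intro h
        exact (Finset.mem_compl.1 (Finset.mem_of_mem_erase h)) hy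
      · rw [Finset.card_erase_of_mem (Finset.mem_compl.2 hx), hc]
        omega
      · intro a ha b hb hab
        exact hcl a b (Finset.mem_compl.1 (Finset.mem_of_mem_erase ha))
          (Finset.mem_compl.1 (Finset.mem_of_mem_erase hb)) hab
      · intro a ha
        exact hcl x a hx (Finset.mem_compl.1 (Finset.mem_of_mem_erase ha))
          (Finset.ne_of_mem_erase ha).symm
  have h2 : ∀ x y, x ≠ y → (proc H G (t + 2)).Adj x y := by
    intro x y hxy
    by_cases hx : x ∉ Z
    · exact proc_le_succ H G (t + 1) (h1 x y hx hxy)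
    · by_cases hy : y ∉ Z
      · exact proc_le_succ H G (t + 1) (h1 y x hy hxy.symm).symm
      · push Not at hx hy
        refine Finish_round H G (t + 1) hH hxy Zᶜ ?_ ?_ ?_ ?_ ?_
        · exact fun h => (Finset.mem_compl.1 h) hx
        · exact fun h => (Finset.mem_compl.1 h) hy
        · rw [hc]
          omega
        · intro a ha b _ hab
          exact h1 a b (Finset.mem_compl.1 ha) hab
        · intro a ha
          have ha' := Finset.mem_compl.1 ha
          exact (h1 a x ha' (fun h => ha' (h ▸ hx))).symm
  refine le_antisymm (proc_le_succ H G (t + 2)) ?_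
  intro x y hxy
  exact h2 x y hxy.ne

end Pool.Agent.Helper92.GB
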