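import Mathlib
import Pool.Agent.Helper92.GB.Basic

set_option autoImplicit false

/-! Module GB-PathRule.  A copy of `H` whose trace leaves a cycle component activates the rule
of the `k`-cycle outside a bounded set.

Proof.  Let `S = {w | f w ∈ X}`, `Z = Y ∪ f(W)` and `c : ZMod k → W` from `CycleComp`.  Let
`p : ℕ → V` be injective on `{0,...,k-1}` with values outside `Z` and `p i`, `p (i+1)` adjacent at time
`t ≥ s` (`i + 1 < k`).  Define `g w = p (i.val)` if `w = c i` and `g w = f w` if `w` is not in the range
of `c`.  `g` is injective (`p i ∉ f(W)`).  Let `a b` be adjacent in `H`.  If neither is in the range of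
`c` the edge `f a, f b` is present at time `s ≤ t`.  If `a = c i` and `b` is not in the range of `c`
then `b ∈ S` (otherwise `b = c (i+1)` or `c (i-1)`), so `f b ∈ X` is joined to `p i.val ∉ Y`.  If
`a = c i`, `b = c j` then (as `c j ∉ S`) `j = i + 1` or `j = i - 1`; say `j = i + 1`: if
`i.val + 1 < k` then `j.val = i.val + 1` and the edge is present, if `i.val = k - 1` then `j = 0` and
the pair is `s(p 0, p (k-1))`.  Conclude with `adj_succ` (the edge `c 0, c (k-1)` of `H` is mapped to
this pair; `p 0 ≠ p (k-1)` because `k ≥ 3`). -/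

namespace Pool.Agent.Helper92.GB

open Pool.Agent.Helper41.Boot

theorem path_rule {W V : Type*} [Fintype W] [Fintype V] [DecidableEq V] (H : SimpleGraph W)
    (G : SimpleGraph V) (s : ℕ) (X Y : Finset V) (hX : Hub (proc H G s) X Y) (f : W ↪ V)
    (hf : IsCopy H (proc H G s) f) (k : ℕ) (hk : CycleComp H {w | f w ∈ X} k) (t : ℕ)
    (hst : s ≤ t) (p : ℕ → V) (hp : Set.InjOn p (Set.Iio k))
    (hpZ : ∀ i, i < k → p i ∉ Y ∪ Finset.univ.map f)
    (hadj : ∀ i, i + 1 < k → (proc H G t).Adj (p i) (p (i + 1))) :
    (proc H G (t + 1)).Adj (p 0) (p (k - 1)) := by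
  classical
  obtain ⟨hk3, c, hc, hcc⟩ := hk
  have : NeZero k := ⟨by omega⟩
  have hle : proc H G s ≤ proc H G t := proc_mono H G hst
  -- values outside the range of f
  have hpf : ∀ i, i < k → ∀ w, p i ≠ f w := by
    intro i hi w h
    apply hpZ i hi
    rw [h]
    simp
  have hpY : ∀ i, i < k → p i ∉ Y := by
    intro i hi h
    exact hpZ i hi (Finset.mem_union_left _ h)
  have hval : ∀ i : ZMod k, i.val < k := fun i => ZMod.val_lt i
  -- the map g
  let g0 : W → V := fun w => if h : ∃ i, c i = w then p (h.choose.val) else f w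
  have hg1 : ∀ i, g0 (c i) = p i.val := by
    intro i
    have h : ∃ j, c j = c i := ⟨i, rfl⟩
    have : g0 (c i) = p (h.choose.val) := dif_pos h
    rw [this, hc h.choose_spec]
  have hg2 : ∀ w, (∀ i, c i ≠ w) → g0 w = f w := by
    intro w hw
    exact dif_neg (fun ⟨i, hi⟩ => hw i hi)
  have hginj : Function.Injective g0 := by
    intro u v huv
    by_cases hu : ∃ i, c i = u
    · obtain ⟨i, rfl⟩ := hu
      by_cases hv : ∃ j, c j = v
      · obtain ⟨j, rfl⟩ := hv
        rw [hg1, hg1] at huv
        have := hp (hval i) (hval j) huv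
        rw [ZMod.val_injective k this]
      · push Not at hv
        rw [hg1, hg2 v hv] at huv
        exact absurd huv (hpf _ (hval i) v)
    · push Not at hu
      by_cases hv : ∃ j, c j = v
      · obtain ⟨j, rfl⟩ := hv
        rw [hg1, hg2 u hu] at huv
        exact absurd huv.symm (hpf _ (hval j) u)
      · push Not at hv
        rw [hg2 u hu, hg2 v hv] at huv
        exact f.injective huv
  -- consecutive vertices
  have hsucc : ∀ i : ZMod k, (proc H G t).Adj (p i.val) (p (i + 1).val) ∨
      s(p i.val, p (i + 1).val) = s(p 0, p (k - 1)) := by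
    intro i
    by_cases hi : i.val + 1 < k
    · left
      have : (i + 1).val = i.val + 1 := by
        have h1 : (1 : ZMod k).val = 1 := by
          have : ((1 : ℕ) : ZMod k).val = 1 := ZMod.val_natCast_of_lt (by omega)
          simpa using this
        rw [ZMod.val_add_of_lt (by rw [h1]; exact hi), h1]
      rw [this]
      exact hadj _ hi
    · right
      have hi' : i.val = k - 1 := by
        have := hval i
        omega
      have h0 : (i + 1).val = 0 := by
        have : i = ((k - 1 : ℕ) : ZMod k) := by
          rw [← hi', ZMod.natCast_zmod_val]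
        rw [this]
        have h2 : ((k - 1 : ℕ) : ZMod k) + 1 = 0 := by
          have h3 : (((k - 1) + 1 : ℕ) : ZMod k) = 0 := by
            rw [Nat.sub_add_cancel (by omega)]
            exact ZMod.natCast_self k
          push_cast at h3
          exact h3
        rw [h2, ZMod.val_zero]
      rw [h0, hi', Sym2.eq_swap]
  have hne : p 0 ≠ p (k - 1) := by
    intro h
    have := hp (show (0 : ℕ) ∈ Set.Iio k from by simp; omega)
      (show (k - 1) ∈ Set.Iio k from by simp; omega) h
    omega
  -- one-sided statement
  have hside : ∀ (i : ZMod k) (b : W), H.Adj (c i) b →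
      (proc H G t).Adj (g0 (c i)) (g0 b) ∨ s(g0 (c i), g0 b) = s(p 0, p (k - 1)) := by
    intro i b hab
    by_cases hb : ∃ j, c j = b
    · obtain ⟨j, rfl⟩ := hb
      rw [hg1, hg1]
      have h1 := ((hcc i).2 (c j) (hcc j).1).1 hab
      rcases h1 with h1 | h1
      · have := hc h1
        subst this
        exact hsucc i
      · have := hc h1
        subst this
        have h2 := hsucc (i - 1)
        rw [sub_add_cancel] at h2
        rcases h2 with h2 | h2
        · exact Or.inl h2.symm
        · exact Or.inr (Sym2.eq_swap.trans h2)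
    · push Not at hb
      left
      rw [hg1, hg2 b hb]
      have hbX : f b ∈ X := by
        by_contra hbX
        have h1 := ((hcc i).2 b hbX).1 hab
        rcases h1 with h1 | h1
        · exact hb _ h1.symm
        · exact hb _ h1.symm
      exact (hle (hX (f b) hbX (p i.val) (hpY _ (hval i)))).symm
  refine adj_succ H G t hne ⟨g0, hginj⟩ ?_ ?_
  · intro a b hab
    by_cases ha : ∃ i, c i = a
    · obtain ⟨i, rfl⟩ := ha
      exact hside i b hab
    · by_cases hb : ∃ i, c i = b
      · obtain ⟨i, rfl⟩ := hb
        rcases hside i a hab.symm with h | h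
        · exact Or.inl h.symm
        · exact Or.inr (Sym2.eq_swap.trans h)
      · push Not at ha hb
        left
        show (proc H G t).Adj (g0 a) (g0 b)
        rw [hg2 a ha, hg2 b hb]
        exact hle (hf a b hab)
  · refine ⟨c ((k - 1 : ℕ) : ZMod k), c 0, ?_, ?_⟩
    · have h1 : ((k - 1 : ℕ) : ZMod k) + 1 = 0 := by
        have h3 : (((k - 1) + 1 : ℕ) : ZMod k) = 0 := by
          rw [Nat.sub_add_cancel (by omega)]
          exact ZMod.natCast_self k
        push_cast at h3
        exact h3
      apply ((hcc _).2 _ (hcc 0).1).2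
      left
      rw [h1]
    · show s(g0 (c ((k - 1 : ℕ) : ZMod k)), g0 (c 0)) = s(p 0, p (k - 1))
      rw [hg1, hg1, ZMod.val_zero, ZMod.val_natCast_of_lt (by omega), Sym2.eq_swap]

end Pool.Agent.Helper92.GB
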