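import Mathlib
import Pool.Agent.Helper92.GB.Basic

set_option autoImplicit false

/-! Module GB-Window.  A window of `m` rounds without new edges inside `Y`, or a stable round.

Proof.  Let `g s` be the number of pairs `(x, y) ∈ Y ×ˢ Y` adjacent in `proc H G s`; it is monotone in
`s` and at most `|Y|²`.  If the first alternative fails and for every `j ≤ |Y|²` the window
`s₀ = t + j m` fails the second alternative, then (the last round of the window is not stable, because
the first alternative fails) some round of the window has a new edge inside `Y`, so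
`g (t + (j+1) m) ≥ g (t + j m) + 1`; by induction `g (t + (|Y|²+1) m) ≥ |Y|² + 1`, a contradiction. -/

namespace Pool.Agent.Helper92.GB

open Pool.Agent.Helper41.Boot

theorem window {W V : Type*} [Fintype V] [DecidableEq V] (H : SimpleGraph W) (G : SimpleGraph V)
    (t m : ℕ) (hm : 1 ≤ m) (Y : Finset V) :
    (∃ s, t ≤ s ∧ s ≤ t + (Y.card ^ 2 + 1) * m ∧ proc H G s = proc H G (s + 1)) ∨
      ∃ s, t ≤ s ∧ s + m ≤ t + (Y.card ^ 2 + 1) * m ∧
        (∀ i, i < m → ∀ x ∈ Y, ∀ y ∈ Y, (proc H G (s + i + 1)).Adj x y →
          (proc H G (s + i)).Adj x y) ∧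
        proc H G (s + m - 1) ≠ proc H G (s + m) := by
  classical
  by_contra hcon
  rw [not_or] at hcon
  obtain ⟨h1, h2⟩ := hcon
  let g : ℕ → ℕ := fun s => ((Y ×ˢ Y).filter (fun p => (proc H G s).Adj p.1 p.2)).card
  have gmono : ∀ {s s' : ℕ}, s ≤ s' → g s ≤ g s' := by
    intro s s' hs
    apply Finset.card_le_card
    intro p hp
    rw [Finset.mem_filter] at hp ⊢
    exact ⟨hp.1, proc_mono H G hs hp.2⟩
  have glt : ∀ {s : ℕ} {x y : V}, x ∈ Y → y ∈ Y → (proc H G (s + 1)).Adj x y →
      ¬ (proc H G s).Adj x y → g s < g (s + 1) := by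
    intro s x y hx hy hxy hnxy
    apply Finset.card_lt_card
    refine ⟨?_, ?_⟩
    · intro p hp
      rw [Finset.mem_filter] at hp ⊢
      exact ⟨hp.1, proc_mono H G (Nat.le_succ s) hp.2⟩
    · intro hsub
      have hmem : (x, y) ∈ (Y ×ˢ Y).filter (fun p => (proc H G (s + 1)).Adj p.1 p.2) := by
        rw [Finset.mem_filter, Finset.mem_product]
        exact ⟨⟨hx, hy⟩, hxy⟩
      have := hsub hmem
      rw [Finset.mem_filter] at this
      exact hnxy this.2
  have key : ∀ j, j ≤ Y.card ^ 2 + 1 → j ≤ g (t + j * m) := by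
    intro j
    induction j with
    | zero => intro _; exact Nat.zero_le _
    | succ j ih =>
      intro hj
      have ih' := ih (by omega)
      have hjm : (j + 1) * m ≤ (Y.card ^ 2 + 1) * m := Nat.mul_le_mul_right m hj
      have hexp : (j + 1) * m = j * m + m := by ring
      by_contra hlt
      apply h2
      refine ⟨t + j * m, Nat.le_add_right _ _, by omega, ?_, ?_⟩
      · intro i hi x hx y hy hxy
        by_contra hn
        apply hlt
        have a1 : g (t + j * m) ≤ g (t + j * m + i) := gmono (Nat.le_add_right _ _)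
        have a2 : g (t + j * m + i) < g (t + j * m + i + 1) := glt hx hy hxy hn
        have a3 : g (t + j * m + i + 1) ≤ g (t + (j + 1) * m) := gmono (by omega)
        omega
      · intro heq
        apply h1
        refine ⟨t + j * m + m - 1, by omega, by omega, ?_⟩
        rw [heq]
        congr 1
        omega
  have hfin := key (Y.card ^ 2 + 1) le_rfl
  have hub : g (t + (Y.card ^ 2 + 1) * m) ≤ Y.card ^ 2 := by
    calc g (t + (Y.card ^ 2 + 1) * m) ≤ (Y ×ˢ Y).card := Finset.card_filter_le _ _
      _ = Y.card ^ 2 := by rw [Finset.card_product, sq]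
  omega

end Pool.Agent.Helper92.GB
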