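import Mathlib
import Pool.Agent.Helper92.GB.Basic
import Pool.Agent.Helper92.GB.Expl
import Pool.Agent.Helper92.GB.Window
import Pool.Agent.Helper92.GB.ChainEx
import Pool.Agent.Helper92.GB.Finish

set_option autoImplicit false

/-! The step lemma. -/

namespace Pool.Agent.Helper92.GB

open Pool.Agent.Helper41.Boot

theorem step_lemma {W : Type*} [Fintype W] (H : SimpleGraph W) (m : ℕ) (hm : 1 ≤ m)
    (𝒞 : Set W → Prop) (y : ℕ)
    (hE : ∀ (U : Type) [Fintype U] (X Y : Set U) (f : ℕ → W ↪ U) (a b : ℕ → W),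
      X ⊆ Y → Y.ncard ≤ y → IsChain H X Y m f a b →
      Explosive H (world H X Y m f) X ∨ Creates H 𝒞 (world H X Y m f) X)
    (V : Type) [Fintype V] [DecidableEq V]
    (G : SimpleGraph V) (t : ℕ) (X Y : Finset V) (hX : Hub (proc H G t) X Y) (hYy : Y.card ≤ y)
    (hcard : Y.card + m * Fintype.card W + Fintype.card W ≤ Fintype.card V) (T : ℕ)
    (hT : t + (Y.card ^ 2 + 1) * m + ((m * Fintype.card W + Fintype.card W) ^ 2 + 1) ≤ T) :
    (∃ s, s ≤ T ∧ proc H G s = proc H G (s + 1)) ∨
    (∃ Z : Finset V, Z.card ≤ Y.card + m * Fintype.card W ∧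
      ∀ x y, x ∉ Z → y ∉ Z → x ≠ y → (proc H G T).Adj x y) ∨
    (∃ x, x ∉ X ∧ ∃ Y' : Finset V, Y ⊆ Y' ∧ Y'.card ≤ Y.card + m * Fintype.card W ∧
      Hub (proc H G T) (insert x X) Y') ∨
    (∃ s, t ≤ s ∧ s ≤ T ∧ ∃ f : W ↪ V, IsCopy H (proc H G s) f ∧ 𝒞 {w | f w ∈ X}) := by
  classical
  rcases window H G t m hm Y with ⟨s, -, hs, hst⟩ | ⟨s, hts, hsT, hY, hne⟩
  · exact Or.inl ⟨s, by omega, hst⟩
  have hXs : Hub (proc H G s) X Y := hX.mono (proc_mono H G hts) subset_rfl subset_rfl
  obtain ⟨f, a, b, hadj, hout, hnext, hnew, hcopy⟩ := chain_exists H G s m hm X Y hXs hY hne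
  have hXm : Hub (proc H G (s + m)) X Y :=
    hX.mono (proc_mono H G (by omega)) subset_rfl subset_rfl
  have hXT : Hub (proc H G T) X Y := hX.mono (proc_mono H G (by omega)) subset_rfl subset_rfl
  -- the chain on its own vertex set
  let U : Type := {v : V // ∃ i, i < m ∧ ∃ w, f i w = v}
  let ι : U ↪ V := Function.Embedding.subtype _
  have hr : ∀ i, min i (m - 1) < m := fun i => by omega
  let f' : ℕ → W ↪ U := fun i =>
    ⟨fun w => ⟨f (min i (m - 1)) w, min i (m - 1), hr i, w, rfl⟩, by
      intro w w' h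
      exact (f (min i (m - 1))).injective (Subtype.mk.inj h)⟩
  have hf' : ∀ i, i < m → ∀ w, ι (f' i w) = f i w := by
    intro i hi w
    change f (min i (m - 1)) w = f i w
    rw [min_eq_left (by omega)]
  have hcardU : (Finset.univ.map ι).card ≤ m * Fintype.card W := by
    have : Finset.univ.map ι ⊆ (Finset.range m).biUnion (fun i => Finset.univ.map (f i)) := by
      intro v hv
      simp only [Finset.mem_map, Finset.mem_univ, true_and] at hv
      obtain ⟨⟨u, i, hi, w, hw⟩, rfl⟩ := hv
      simp only [Finset.mem_biUnion, Finset.mem_range, Finset.mem_map, Finset.mem_univ, true_and]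
      exact ⟨i, hi, w, hw⟩
    refine (Finset.card_le_card this).trans ?_
    refine (Finset.card_biUnion_le).trans ?_
    simp
  have hcardU' : Fintype.card U ≤ m * Fintype.card W := by
    have h := hcardU
    rw [Finset.card_map, Finset.card_univ] at h
    exact h
  have hZ : (Y ∪ Finset.univ.map ι).card ≤ Y.card + m * Fintype.card W :=
    (Finset.card_union_le _ _).trans (by omega)
  -- the edges of the worlds are present in the host
  have hworld : ∀ k, k < m → ∀ u v,
      (world H {u : U | ι u ∈ X} {u : U | ι u ∈ Y} (k + 1) f').Adj u v →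
      (proc H G (s + k + 1)).Adj (ι u) (ι v) := by
    intro k hk u v huv
    have hXk : Hub (proc H G (s + k + 1)) X Y :=
      hX.mono (proc_mono H G (by omega)) subset_rfl subset_rfl
    rw [world, SimpleGraph.fromRel_adj] at huv
    rcases huv with ⟨-, (⟨i, hi, c, d, hcd, rfl, rfl⟩ | ⟨hu, hv⟩) |
      (⟨i, hi, c, d, hcd, rfl, rfl⟩ | ⟨hv, hu⟩)⟩
    · rw [hf' i (by omega), hf' i (by omega)]
      exact proc_mono H G (by omega) (hcopy i (by omega) c d hcd)
    · exact hXk _ hu _ hv
    · rw [hf' i (by omega), hf' i (by omega)]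
      exact proc_mono H G (by omega) (hcopy i (by omega) c d hcd).symm
    · exact (hXk _ hv _ hu).symm
  have hchain : IsChain H {u : U | ι u ∈ X} {u : U | ι u ∈ Y} m f' a b := by
    refine ⟨?_, hadj, ?_, ?_, ?_⟩
    · rintro ⟨v, i, hi, w, hw⟩
      refine ⟨i, hi, w, ?_⟩
      apply ι.injective
      rw [hf' i hi w]
      exact hw
    · intro i hi
      have := hout i hi
      simp only [Set.mem_ofPred_eq]
      rw [hf' i hi, hf' i hi]
      exact this
    · intro i hi
      obtain ⟨c, d, hcd, h1, h2⟩ := hnext i hi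
      refine ⟨c, d, hcd, ?_, ?_⟩
      · apply ι.injective
        rw [hf' _ hi, hf' i (by omega)]
        exact h1
      · apply ι.injective
        rw [hf' _ hi, hf' i (by omega)]
        exact h2
    · intro i k hki hi hcon
      obtain ⟨e, he⟩ := exists_emb_out (W := W) (Y ∪ Finset.univ.map ι) (by omega)
      have h1 := sum_embed H (proc H G (s + k + 1)) X Y
        (hX.mono (proc_mono H G (by omega)) subset_rfl subset_rfl) _ ι
        (hworld k (by omega)) e he _ _ _ hcon
      rw [proc_add] at h1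
      simp only [Sum.elim_inl] at h1
      rw [hf' i hi, hf' i hi, show s + k + 1 + (i - (k + 1)) = s + i by omega] at h1
      exact hnew i hi h1
  have hw : ∀ u v, (world H {u : U | ι u ∈ X} {u : U | ι u ∈ Y} m f').Adj u v →
      (proc H G (s + m)).Adj (ι u) (ι v) := by
    have h := hworld (m - 1) (by omega)
    rw [show m - 1 + 1 = m by omega, show s + (m - 1) + 1 = s + m by omega] at h
    exact h
  have hτ : (Fintype.card U + Fintype.card W) ^ 2 ≤ (m * Fintype.card W + Fintype.card W) ^ 2 :=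
    Nat.pow_le_pow_left (by omega) 2
  rcases hE U {u : U | ι u ∈ X} {u : U | ι u ∈ Y} f' a b (fun u hu => hX.subset hu) (by
      refine le_trans ?_ hYy
      rw [← Set.ncard_coe_finset Y]
      exact Set.ncard_le_ncard_of_injOn ι (fun u hu => hu) (ι.injective.injOn) (Y.finite_toSet))
      hchain with hexp | hcr
  · rcases explosive_transfer H G (s + m) ((m * Fintype.card W + Fintype.card W) ^ 2) X Y hXm
      _ ι hw hexp hτ (by omega) with ⟨x, hx, hxh⟩ | hcl
    · refine Or.inr (Or.inr (Or.inl ⟨x, hx, Y ∪ Finset.univ.map ι, Finset.subset_union_left,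
        hZ, ?_⟩))
      intro z hz v hv
      rw [Finset.mem_insert] at hz
      rcases hz with rfl | hz
      · exact proc_mono H G (by omega) (hxh z (by simp) v hv)
      · exact hXT z hz v (fun h => hv (Finset.mem_union_left _ h))
    · refine Or.inr (Or.inl ⟨Y ∪ Finset.univ.map ι, hZ, ?_⟩)
      intro x y hx hy hxy
      exact proc_mono H G (by omega) (hcl x y hx hy hxy)
  · obtain ⟨g, hg, hC⟩ := creates_transfer H 𝒞 G (s + m)
      ((m * Fintype.card W + Fintype.card W) ^ 2) X Y hXm _ ι hw hcr hτ (by omega)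
    exact Or.inr (Or.inr (Or.inr ⟨s + m + (m * Fintype.card W + Fintype.card W) ^ 2, by omega,
      by omega, g, hg, hC⟩))

end Pool.Agent.Helper92.GB
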