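import Mathlib
import Pool.Agent.Helper92.GB.Step

set_option autoImplicit false

/-! The induction over the number of hubs. -/

namespace Pool.Agent.Helper92.GB

open Pool.Agent.Helper41.Boot

/-- Within `C` rounds the process is stable or a copy with trace in `𝒞` has appeared. -/
def Done {W : Type*} (H : SimpleGraph W) (𝒞 : Set W → Prop) {V : Type} [Fintype V]
    (G : SimpleGraph V) (C : ℕ) : Prop :=
  (∃ s, s ≤ C ∧ proc H G s = proc H G (s + 1)) ∨
    ∃ s, s ≤ C ∧ ∃ X Y : Finset V, ∃ f : W ↪ V, Y.card ≤ C ∧ Hub (proc H G s) X Y ∧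
      IsCopy H (proc H G s) f ∧ 𝒞 {w | f w ∈ X}

theorem Done.mono {W : Type*} {H : SimpleGraph W} {𝒞 : Set W → Prop} {V : Type} [Fintype V]
    {G : SimpleGraph V} {C C' : ℕ} (h : Done H 𝒞 G C) (hC : C ≤ C') : Done H 𝒞 G C' := by
  rcases h with ⟨s, hs, h⟩ | ⟨s, hs, X, Y, f, hY, h⟩
  · exact Or.inl ⟨s, hs.trans hC, h⟩
  · exact Or.inr ⟨s, hs.trans hC, X, Y, f, hY.trans hC, h⟩

/-- The goal for cliques of hubs which need `j` more elements. -/
def GoalA {W : Type*} [Fintype W] (H : SimpleGraph W) (𝒞 : Set W → Prop) (j : ℕ) : Prop :=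
  ∀ y t : ℕ, ∃ C : ℕ, ∀ (V : Type) [Fintype V] [DecidableEq V] (G : SimpleGraph V),
    C ≤ Fintype.card V → ∀ K Y : Finset V, Fintype.card W ≤ K.card + j →
      (∀ x ∈ K, ∀ z ∈ K, x ≠ z → (proc H G t).Adj x z) → Hub (proc H G t) K Y → Y.card ≤ y →
      Done H 𝒞 G C

/-- The goal of the inner induction. -/
def GoalB {W : Type*} [Fintype W] (H : SimpleGraph W) (𝒞 : Set W → Prop) (j r : ℕ) : Prop :=
  ∀ y t : ℕ, ∃ C : ℕ, ∀ (V : Type) [Fintype V] [DecidableEq V] (G : SimpleGraph V),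
    C ≤ Fintype.card V → ∀ K YK X Y : Finset V, Fintype.card W ≤ K.card + (j + 1) →
      (∀ x ∈ K, ∀ z ∈ K, x ≠ z → (proc H G t).Adj x z) → Hub (proc H G t) K YK →
      Hub (proc H G t) X Y → K ⊆ X → Y.card ≤ y → (YK \ X).card ≤ r → Done H 𝒞 G C

theorem goalA_zero {W : Type*} [Fintype W] (H : SimpleGraph W) (hH : ∃ p, IsSupport H p)
    (𝒞 : Set W → Prop) : GoalA H 𝒞 0 := by
  intro y t
  refine ⟨t + 3 + y + Fintype.card W, ?_⟩
  intro V _ _ G hV K Y hK hcl hhub hY
  have h1 := clique_hubs H G t K Y hH hhub hcl (by omega)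
  have h2 := finish H G (t + 1) Y hH h1 (by omega)
  exact Or.inl ⟨t + 1 + 2, by omega, h2⟩

theorem goalB {W : Type*} [Fintype W] (H : SimpleGraph W) (hH : ∃ p, IsSupport H p)
    (𝒞 : Set W → Prop) (hE : ChainHyp H 𝒞) (j : ℕ) (hA : GoalA H 𝒞 j) (r : ℕ) :
    GoalB H 𝒞 j r := by
  induction r with
  | zero =>
    intro y t
    obtain ⟨m, hm, hEy⟩ := hE y
    obtain ⟨T, hT⟩ : ∃ T, T = t + (y ^ 2 + 1) * m + ((m * Fintype.card W + Fintype.card W) ^ 2 + 1) :=
      ⟨_, rfl⟩
    obtain ⟨C₁, hC₁⟩ := hA (y + m * Fintype.card W) T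
    refine ⟨T + 2 + y + m * Fintype.card W + Fintype.card W + C₁, ?_⟩
    intro V _ _ G hV K YK X Y hK hcl hhK hhX hKX hY hr
    have hTT : t + (Y.card ^ 2 + 1) * m + ((m * Fintype.card W + Fintype.card W) ^ 2 + 1) ≤ T := by
      rw [hT]
      have : Y.card ^ 2 ≤ y ^ 2 := Nat.pow_le_pow_left hY 2
      gcongr
    rcases step_lemma H m hm 𝒞 y hEy V G t X Y hhX hY (by omega) T hTT with
      ⟨s, hs, hst⟩ | ⟨Z, hZ, hcl'⟩ | ⟨x, hx, Y', hYY', hY', hhub⟩ | ⟨s, hts, hs, f, hf, hC⟩
    · exact Or.inl ⟨s, by omega, hst⟩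
    · exact Or.inl ⟨T + 2, by omega, finish H G T Z hH hcl' (by omega)⟩
    · have hxYK : x ∉ YK := by
        intro h
        have : x ∈ YK \ X := Finset.mem_sdiff.2 ⟨h, hx⟩
        rw [Finset.card_eq_zero.1 (Nat.le_zero.1 hr)] at this
        exact absurd this (Finset.notMem_empty _)
      have hTt : proc H G t ≤ proc H G T := proc_mono H G (by omega)
      refine (hC₁ V G (by omega) (insert x K) Y' ?_ ?_ (hhub.mono le_rfl
        (Finset.insert_subset_insert _ hKX) subset_rfl) (by omega)).mono (by omega)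
      · rw [Finset.card_insert_of_notMem (fun h => hx (hKX h))]
        omega
      · intro u hu v hv huv
        rw [Finset.mem_insert] at hu hv
        rcases hu with rfl | hu <;> rcases hv with rfl | hv
        · exact absurd rfl huv
        · exact hTt (hhK v hv u hxYK).symm
        · exact hTt (hhK u hu v hxYK)
        · exact hTt (hcl u hu v hv huv)
    · refine Or.inr ⟨s, by omega, X, Y, f, by omega, ?_, hf, hC⟩
      exact hhX.mono (proc_mono H G hts) subset_rfl subset_rfl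
  | succ r ih =>
    intro y t
    obtain ⟨m, hm, hEy⟩ := hE y
    obtain ⟨T, hT⟩ : ∃ T, T = t + (y ^ 2 + 1) * m + ((m * Fintype.card W + Fintype.card W) ^ 2 + 1) :=
      ⟨_, rfl⟩
    obtain ⟨C₁, hC₁⟩ := hA (y + m * Fintype.card W) T
    obtain ⟨C₂, hC₂⟩ := ih (y + m * Fintype.card W) T
    refine ⟨T + 2 + y + m * Fintype.card W + Fintype.card W + C₁ + C₂, ?_⟩
    intro V _ _ G hV K YK X Y hK hcl hhK hhX hKX hY hr
    have hTT : t + (Y.card ^ 2 + 1) * m + ((m * Fintype.card W + Fintype.card W) ^ 2 + 1) ≤ T := by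
      rw [hT]
      have : Y.card ^ 2 ≤ y ^ 2 := Nat.pow_le_pow_left hY 2
      gcongr
    have hTt : proc H G t ≤ proc H G T := proc_mono H G (by omega)
    rcases step_lemma H m hm 𝒞 y hEy V G t X Y hhX hY (by omega) T hTT with
      ⟨s, hs, hst⟩ | ⟨Z, hZ, hcl'⟩ | ⟨x, hx, Y', hYY', hY', hhub⟩ | ⟨s, hts, hs, f, hf, hC⟩
    · exact Or.inl ⟨s, by omega, hst⟩
    · exact Or.inl ⟨T + 2, by omega, finish H G T Z hH hcl' (by omega)⟩
    · by_cases hxYK : x ∈ YK
      · refine (hC₂ V G (by omega) K YK (insert x X) Y' hK ?_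
          (hhK.mono hTt subset_rfl subset_rfl) hhub (hKX.trans (Finset.subset_insert _ _))
          (by omega) ?_).mono (by omega)
        · intro u hu v hv huv
          exact hTt (hcl u hu v hv huv)
        · have hlt : (YK \ insert x X).card < (YK \ X).card := by
            apply Finset.card_lt_card
            refine ⟨Finset.sdiff_subset_sdiff subset_rfl (Finset.subset_insert _ _), ?_⟩
            intro hsub
            have h1 : x ∈ YK \ X := Finset.mem_sdiff.2 ⟨hxYK, hx⟩
            have h2 := hsub h1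
            rw [Finset.mem_sdiff] at h2
            exact h2.2 (Finset.mem_insert_self _ _)
          omega
      · refine (hC₁ V G (by omega) (insert x K) Y' ?_ ?_ (hhub.mono le_rfl
          (Finset.insert_subset_insert _ hKX) subset_rfl) (by omega)).mono (by omega)
        · rw [Finset.card_insert_of_notMem (fun h => hx (hKX h))]
          omega
        · intro u hu v hv huv
          rw [Finset.mem_insert] at hu hv
          rcases hu with rfl | hu <;> rcases hv with rfl | hv
          · exact absurd rfl huv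
          · exact hTt (hhK v hv u hxYK).symm
          · exact hTt (hhK u hu v hxYK)
          · exact hTt (hcl u hu v hv huv)
    · refine Or.inr ⟨s, by omega, X, Y, f, by omega, ?_, hf, hC⟩
      exact hhX.mono (proc_mono H G hts) subset_rfl subset_rfl

theorem goalA {W : Type*} [Fintype W] (H : SimpleGraph W) (hH : ∃ p, IsSupport H p)
    (𝒞 : Set W → Prop) (hE : ChainHyp H 𝒞) (j : ℕ) : GoalA H 𝒞 j := by
  induction j with
  | zero => exact goalA_zero H hH 𝒞
  | succ j ih =>
    intro y t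
    obtain ⟨C, hC⟩ := goalB H hH 𝒞 hE j ih y y t
    refine ⟨C, ?_⟩
    intro V _ _ G hV K Y hK hcl hhub hY
    exact hC V G hV K Y K Y hK hcl hhub hhub subset_rfl hY
      ((Finset.card_le_card Finset.sdiff_subset).trans hY)

theorem phases {W : Type*} [Fintype W] (H : SimpleGraph W) (hH : ∃ p, IsSupport H p)
    (𝒞 : Set W → Prop) (hE : ChainHyp H 𝒞) :
    ∃ C : ℕ, ∀ (V : Type) [Fintype V] (G : SimpleGraph V), C ≤ Fintype.card V →
      Done H 𝒞 G C := by
  obtain ⟨C, hC⟩ := goalA H hH 𝒞 hE (Fintype.card W) 0 0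
  refine ⟨C, ?_⟩
  intro V _ G hV
  classical
  exact hC V G hV ∅ ∅ (by simp) (by simp) (by intro x hx; simp at hx) (by simp)

/-- Theorem A: bounded running time. -/
theorem bounded_of_chainHyp {W : Type*} [Fintype W] (H : SimpleGraph W)
    (hH : ∃ p, IsSupport H p) (hE : ChainHyp H (fun _ => False)) :
    ∃ C, ∀ n, maxRun H n ≤ C := by
  obtain ⟨C, hC⟩ := phases H hH (fun _ => False) hE
  refine ⟨C + C ^ 2, ?_⟩
  intro n
  apply maxRun_le_of_forall
  intro G
  by_cases hn : C ≤ n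
  · rcases hC (Fin n) G (by simpa using hn) with ⟨s, hs, hst⟩ | ⟨s, hs, X, Y, f, hY, hX, hf, h⟩
    · exact (runTime_le H G hst).trans (by omega)
    · exact absurd h (by simp)
  · have h1 := runTime_le_sq H G
    rw [Fintype.card_fin] at h1
    have h2 : n ^ 2 ≤ C ^ 2 := Nat.pow_le_pow_left (by omega) 2
    omega

end Pool.Agent.Helper92.GB
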