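import Mathlib
import Pool.Agent.Helper92.GB.Basic

set_option autoImplicit false

/-! Module GB-Reduce.  Deleting one of many interchangeable blocks does not decrease the running
time.

Proof.  Let `B i` (`i : Fin N`), `N ≥ |W| + 4`, be the blocks, delete `S = B 0`, `G' = G.comap val`
on the complement.
(1) `(proc H G t).Adj x y → (proc H G' t).Adj ⟨x, _⟩ ⟨y, _⟩` for `x, y ∉ B 0`, by induction on `t`.
Step: `x ≠ y` completed in `proc H G t` by `f`.  At most `|W|` blocks meet the range of `f` (disjoint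
blocks), so some `B j`, `j ≠ 0`, does not meet it.  Let `σ` exchange `B 0` and `B j` (the `σ` of the
definition for the pair `(0, j)`: it maps `B 0` into `B j`; `x ∉ B 0 ∪ B j` is fixed).  `g = σ ∘ f` avoids
`B 0`: if `f w ∈ B 0` then `σ (f w) ∈ B j`, disjoint from `B 0`; otherwise `f w ∉ B 0 ∪ B j` is fixed.
`x, y` are in the range of `f`, so not in `B j`, and not in `B 0`, so fixed by `σ`.  The edges of
`g (H)` are in `proc H G t` (`proc_aut`) or equal to `s(x, y)`.  By the induction hypothesis `g`, as an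
embedding into the complement of `B 0`, completes `x y` in `proc H G' t`.
(2) Let `r = runTime H G'` and let `x y` be an edge of `proc H G (r+1)`.  Some `B j`, `j ≠ 0`, contains
neither `x` nor `y` (`N ≥ 4`).  With `σ` as above `σ x, σ y ∉ B 0`.  So `σ x, σ y` are adjacent in
`proc H G (r+1)` (`proc_aut`), in `proc H G' (r+1) = proc H G' r` by (1), in `proc H G r` by
`proc_comap_le`, and `x y` is an edge of `proc H G r` (`proc_aut`).  So `runTime H G ≤ r`. -/

namespace Pool.Agent.Helper92.GB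

open Pool.Agent.Helper41.Boot

/-- Some block different from `B i₀` does not meet the range of `F`. -/
theorem reduce_avoid {V ι : Type*} [Fintype ι] {N : ℕ} (B : Fin N → Set V)
    (hd : ∀ i j, i ≠ j → Disjoint (B i) (B j)) (i₀ : Fin N) (F : ι → V)
    (hN : Fintype.card ι + 2 ≤ N) : ∃ j, j ≠ i₀ ∧ ∀ w, F w ∉ B j := by
  classical
  by_contra hcon
  push Not at hcon
  choose g hg using hcon
  have hinj : Function.Injective (fun j : {j : Fin N // j ≠ i₀} => g j.1 j.2) := by
    rintro ⟨j, hj⟩ ⟨k, hk⟩ hjk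
    by_contra hne
    have hne' : j ≠ k := fun h => hne (Subtype.ext h)
    have h1 := hg j hj
    have h2 := hg k hk
    simp only at hjk
    rw [← hjk] at h2
    exact Set.disjoint_left.1 (hd j k hne') h1 h2
  have h1 := Fintype.card_le_of_injective _ hinj
  have h2 : Fintype.card {j : Fin N // j ≠ i₀} = N - 1 := by
    rw [Fintype.card_subtype_compl]
    simp
  omega

theorem reduce_sub {W V : Type*} [Fintype W] [Fintype V] (H : SimpleGraph W) (G : SimpleGraph V)
    (N : ℕ) (hN : Fintype.card W + 4 ≤ N) (B : Fin N → Set V)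
    (hd : ∀ i j, i ≠ j → Disjoint (B i) (B j)) (i₀ : Fin N)
    (hσ : ∀ i j, i ≠ j → ∃ σ : Equiv.Perm V, (∀ x y, G.Adj (σ x) (σ y) ↔ G.Adj x y) ∧
      (∀ x, x ∈ B i → σ x ∈ B j) ∧ ∀ x, x ∉ B i → x ∉ B j → σ x = x)
    [Fintype {x // x ∉ B i₀}] (t : ℕ) :
    ∀ (x y : V) (hx : x ∉ B i₀) (hy : y ∉ B i₀), (proc H G t).Adj x y →
      (proc H (G.comap (Subtype.val : {x // x ∉ B i₀} → V)) t).Adj ⟨x, hx⟩ ⟨y, hy⟩ := by
  induction t with
  | zero =>
    intro x y hx hy h
    exact h
  | succ t ih =>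
    intro x y hx hy h
    rw [proc_succ, step_adj] at h ⊢
    rcases h with h | ⟨hne, f, hf, a₀, b₀, hab₀, he₀⟩
    · exact Or.inl (ih x y hx hy h)
    · obtain ⟨j, hj, hfj⟩ := reduce_avoid B hd i₀ f (by omega)
      obtain ⟨σ, hσ1, hσ2, hσ3⟩ := hσ i₀ j hj.symm
      have hout : ∀ w, σ (f w) ∉ B i₀ := by
        intro w
        by_cases hw : f w ∈ B i₀
        · exact Set.disjoint_left.1 (hd j i₀ hj) (hσ2 _ hw)
        · rw [hσ3 _ hw (hfj w)]
          exact hw
      have hxy : x ∉ B j ∧ y ∉ B j := by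
        rw [Sym2.eq_iff] at he₀
        rcases he₀ with ⟨h1, h2⟩ | ⟨h1, h2⟩
        · rw [← h1, ← h2]
          exact ⟨hfj _, hfj _⟩
        · rw [← h1, ← h2]
          exact ⟨hfj _, hfj _⟩
      have hx' : σ x = x := hσ3 x hx hxy.1
      have hy' : σ y = y := hσ3 y hy hxy.2
      let g : W ↪ {x // x ∉ B i₀} := ⟨fun w => ⟨σ (f w), hout w⟩, by
        intro a b hab
        exact f.injective (σ.injective (Subtype.ext_iff.1 hab))⟩
      have hs : ∀ a b, s(f a, f b) = s(x, y) →
          s(g a, g b) = s((⟨x, hx⟩ : {x // x ∉ B i₀}), ⟨y, hy⟩) := by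
        intro a b hab
        rw [Sym2.eq_iff] at hab ⊢
        rcases hab with ⟨h1, h2⟩ | ⟨h1, h2⟩
        · left
          refine ⟨Subtype.ext ?_, Subtype.ext ?_⟩
          · change σ (f a) = x
            rw [h1, hx']
          · change σ (f b) = y
            rw [h2, hy']
        · right
          refine ⟨Subtype.ext ?_, Subtype.ext ?_⟩
          · change σ (f a) = y
            rw [h1, hy']
          · change σ (f b) = x
            rw [h2, hx']
      refine Or.inr ⟨fun h => hne (Subtype.ext_iff.1 h), g, ?_, a₀, b₀, hab₀, hs _ _ he₀⟩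
      intro a b hab
      rcases hf a b hab with h | h
      · left
        exact ih _ _ (hout a) (hout b) ((proc_aut H G σ hσ1 t _ _).2 h)
      · exact Or.inr (hs a b h)

theorem reduce {W V : Type*} [Fintype W] [Fintype V] (H : SimpleGraph W) (G : SimpleGraph V)
    (N : ℕ) (hN : Fintype.card W + 4 ≤ N) (h : HasBlocks G N) :
    ∃ S : Set V, S.Nonempty ∧ ∀ [Fintype {x // x ∉ S}],
      runTime H G ≤ runTime H (G.comap (Subtype.val : {x // x ∉ S} → V)) := by
  obtain ⟨B, hne, hd, hσ⟩ := h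
  let i₀ : Fin N := ⟨0, by omega⟩
  refine ⟨B i₀, hne i₀, ?_⟩
  intro _
  apply runTime_le
  refine le_antisymm (proc_le_succ H G _) ?_
  intro x y hxy
  obtain ⟨j, hj, hfj⟩ := reduce_avoid B hd i₀ (fun b : Bool => if b then x else y) (by
    rw [Fintype.card_bool]
    omega)
  have hxj : x ∉ B j := hfj true
  have hyj : y ∉ B j := hfj false
  obtain ⟨σ, hσ1, hσ2, hσ3⟩ := hσ i₀ j hj.symm
  have hout : ∀ z, z ∉ B j → σ z ∉ B i₀ := by
    intro z hz
    by_cases hz0 : z ∈ B i₀
    · exact Set.disjoint_left.1 (hd j i₀ hj) (hσ2 _ hz0)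
    · rw [hσ3 _ hz0 hz]
      exact hz0
  have h1 := reduce_sub H G N hN B hd i₀ hσ _ _ _ (hout x hxj) (hout y hyj)
    ((proc_aut H G σ hσ1 _ x y).2 hxy)
  rw [← runTime_spec] at h1
  have h2 := proc_comap_le H G (Function.Embedding.subtype _) _ _ _ h1
  exact (proc_aut H G σ hσ1 _ x y).1 h2

end Pool.Agent.Helper92.GB
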