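import Mathlib
import Pool.Agent.Helper92.GB.Basic
import Pool.Agent.Helper92.GB.Classes

set_option autoImplicit false

/-! Module GB-Rooted.  Large connected pieces without a path on `k` vertices from the root give
interchangeable blocks.

Proof.  Induction on `k`, for all `z`.  `k = 0, 1`: the path hypothesis gives `False` (the constant
sequence `p = r`), so any `M` will do.  Step `k → k + 1` (`k ≥ 1`): let `M₁` be the bound for
`(k, z+1, N)`, `M₂` the bound of `blocks_of_classes (z+1) M₁ N`, `M = M₂ + 1`.  Let `Q' = Q.erase r`,
`Z' = insert r Z`: `Att G Z' Q'`.  Let `c x` be a representative of the component of `x` in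
`restr G Q'` (`Quot.out` of `connectedComponentMk`).  Every class `Q'.filter (c · = l)` which is not empty is
connected (in `restr G` of the class) and contains a neighbour `r'` of `r`: walk from `r` to a vertex of
the class inside `Q` and take the vertex after the last visit of `r`.  No path on `k` vertices inside
the class starts at `r'`: prepend `r`.  So by the induction hypothesis either the class has fewer than
`M₁` elements or `HasBlocks G N`.  If all classes are small apply `blocks_of_classes` to `Q'`. -/

namespace Pool.Agent.Helper92.GB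

private theorem exists_class_fun {V : Type*} (H : SimpleGraph V) :
    ∃ c : V → V, ∀ x y, c x = c y ↔ H.Reachable x y := by
  classical
  have hrep : ∀ C : H.ConnectedComponent, ∃ v, H.connectedComponentMk v = C := by
    intro C
    induction C using SimpleGraph.ConnectedComponent.ind with
    | h v => exact ⟨v, rfl⟩
  choose f hf using hrep
  refine ⟨fun x => f (H.connectedComponentMk x), ?_⟩
  intro x y
  constructor
  · intro h
    have h1 := congrArg (fun v => H.connectedComponentMk v) h
    simp only [hf] at h1
    exact SimpleGraph.ConnectedComponent.exact h1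
  · intro h
    have : H.connectedComponentMk x = H.connectedComponentMk y :=
      SimpleGraph.ConnectedComponent.sound h
    simp only [this]

private theorem exists_first {V : Type*} [DecidableEq V] (G : SimpleGraph V) (Q : Finset V)
    (r : V) (v : V) (h : (restr G Q).Reachable r v) (hv : v ≠ r) :
    ∃ r', G.Adj r r' ∧ r' ∈ Q ∧ r' ≠ r ∧ (restr G (Q.erase r)).Reachable r' v := by
  rw [SimpleGraph.reachable_iff_reflTransGen] at h
  induction h with
  | refl => exact absurd rfl hv
  | tail hab hbc ih =>
    rename_i b c
    by_cases hb : b = r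
    · subst hb
      exact ⟨c, hbc.1, hbc.2.2, hv, SimpleGraph.Reachable.refl _⟩
    · obtain ⟨r', h1, h2, h3, h4⟩ := ih hb
      refine ⟨r', h1, h2, h3, h4.trans ?_⟩
      apply SimpleGraph.Adj.reachable
      exact ⟨hbc.1, Finset.mem_erase.2 ⟨hb, hbc.2.1⟩, Finset.mem_erase.2 ⟨hv, hbc.2.2⟩⟩

theorem blocks_rooted (k z N : ℕ) :
    ∃ M : ℕ, ∀ (V : Type) [Fintype V] [DecidableEq V] (G : SimpleGraph V) (Z Q : Finset V)
      (r : V), Z.card ≤ z → Att G Z Q → r ∈ Q → (∀ x ∈ Q, (restr G Q).Reachable r x) →
      (∀ p : ℕ → V, p 0 = r → Set.InjOn p (Set.Iio k) → (∀ i, i < k → p i ∈ Q) →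
        (∀ i, i + 1 < k → G.Adj (p i) (p (i + 1))) → False) →
      M ≤ Q.card → HasBlocks G N := by
  induction k generalizing z with
  | zero =>
    refine ⟨0, ?_⟩
    intro V _ _ G Z Q r _ _ hr _ hp _
    refine (hp (fun _ => r) rfl ?_ ?_ ?_).elim
    · intro i hi
      exact absurd hi (by simp)
    · intro i hi
      omega
    · intro i hi
      omega
  | succ k ih =>
    obtain ⟨M₁, hM₁⟩ := ih (z + 1)
    obtain ⟨M₂, hM₂⟩ := blocks_of_classes (z + 1) M₁ N
    refine ⟨M₂ + 1, ?_⟩
    intro V _ _ G Z Q r hZ hA hr hreach hp hQ
    obtain ⟨c, hc⟩ := exists_class_fun (restr G (Q.erase r))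
    have hZ' : (insert r Z).card ≤ z + 1 := (Finset.card_insert_le _ _).trans (by omega)
    have hA1 : ∀ x ∈ Q.erase r, x ∉ insert r Z := by
      intro x hx hx'
      rw [Finset.mem_erase] at hx
      rw [Finset.mem_insert] at hx'
      rcases hx' with hx' | hx'
      · exact hx.1 hx'
      · exact hA.1 x hx.2 hx'
    have hA2 : ∀ x ∈ Q.erase r, ∀ y, G.Adj x y → y ∉ insert r Z → y ∈ Q.erase r := by
      intro x hx y hxy hy
      rw [Finset.mem_insert, not_or] at hy
      exact Finset.mem_erase.2 ⟨hy.1, hA.2 x (Finset.mem_of_mem_erase hx) y hxy hy.2⟩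
    have hcadj : ∀ x ∈ Q.erase r, ∀ y ∈ Q.erase r, G.Adj x y → c x = c y := by
      intro x hx y hy hxy
      rw [hc]
      exact SimpleGraph.Adj.reachable ⟨hxy, hx, hy⟩
    by_cases hall : ∀ l, ((Q.erase r).filter (fun x => c x = l)).card ≤ M₁
    · refine hM₂ V G (insert r Z) (Q.erase r) c hZ' ⟨hA1, hA2⟩ hcadj hall ?_
      rw [Finset.card_erase_of_mem hr]
      omega
    · push Not at hall
      obtain ⟨l, hl⟩ := hall
      set P := (Q.erase r).filter (fun x => c x = l) with hP
      have hPQ : ∀ x ∈ P, x ∈ Q.erase r := fun x hx => (Finset.mem_filter.1 hx).1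
      have hPl : ∀ x ∈ P, c x = l := fun x hx => (Finset.mem_filter.1 hx).2
      have hPmem : ∀ x, x ∈ Q.erase r → c x = l → x ∈ P :=
        fun x h1 h2 => Finset.mem_filter.2 ⟨h1, h2⟩
      have hne : P.Nonempty := Finset.card_pos.1 (by omega)
      obtain ⟨x, hx⟩ := hne
      have hxr : x ≠ r := (Finset.mem_erase.1 (hPQ x hx)).1
      obtain ⟨r', h1, h2, h3, h4⟩ := exists_first G Q r x
        (hreach x (Finset.mem_of_mem_erase (hPQ x hx))) hxr
      have hr'l : c r' = l := by
        rw [← hPl x hx, hc]
        exact h4
      have hr'P : r' ∈ P := hPmem r' (Finset.mem_erase.2 ⟨h3, h2⟩) hr'l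
      refine hM₁ V G (insert r Z) P r' hZ' ⟨?_, ?_⟩ hr'P ?_ ?_ hl.le
      · exact fun y hy => hA1 y (hPQ y hy)
      · intro y hy w hyw hw
        have hwQ := hA2 y (hPQ y hy) w hyw hw
        refine hPmem w hwQ ?_
        rw [← hcadj y (hPQ y hy) w hwQ hyw]
        exact hPl y hy
      · intro y hy
        have hry : (restr G (Q.erase r)).Reachable r' y := by
          rw [← hc, hr'l, hPl y hy]
        clear hy
        rw [SimpleGraph.reachable_iff_reflTransGen] at hry
        induction hry with
        | refl => exact SimpleGraph.Reachable.refl _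
        | tail hab hbc ih2 =>
          rename_i b d
          refine ih2.trans ?_
          apply SimpleGraph.Adj.reachable
          rw [← SimpleGraph.reachable_iff_reflTransGen, ← hc, hr'l] at hab
          have hbP : b ∈ P := hPmem b hbc.2.1 hab.symm
          refine ⟨hbc.1, hbP, hPmem d hbc.2.2 ?_⟩
          rw [← hcadj b hbc.2.1 d hbc.2.2 hbc.1]
          exact hab.symm
      · intro p hp0 hpinj hpP hpadj
        refine hp (fun i => Nat.casesOn i r p) rfl ?_ ?_ ?_
        · intro i hi j hj hij
          rw [Set.mem_Iio] at hi hj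
          rcases i with _ | i <;> rcases j with _ | j
          · rfl
          · exfalso
            have h5 : r = p j := hij
            exact (Finset.mem_erase.1 (hPQ _ (hpP j (by omega)))).1 h5.symm
          · exfalso
            have h5 : p i = r := hij
            exact (Finset.mem_erase.1 (hPQ _ (hpP i (by omega)))).1 h5
          · have h5 : p i = p j := hij
            rw [hpinj (Set.mem_Iio.2 (by omega)) (Set.mem_Iio.2 (by omega)) h5]
        · intro i hi
          rcases i with _ | i
          · exact hr
          · exact Finset.mem_of_mem_erase (hPQ _ (hpP i (by omega)))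
        · intro i hi
          rcases i with _ | i
          · change G.Adj r (p 0)
            rw [hp0]
            exact h1
          · exact hpadj i (by omega)

end Pool.Agent.Helper92.GB
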