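import Mathlib
import Pool.Agent.Helper92.GB.Basic

set_option autoImplicit false

/-! Module GB-TwinB.  Twins give interchangeable blocks (of one vertex).

Proof.  Classify `x ∈ Q` by `κ x` and by the set of its neighbours in `Z` (a subset of `Z`): at most
`2 * 2 ^ z` classes, so one class has more than `N` elements `x_1, ..., x_N` (`N = 0` is trivial:
there `Fin 0` is empty).  `B i = {x_i}`, `σ = Equiv.swap x_i x_j`.  It is an automorphism: for
`w ≠ x_i, x_j`: if `w ∈ Q` then `w` is adjacent to `x_i` iff to `x_j` (`Twins`); if `w ∈ Z` by the choice of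
the class; otherwise `w` is adjacent to neither (`Att`). -/

namespace Pool.Agent.Helper92.GB

theorem blocks_of_twins {V : Type*} [Fintype V] [DecidableEq V] (z N : ℕ) (G : SimpleGraph V)
    (Z Q : Finset V) (hz : Z.card ≤ z) (hatt : Att G Z Q) (κ : V → Bool) (hκ : Twins G Q κ)
    (hQ : 2 * 2 ^ z * N < Q.card) : HasBlocks G N := by
  classical
  let f : V → Bool × Finset V := fun x => (κ x, Z.filter (fun w => G.Adj x w))
  let t : Finset (Bool × Finset V) := (Finset.univ : Finset Bool) ×ˢ Z.powerset
  have hmaps : ∀ x ∈ Q, f x ∈ t := by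
    intro x _
    simp only [f, t, Finset.mem_product, Finset.mem_univ, true_and, Finset.mem_powerset]
    exact Finset.filter_subset _ _
  have ht : t.card ≤ 2 * 2 ^ z := by
    simp only [t, Finset.card_product, Finset.card_powerset, Finset.card_univ, Fintype.card_bool]
    exact Nat.mul_le_mul_left 2 (Nat.pow_le_pow_right (by norm_num) hz)
  have hlt : t.card * N < Q.card := lt_of_le_of_lt (Nat.mul_le_mul_right N ht) hQ
  obtain ⟨y, -, hy⟩ := Finset.exists_lt_card_fiber_of_mul_lt_card_of_maps_to hmaps hlt
  have hemb : Fintype.card (Fin N) ≤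
      Fintype.card {x // x ∈ Q.filter (fun x => f x = y)} := by
    rw [Fintype.card_fin, Fintype.card_coe]
    exact hy.le
  obtain ⟨e⟩ := Function.Embedding.nonempty_of_card_le hemb
  have hmem : ∀ i, (e i : V) ∈ Q ∧ f (e i) = y := fun i => Finset.mem_filter.1 (e i).2
  have hinj : ∀ i j, i ≠ j → (e i : V) ≠ (e j : V) := by
    intro i j hij h
    exact hij (e.injective (Subtype.ext h))
  refine ⟨fun i => {(e i : V)}, fun i => Set.singleton_nonempty _, fun i j hij => ?_,
    fun i j hij => ?_⟩
  · rw [Set.disjoint_singleton]
    exact hinj i j hij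
  · obtain ⟨a, ha⟩ : ∃ a : V, a = e i := ⟨_, rfl⟩
    obtain ⟨b, hb⟩ : ∃ b : V, b = e j := ⟨_, rfl⟩
    have hab : a ≠ b := by rw [ha, hb]; exact hinj i j hij
    have haQ : a ∈ Q := by rw [ha]; exact (hmem i).1
    have hbQ : b ∈ Q := by rw [hb]; exact (hmem j).1
    have hf : f a = f b := by rw [ha, hb, (hmem i).2, (hmem j).2]
    have hκ' : κ a = κ b := congrArg Prod.fst hf
    have hZ : Z.filter (fun w => G.Adj a w) = Z.filter (fun w => G.Adj b w) :=
      congrArg Prod.snd hf
    have key : ∀ w, w ≠ a → w ≠ b → (G.Adj w a ↔ G.Adj w b) := by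
      intro w hwa hwb
      by_cases hwQ : w ∈ Q
      · exact hκ a haQ b hbQ hκ' w hwQ hwa hwb
      by_cases hwZ : w ∈ Z
      · have h1 : w ∈ Z.filter (fun w => G.Adj a w) ↔ w ∈ Z.filter (fun w => G.Adj b w) := by
          rw [hZ]
        simp only [Finset.mem_filter, hwZ, true_and] at h1
        rw [G.adj_comm w a, G.adj_comm w b]
        exact h1
      · constructor
        · intro h
          exact absurd (hatt.2 a haQ w h.symm hwZ) hwQ
        · intro h
          exact absurd (hatt.2 b hbQ w h.symm hwZ) hwQ
    have fwd : ∀ u v, G.Adj u v → G.Adj (Equiv.swap a b u) (Equiv.swap a b v) := by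
      intro u v huv
      by_cases hua : u = a
      · subst hua
        by_cases hvb : v = b
        · subst hvb
          rw [Equiv.swap_apply_left, Equiv.swap_apply_right]
          exact huv.symm
        · have hvu : v ≠ u := huv.ne'
          rw [Equiv.swap_apply_left, Equiv.swap_apply_of_ne_of_ne hvu hvb]
          exact ((key v hvu hvb).1 huv.symm).symm
      · by_cases hub : u = b
        · subst hub
          by_cases hva : v = a
          · subst hva
            rw [Equiv.swap_apply_left, Equiv.swap_apply_right]
            exact huv.symm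
          · have hvu : v ≠ u := huv.ne'
            rw [Equiv.swap_apply_right, Equiv.swap_apply_of_ne_of_ne hva hvu]
            exact ((key v hva hvu).2 huv.symm).symm
        · rw [Equiv.swap_apply_of_ne_of_ne hua hub]
          by_cases hva : v = a
          · subst hva
            rw [Equiv.swap_apply_left]
            exact (key u hua hub).1 huv
          · by_cases hvb : v = b
            · subst hvb
              rw [Equiv.swap_apply_right]
              exact (key u hua hub).2 huv
            · rw [Equiv.swap_apply_of_ne_of_ne hva hvb]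
              exact huv
    refine ⟨Equiv.swap a b, fun u v => ⟨fun h => ?_, fwd u v⟩, fun x hx => ?_,
      fun x hxi hxj => ?_⟩
    · have h1 := fwd _ _ h
      rwa [Equiv.swap_apply_self, Equiv.swap_apply_self] at h1
    · rw [Set.mem_singleton_iff] at hx ⊢
      rw [hx, ← ha, Equiv.swap_apply_left, hb]
    · rw [Set.mem_singleton_iff, ← ha] at hxi
      rw [Set.mem_singleton_iff, ← hb] at hxj
      exact Equiv.swap_apply_of_ne_of_ne hxi hxj

end Pool.Agent.Helper92.GB
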