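import Mathlib
import Pool.Agent.Helper92.GB.Basic
import Pool.Agent.Helper92.GB.Classes
import Pool.Agent.Helper92.GB.Rooted
import Pool.Agent.Helper92.GB.TwinB

set_option autoImplicit false

/-! Module GB-TameB.  Large tame graphs have interchangeable blocks.

Proof.  Let `M₁` be the bound of `blocks_rooted k z N`, `s = max k (max (2 * 2 ^ z * N) M₁)`, `M₂` the
bound of `blocks_of_classes z s N`, `M = M₂ + z`.  Let `Q₀` be the complement of `Z` and `c'` a
representative of the component in `restr G Q₀`; `c` of `Tame` is constant on the classes of `c'`.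
A class `Q'` of `c'` (in `Q₀`) is connected, attached to `Z`, and contained in a class `Q` of `c`, so it
has at most `k` elements, or `Twins G Q' κ`, or `NoPath G Q' k`; if it has more than `s` elements then
`blocks_of_twins` or `blocks_rooted` (root = any element) applies.  Otherwise `blocks_of_classes`. -/

namespace Pool.Agent.Helper92.GB

private theorem exists_class_fun' {V : Type*} (H : SimpleGraph V) :
    ∃ c : V → V, ∀ x y, c x = c y ↔ H.Reachable x y := by
  classical
  have hrep : ∀ C : H.ConnectedComponent, ∃ v, H.connectedComponentMk v = C := by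
    intro C
    induction C using SimpleGraph.ConnectedComponent.ind with
    | h v => exact ⟨v, rfl⟩
  choose f hf using hrep
  refine ⟨fun x => f (H.connectedComponentMk x), ?_⟩
  intro x y
  constructor
  · intro h
    have h1 := congrArg (fun v => H.connectedComponentMk v) h
    simp only [hf] at h1
    exact SimpleGraph.ConnectedComponent.exact h1
  · intro h
    have : H.connectedComponentMk x = H.connectedComponentMk y :=
      SimpleGraph.ConnectedComponent.sound h
    simp only [this]

theorem blocks_of_tame (k z N : ℕ) :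
    ∃ M : ℕ, ∀ (V : Type) [Fintype V] [DecidableEq V] (G : SimpleGraph V) (Z : Finset V),
      Z.card ≤ z → Tame k G Z → M ≤ Fintype.card V → HasBlocks G N := by
  obtain ⟨M₁, hM₁⟩ := blocks_rooted k z N
  obtain ⟨M₂, hM₂⟩ := blocks_of_classes z (max k (max (2 * 2 ^ z * N) M₁)) N
  refine ⟨M₂ + z, ?_⟩
  intro V _ _ G Z hZ hT hM
  obtain ⟨c, hc1, hc2⟩ := hT
  obtain ⟨c', hc'⟩ := exists_class_fun' (restr G Zᶜ)
  have hA : Att G Z Zᶜ := by
    refine ⟨fun x hx => Finset.mem_compl.1 hx, ?_⟩
    intro x _ y _ hy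
    exact Finset.mem_compl.2 hy
  have hcadj : ∀ x ∈ Zᶜ, ∀ y ∈ Zᶜ, G.Adj x y → c' x = c' y := by
    intro x hx y hy hxy
    rw [hc']
    exact SimpleGraph.Adj.reachable ⟨hxy, hx, hy⟩
  by_cases hall : ∀ l, (Zᶜ.filter (fun x => c' x = l)).card ≤ max k (max (2 * 2 ^ z * N) M₁)
  · refine hM₂ V G Z Zᶜ c' hZ hA hcadj hall ?_
    rw [Finset.card_compl]
    omega
  · push Not at hall
    obtain ⟨l, hl⟩ := hall
    set P := Zᶜ.filter (fun x => c' x = l) with hP
    have hPQ : ∀ x ∈ P, x ∈ Zᶜ := fun x hx => (Finset.mem_filter.1 hx).1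
    have hPl : ∀ x ∈ P, c' x = l := fun x hx => (Finset.mem_filter.1 hx).2
    have hPmem : ∀ x, x ∈ Zᶜ → c' x = l → x ∈ P :=
      fun x h1 h2 => Finset.mem_filter.2 ⟨h1, h2⟩
    have hlk : k < P.card := lt_of_le_of_lt (le_max_left _ _) hl
    have hlt : 2 * 2 ^ z * N < P.card :=
      lt_of_le_of_lt ((le_max_left _ _).trans (le_max_right _ _)) hl
    have hlM : M₁ < P.card :=
      lt_of_le_of_lt ((le_max_right _ _).trans (le_max_right _ _)) hl
    have hne : P.Nonempty := Finset.card_pos.1 (by omega)
    obtain ⟨x, hx⟩ := hne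
    have hPA : Att G Z P := by
      refine ⟨fun y hy => Finset.mem_compl.1 (hPQ y hy), ?_⟩
      intro y hy w hyw hw
      have hwQ : w ∈ Zᶜ := Finset.mem_compl.2 hw
      refine hPmem w hwQ ?_
      rw [← hcadj y (hPQ y hy) w hwQ hyw]
      exact hPl y hy
    have hreach0 : ∀ y ∈ P, (restr G Zᶜ).Reachable x y := by
      intro y hy
      rw [← hc', hPl x hx, hPl y hy]
    have hreach : ∀ y ∈ P, (restr G P).Reachable x y ∧ c x = c y := by
      intro y hy
      have hry := hreach0 y hy
      clear hy
      rw [SimpleGraph.reachable_iff_reflTransGen] at hry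
      induction hry with
      | refl => exact ⟨SimpleGraph.Reachable.refl _, rfl⟩
      | tail hab hbc ih2 =>
        rename_i b d
        rw [← SimpleGraph.reachable_iff_reflTransGen, ← hc', hPl x hx] at hab
        have hbP : b ∈ P := hPmem b hbc.2.1 hab.symm
        have hdP : d ∈ P := by
          refine hPmem d hbc.2.2 ?_
          rw [← hcadj b hbc.2.1 d hbc.2.2 hbc.1]
          exact hab.symm
        refine ⟨ih2.1.trans ?_, ih2.2.trans ?_⟩
        · apply SimpleGraph.Adj.reachable
          exact ⟨hbc.1, hbP, hdP⟩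
        · exact hc1 b d (Finset.mem_compl.1 hbc.2.1) (Finset.mem_compl.1 hbc.2.2) hbc.1
    have hsub : ∀ y ∈ P, y ∈ Zᶜ.filter (fun y => c y = c x) := by
      intro y hy
      exact Finset.mem_filter.2 ⟨hPQ y hy, (hreach y hy).2.symm⟩
    rcases hc2 (Zᶜ.filter (fun y => c y = c x)) ⟨c x, fun y => by
      rw [Finset.mem_filter, Finset.mem_compl]⟩ with h | ⟨κ, hκ⟩ | h
    · exfalso
      have := Finset.card_le_card hsub
      omega
    · refine blocks_of_twins z N G Z P hZ hPA κ ?_ hlt
      intro a ha b hb hab w hw hwa hwb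
      exact hκ a (hsub a ha) b (hsub b hb) hab w (hsub w hw) hwa hwb
    · refine hM₁ V G Z P x hZ hPA hx (fun y hy => (hreach y hy).1) ?_ hlM.le
      intro p _ hpinj hpP hpadj
      exact h p hpinj (fun i hi => hsub _ (hpP i hi)) hpadj

end Pool.Agent.Helper92.GB
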