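import Mathlib
import Pool.Agent.Helper92.GB.Basic
import Pool.Agent.Helper92.GB.TameB
import Pool.Agent.Helper92.GB.Reduce

set_option autoImplicit false

/-! Module GB-TameRun.  The running time on tame graphs is bounded.

Proof.  Let `M` be the bound of `blocks_of_tame k z (|W| + 4)`, `R = M ^ 2`.  Strong induction on
`|V|`.  If `|V| < M` use `runTime_le_sq`.  Otherwise `HasBlocks G (|W| + 4)`, and `reduce` gives a
non-empty `S`; `G' = G.comap val` on `V' = {x // x ∉ S}` has fewer vertices and is `Tame` with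
`Z' = {x | x.val ∈ Z}`, `|Z'| ≤ |Z|`: take `c' x` to be a representative of the class, for instance
define `c' x = y` for a chosen `y : V'` with `y ∉ Z'` and `c y = c x` (depending only on `c x`); small
classes stay small, `Twins` and `NoPath` are inherited. -/

namespace Pool.Agent.Helper92.GB

open Pool.Agent.Helper41.Boot

/-- Tameness is inherited by induced subgraphs. -/
private theorem tame_comap {V V' : Type*} [Fintype V] (ι : V' ↪ V) (k : ℕ) (G : SimpleGraph V)
    (Z : Finset V) (Z' : Finset V') (hZ : ∀ x, x ∈ Z' ↔ ι x ∈ Z) (h : Tame k G Z) :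
    Tame k (G.comap ι) Z' := by
  classical
  obtain ⟨c, hc, hQ⟩ := h
  -- representatives
  let c' : V' → V' := fun x =>
    if hx : ∃ y : V', ι y ∉ Z ∧ c (ι y) = c (ι x) then hx.choose else x
  have hc1 : ∀ x : V', ι x ∉ Z → c (ι (c' x)) = c (ι x) := by
    intro x hx
    have hex : ∃ y : V', ι y ∉ Z ∧ c (ι y) = c (ι x) := ⟨x, hx, rfl⟩
    have he : c' x = hex.choose := dif_pos hex
    rw [he]
    exact hex.choose_spec.2
  have hc2 : ∀ x y : V', ι x ∉ Z → ι y ∉ Z → c (ι x) = c (ι y) → c' x = c' y := by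
    intro x y hx hy hxy
    have hex : ∃ w : V', ι w ∉ Z ∧ c (ι w) = c (ι x) := ⟨x, hx, rfl⟩
    have hey : ∃ w : V', ι w ∉ Z ∧ c (ι w) = c (ι y) := ⟨y, hy, rfl⟩
    have he : c' x = hex.choose := dif_pos hex
    have he' : c' y = hey.choose := dif_pos hey
    rw [he, he']
    have hpq : (fun w : V' => ι w ∉ Z ∧ c (ι w) = c (ι x)) =
        (fun w : V' => ι w ∉ Z ∧ c (ι w) = c (ι y)) := by
      funext w
      rw [hxy]
    revert hex hey
    rw [hpq]
    intros
    rfl
  refine ⟨c', ?_, ?_⟩
  · intro x y hx hy hxy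
    have hx' : ι x ∉ Z := fun h => hx ((hZ x).2 h)
    have hy' : ι y ∉ Z := fun h => hy ((hZ y).2 h)
    exact hc2 x y hx' hy' (hc _ _ hx' hy' hxy)
  · rintro Q' ⟨l', hl'⟩
    rcases Q'.eq_empty_or_nonempty with rfl | ⟨x0, hx0⟩
    · left; simp
    have hx0' := (hl' x0).1 hx0
    have hx0Z : ι x0 ∉ Z := fun h => hx0'.1 ((hZ x0).2 h)
    have hmem : ∀ x : V', x ∈ Q' ↔ ι x ∉ Z ∧ c (ι x) = c (ι x0) := by
      intro x
      rw [hl' x]
      constructor
      · rintro ⟨h1, h2⟩
        have h1' : ι x ∉ Z := fun h => h1 ((hZ x).2 h)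
        refine ⟨h1', ?_⟩
        rw [← hc1 x h1', ← hc1 x0 hx0Z, h2, hx0'.2]
      · rintro ⟨h1, h2⟩
        refine ⟨fun h => h1 ((hZ x).1 h), ?_⟩
        rw [hc2 x x0 h1 hx0Z h2]
        exact hx0'.2
    -- the class of `G`
    let Q : Finset V := Finset.univ.filter (fun x => x ∉ Z ∧ c x = c (ι x0))
    have hQmem : ∀ x : V, x ∈ Q ↔ x ∉ Z ∧ c x = c (ι x0) := by
      intro x; simp [Q]
    have hQQ : ∀ x : V', x ∈ Q' ↔ ι x ∈ Q := by
      intro x; rw [hmem, hQmem]
    rcases hQ Q ⟨c (ι x0), hQmem⟩ with h1 | ⟨κ, h1⟩ | h1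
    · left
      have h2 : (Q'.map ι).card ≤ Q.card := by
        apply Finset.card_le_card
        intro y hy
        rw [Finset.mem_map] at hy
        obtain ⟨x, hx, rfl⟩ := hy
        exact (hQQ x).1 hx
      rw [Finset.card_map] at h2
      exact h2.trans h1
    · right; left
      refine ⟨fun x => κ (ι x), ?_⟩
      intro x hx y hy hxy w hw hwx hwy
      exact h1 _ ((hQQ x).1 hx) _ ((hQQ y).1 hy) hxy _ ((hQQ w).1 hw)
        (fun h => hwx (ι.injective h)) (fun h => hwy (ι.injective h))
    · right; right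
      intro p hp hpQ hpG
      refine h1 (fun i => ι (p i)) ?_ ?_ ?_
      · intro i hi j hj hij
        exact hp hi hj (ι.injective hij)
      · intro i hi
        exact (hQQ _).1 (hpQ i hi)
      · intro i hi
        exact hpG i hi

theorem runTime_tame {W : Type*} [Fintype W] (H : SimpleGraph W) (k z : ℕ) :
    ∃ R : ℕ, ∀ (V : Type) [Fintype V] [DecidableEq V] (G : SimpleGraph V) (Z : Finset V),
      Z.card ≤ z → Tame k G Z → runTime H G ≤ R := by
  classical
  obtain ⟨M, hM⟩ := blocks_of_tame k z (Fintype.card W + 4)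
  refine ⟨M ^ 2, ?_⟩
  have key : ∀ n : ℕ, ∀ (V : Type) [Fintype V] [DecidableEq V] (G : SimpleGraph V) (Z : Finset V),
      Fintype.card V = n → Z.card ≤ z → Tame k G Z → runTime H G ≤ M ^ 2 := by
    intro n
    induction n using Nat.strong_induction_on with
    | _ n ih =>
      intro V _ _ G Z hn hZ hT
      rcases Nat.lt_or_ge (Fintype.card V) M with hlt | hge
      · exact (runTime_le_sq H G).trans (Nat.pow_le_pow_left hlt.le 2)
      · have hB := hM V G Z hZ hT hge
        obtain ⟨S, ⟨s, hs⟩, hS⟩ := reduce H G (Fintype.card W + 4) le_rfl hB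
        have hcard : Fintype.card {x // x ∉ S} < Fintype.card V :=
          Fintype.card_subtype_lt (x := s) (fun h => h hs)
        refine (hS).trans ?_
        let ι : {x // x ∉ S} ↪ V := Function.Embedding.subtype (fun x => x ∉ S)
        let Z' : Finset {x // x ∉ S} := Finset.univ.filter (fun x => ι x ∈ Z)
        have hZ' : ∀ x, x ∈ Z' ↔ ι x ∈ Z := by intro x; simp [Z']
        have hZc : Z'.card ≤ z := by
          have h2 : (Z'.map ι).card ≤ Z.card := by
            apply Finset.card_le_card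
            intro y hy
            rw [Finset.mem_map] at hy
            obtain ⟨x, hx, rfl⟩ := hy
            exact (hZ' x).1 hx
          rw [Finset.card_map] at h2
          exact h2.trans hZ
        exact ih _ (by omega) {x // x ∉ S} (G.comap ι) Z' rfl hZc (tame_comap ι k G Z Z' hZ' hT)
  intro V _ _ G Z hZ hT
  exact key _ V G Z rfl hZ hT

end Pool.Agent.Helper92.GB
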