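import Mathlib
import Pool.Agent.Helper92.GB.Phases
import Pool.Agent.Helper92.GB.PathRule
import Pool.Agent.Helper92.GB.FillLe
import Pool.Agent.Helper92.GB.FillTame
import Pool.Agent.Helper92.GB.TameRun
import Pool.Agent.Helper92.GB.Forest

set_option autoImplicit false

/-! The logarithmic bound. -/

namespace Pool.Agent.Helper92.GB

open Pool.Agent.Helper41.Boot

theorem activation_bound_k {W : Type*} [Fintype W] (H : SimpleGraph W) (C k : ℕ) (hk : 3 ≤ k) :
    ∃ C' : ℕ, ∀ (V : Type) [Fintype V] (G : SimpleGraph V) (s : ℕ) (X Y : Finset V) (f : W ↪ V),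
      s ≤ C → Y.card ≤ C → Hub (proc H G s) X Y → IsCopy H (proc H G s) f →
      CycleComp H {w | f w ∈ X} k → runTime H G ≤ Nat.log 2 (Fintype.card V) + C' := by
  obtain ⟨R, hR⟩ := runTime_tame H k (C + Fintype.card W)
  refine ⟨C + 1 + (5 * (2 * k + 1) + k) ^ 2 + R, ?_⟩
  intro V _ G s X Y f hs hY hX hf hc
  classical
  obtain ⟨Z, hZ⟩ : ∃ Z, Z = Y ∪ Finset.univ.map f := ⟨_, rfl⟩
  have hZc : Z.card ≤ C + Fintype.card W := by
    rw [hZ]
    refine (Finset.card_union_le _ _).trans ?_
    rw [Finset.card_map, Finset.card_univ]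
    omega
  let D : ℕ → SimpleGraph {x // x ∉ Z} := fun t => (proc H G (s + t)).comap Subtype.val
  have hmono : Monotone D := by
    intro t t' htt' x y hxy
    exact proc_mono H G (by omega : s + t ≤ s + t') hxy
  have hrule : ∀ t, Ends k (D t) (D (t + 1)) := by
    intro t p hp hadj
    have h := path_rule H G s X Y hX f hf k hc (s + t) (by omega) (fun i => (p i).val)
      (fun i hi j hj hij => hp hi hj (Subtype.ext hij))
      (fun i _ => by rw [← hZ]; exact (p i).2) (fun i hi => hadj i hi)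
    exact h
  have hfill := fill_le k hk D hmono hrule
  obtain ⟨T, hT⟩ : ∃ T, T = Nat.log 2 (Fintype.card {x // x ∉ Z}) + 1 + (5 * (2 * k + 1) + k) ^ 2 :=
    ⟨_, rfl⟩
  rw [← hT] at hfill
  have htame := fill_tame k (proc H G s) Z
  obtain ⟨Gs, hGs⟩ : ∃ Gs, Gs = proc H G s ⊔ (fill k ((proc H G s).comap
      (Subtype.val : {x // x ∉ Z} → V))).map (Function.Embedding.subtype (fun x => x ∉ Z)) :=
    ⟨_, rfl⟩
  rw [← hGs] at htame
  have hrun := hR V Gs Z hZc htame
  have h0 : proc H G s ≤ Gs := hGs ▸ le_sup_left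
  have h1 : Gs ≤ proc H G (s + T) := by
    rw [hGs]
    refine sup_le (proc_mono H G (by omega)) ?_
    intro x y hxy
    rw [SimpleGraph.map_adj] at hxy
    obtain ⟨a, b, hab, rfl, rfl⟩ := hxy
    exact hfill hab
  have hlog : Nat.log 2 (Fintype.card {x // x ∉ Z}) ≤ Nat.log 2 (Fintype.card V) :=
    Nat.log_mono_right (Fintype.card_subtype_le _)
  have hst : proc H G (s + T + R) = proc H G (s + T + R + 1) := by
    refine le_antisymm (proc_le_succ H G _) ?_
    calc proc H G (s + T + R + 1) = proc H (proc H G s) (T + R + 1) := by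
          rw [proc_add, show s + (T + R + 1) = s + T + R + 1 by omega]
      _ ≤ proc H Gs (T + R + 1) := proc_mono_graph H h0 _
      _ = proc H Gs R := by
          rw [proc_runTime H Gs hrun, proc_runTime H Gs (by omega : runTime H Gs ≤ T + R + 1)]
      _ ≤ proc H (proc H G (s + T)) R := proc_mono_graph H h1 _
      _ = proc H G (s + T + R) := proc_add H G _ _
  have := runTime_le H G hst
  omega

theorem activation_bound {W : Type*} [Fintype W] (H : SimpleGraph W) (C : ℕ) :
    ∃ C' : ℕ, ∀ (V : Type) [Fintype V] (G : SimpleGraph V) (s : ℕ) (X Y : Finset V) (f : W ↪ V)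
      (k : ℕ), s ≤ C → Y.card ≤ C → Hub (proc H G s) X Y → IsCopy H (proc H G s) f →
      CycleComp H {w | f w ∈ X} k → runTime H G ≤ Nat.log 2 (Fintype.card V) + C' := by
  have key : ∀ k, ∃ C' : ℕ, 3 ≤ k → ∀ (V : Type) [Fintype V] (G : SimpleGraph V) (s : ℕ)
      (X Y : Finset V) (f : W ↪ V), s ≤ C → Y.card ≤ C → Hub (proc H G s) X Y →
      IsCopy H (proc H G s) f → CycleComp H {w | f w ∈ X} k →
      runTime H G ≤ Nat.log 2 (Fintype.card V) + C' := by
    intro k
    by_cases hk : 3 ≤ k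
    · obtain ⟨C', hC'⟩ := activation_bound_k H C k hk
      exact ⟨C', fun _ => hC'⟩
    · exact ⟨0, fun h => absurd h hk⟩
  choose F hF using key
  refine ⟨∑ k ∈ Finset.range (Fintype.card W + 1), F k, ?_⟩
  intro V _ G s X Y f k hs hY hX hf hc
  have h1 := hF k hc.1 V G s X Y f hs hY hX hf hc
  have hk : k ≤ Fintype.card W := by
    obtain ⟨h3, c, hcinj, -⟩ := hc
    have : NeZero k := ⟨by omega⟩
    have := Fintype.card_le_of_injective c hcinj
    rwa [ZMod.card] at this
  have h2 : F k ≤ ∑ k ∈ Finset.range (Fintype.card W + 1), F k :=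
    Finset.single_le_sum (f := F) (fun _ _ => Nat.zero_le _) (Finset.mem_range.2 (by omega))
  omega

/-- Theorem B: logarithmic running time. -/
theorem log_of_chainHyp {W : Type*} [Fintype W] (H : SimpleGraph W)
    (hH : ∃ p, IsSupport H p) (hE : ChainHyp H (fun S => ∃ k, CycleComp H S k)) :
    ∃ C, ∀ n, maxRun H n ≤ Nat.log 2 n + C := by
  obtain ⟨C, hC⟩ := phases H hH _ hE
  obtain ⟨C', hC'⟩ := activation_bound H C
  refine ⟨C + C ^ 2 + C', ?_⟩
  intro n
  apply maxRun_le_of_forall
  intro G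
  by_cases hn : C ≤ n
  · rcases hC (Fin n) G (by simpa using hn) with ⟨s, hs, hst⟩ | ⟨s, hs, X, Y, f, hY, hX, hf, k, hk⟩
    · exact (runTime_le H G hst).trans (by omega)
    · have := hC' (Fin n) G s X Y f k hs hY hX hf hk
      rw [Fintype.card_fin] at this
      omega
  · have h1 := runTime_le_sq H G
    rw [Fintype.card_fin] at h1
    have h2 : n ^ 2 ≤ C ^ 2 := Nat.pow_le_pow_left (by omega) 2
    omega

end Pool.Agent.Helper92.GB
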