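import Mathlib
import Pool.Agent.Helper92.GB.Basic

set_option autoImplicit false

/-! Module GB-Pendant.  A vertex `l` of degree one whose neighbour `s` has degree two (second
neighbour `c`): every process on `n ≥ 2 |W|` vertices runs at most 6 rounds.

Proof.  `h = |W|`, `G_t = proc H G t`.  If `G_1 = G_0` the running time is `0`.  Otherwise `G_1` contains a
copy `f` of `H`.  Let `R = f (W \ {s, l})` (the image of the rest `K` of `H`), `c' = f c`, `s' = f s`,
`Q` the complement of `R` (at least `n - h + 2 ≥ h + 2` vertices).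
`G_2`: `s'` is adjacent to all `w ∈ Q`, `w ≠ s'` (send `l` to `w`).
`G_3`: `c'` is adjacent to all `w ∈ Q`: `w = s'` clear; otherwise send `s` to `w` and `l` to `s'`: the only
missing edge is `c' w`.
`G_4`: all pairs `w ≠ w'` in `Q` are adjacent: send `s` to `w`, `l` to `w'`; only `w w'` may be missing.
`G_5`: every `w ∈ Q` is adjacent to every `y ∈ R`: put `H` into `Q` with `s` at `w` and `l` sent to `y`
(`H - l` is mapped injectively into the clique `Q`).
`G_6 = ⊤`: for `y ≠ y'` in `R` send `s` to `y`, `l` to `y'` and the rest into `Q`. -/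

namespace Pool.Agent.Helper92.GB

open Pool.Agent.Helper41.Boot

open Classical in
private theorem pendant_core {W V : Type*} [Fintype V] (H : SimpleGraph W) (l s c : W)
    (hl : ∀ w, H.Adj l w ↔ w = s) (hlc : l ≠ c) (hs : ∀ w, H.Adj s w ↔ w = l ∨ w = c)
    (G : SimpleGraph V) (t : ℕ) (e : W ↪ V) (p r : V) (hpr : p ≠ r)
    (hp : ∀ a, a ≠ l → a ≠ s → e a ≠ p) (hr : ∀ a, a ≠ l → a ≠ s → e a ≠ r)
    (hK : ∀ a b, a ≠ l → a ≠ s → b ≠ l → b ≠ s → H.Adj a b → (proc H G t).Adj (e a) (e b))
    {x y : V} (hxy : x ≠ y) (h1 : (proc H G t).Adj p (e c) ∨ s(p, e c) = s(x, y))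
    (h2 : (proc H G t).Adj r p ∨ s(r, p) = s(x, y))
    (h3 : s(p, e c) = s(x, y) ∨ s(r, p) = s(x, y)) : (proc H G (t + 1)).Adj x y := by
  have hls : l ≠ s := ((hl s).2 rfl).ne
  have hsc : s ≠ c := ((hs c).2 (Or.inr rfl)).ne
  have hcl : c ≠ l := hlc.symm
  obtain ⟨g, hg⟩ : ∃ g : W → V, g = fun a => if a = l then r else if a = s then p else e a :=
    ⟨_, rfl⟩
  have gl : g l = r := by rw [hg]; simp
  have gs : g s = p := by rw [hg]; simp [hls.symm]
  have ge : ∀ a, a ≠ l → a ≠ s → g a = e a := by
    intro a h h'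
    rw [hg]
    simp [h, h']
  have ginj : Function.Injective g := by
    intro a b hab
    by_cases ha : a = l
    · by_cases hb : b = l
      · rw [ha, hb]
      · by_cases hb' : b = s
        · rw [ha, hb', gl, gs] at hab
          exact absurd hab.symm hpr
        · rw [ha, gl, ge b hb hb'] at hab
          exact absurd hab.symm (hr b hb hb')
    · by_cases ha' : a = s
      · by_cases hb : b = l
        · rw [ha', hb, gl, gs] at hab
          exact absurd hab hpr
        · by_cases hb' : b = s
          · rw [ha', hb']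
          · rw [ha', gs, ge b hb hb'] at hab
            exact absurd hab.symm (hp b hb hb')
      · by_cases hb : b = l
        · rw [hb, gl, ge a ha ha'] at hab
          exact absurd hab (hr a ha ha')
        · by_cases hb' : b = s
          · rw [hb', gs, ge a ha ha'] at hab
            exact absurd hab (hp a ha ha')
          · rw [ge a ha ha', ge b hb hb'] at hab
            exact e.injective hab
  have gc : g c = e c := ge c hcl hsc.symm
  have hsymm : ∀ u v : V, (proc H G t).Adj u v ∨ s(u, v) = s(x, y) →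
      (proc H G t).Adj v u ∨ s(v, u) = s(x, y) := by
    intro u v huv
    rcases huv with huv | huv
    · exact Or.inl huv.symm
    · exact Or.inr (by rw [Sym2.eq_swap]; exact huv)
  refine adj_succ H G t hxy ⟨g, ginj⟩ ?_ ?_
  · intro a b hab
    change (proc H G t).Adj (g a) (g b) ∨ s(g a, g b) = s(x, y)
    by_cases ha : a = l
    · rw [ha, hl] at hab
      rw [ha, hab, gl, gs]
      exact h2
    · by_cases ha' : a = s
      · rw [ha', hs] at hab
        rcases hab with hab | hab
        · rw [ha', hab, gl, gs]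
          exact hsymm _ _ h2
        · rw [ha', hab, gs, gc]
          exact h1
      · by_cases hb : b = l
        · have h4 := hab.symm
          rw [hb, hl] at h4
          exact absurd h4 ha'
        · by_cases hb' : b = s
          · have h4 := hab.symm
            rw [hb', hs] at h4
            rcases h4 with h4 | h4
            · exact absurd h4 ha
            · rw [hb', h4, gs, gc]
              exact hsymm _ _ h1
          · rw [ge a ha ha', ge b hb hb']
            exact Or.inl (hK a b ha ha' hb hb' hab)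
  · rcases h3 with h3 | h3
    · refine ⟨s, c, (hs c).2 (Or.inr rfl), ?_⟩
      change s(g s, g c) = s(x, y)
      rw [gs, gc]
      exact h3
    · refine ⟨l, s, (hl s).2 rfl, ?_⟩
      change s(g l, g s) = s(x, y)
      rw [gl, gs]
      exact h3

private theorem proc_adj_mono {W V : Type*} [Fintype V] (H : SimpleGraph W) (G : SimpleGraph V)
    {t t' : ℕ} (h : t ≤ t') {x y : V} (hxy : (proc H G t).Adj x y) : (proc H G t').Adj x y := by
  induction h with
  | refl => exact hxy
  | step _ ih => exact proc_le_succ H G _ ih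

open Classical in
private theorem exists_emb_in {W V : Type*} [Fintype W] (T : Finset V)
    (hT : Fintype.card W ≤ T.card) : ∃ e : W ↪ V, ∀ a, e a ∈ T := by
  obtain ⟨g⟩ : Nonempty (W ↪ T) := Function.Embedding.nonempty_of_card_le (by simpa using hT)
  exact ⟨g.trans (Function.Embedding.subtype _), fun a => (g a).2⟩

theorem pendant_run {W V : Type*} [Fintype W] [Fintype V] (H : SimpleGraph W) (l s c : W)
    (hl : ∀ w, H.Adj l w ↔ w = s) (hlc : l ≠ c) (hs : ∀ w, H.Adj s w ↔ w = l ∨ w = c)
    (G : SimpleGraph V) (hn : 2 * Fintype.card W ≤ Fintype.card V) : runTime H G ≤ 6 := by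
  classical
  have hls : l ≠ s := ((hl s).2 rfl).ne
  have hsc : s ≠ c := ((hs c).2 (Or.inr rfl)).ne
  have hcl : c ≠ l := hlc.symm
  by_cases h01 : proc H G 0 = proc H G 1
  · exact (runTime_le H G h01).trans (by norm_num)
  -- a copy of `H` in `G_1`
  obtain ⟨f, hf⟩ : ∃ f : W ↪ V, ∀ a b, H.Adj a b → (proc H G 1).Adj (f a) (f b) := by
    have : ∃ x y, (proc H G 1).Adj x y ∧ ¬ (proc H G 0).Adj x y := by
      by_contra hcon
      push Not at hcon
      exact h01 (le_antisymm (proc_le_succ H G 0) (fun x y hxy => hcon x y hxy))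
    obtain ⟨x, y, h1, h0⟩ := this
    obtain ⟨f, hf, -⟩ := completes_of_new H G (t := 0) h1 h0
    refine ⟨f, fun a b hab => ?_⟩
    rcases hf a b hab with h | h
    · exact proc_le_succ H G 0 h
    · rw [← SimpleGraph.mem_edgeSet, h, SimpleGraph.mem_edgeSet]
      exact h1
  obtain ⟨R, hR⟩ : ∃ R : Finset V, R = ((Finset.univ.erase l).erase s).image f := ⟨_, rfl⟩
  have hRmem : ∀ v, v ∈ R ↔ ∃ a, a ≠ l ∧ a ≠ s ∧ f a = v := by
    intro v
    rw [hR]
    simp only [Finset.mem_image, Finset.mem_erase, Finset.mem_univ, and_true]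
    constructor
    · rintro ⟨a, ⟨h1, h2⟩, h3⟩
      exact ⟨a, h2, h1, h3⟩
    · rintro ⟨a, h1, h2, h3⟩
      exact ⟨a, ⟨h2, h1⟩, h3⟩
  have hRcard : R.card ≤ Fintype.card W - 2 := by
    rw [hR]
    refine Finset.card_image_le.trans ?_
    rw [Finset.card_erase_of_mem (by simp [hls.symm]), Finset.card_erase_of_mem (by simp),
      Finset.card_univ]
    omega
  have hW2 : 2 ≤ Fintype.card W := by
    have h1 : ({l, s} : Finset W).card ≤ Fintype.card W := Finset.card_le_univ _
    rwa [Finset.card_pair hls] at h1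
  have hQcard : Fintype.card W + 2 ≤ Rᶜ.card := by
    rw [Finset.card_compl]
    omega
  have hfR : ∀ a, a ≠ l → a ≠ s → ∀ w, w ∉ R → f a ≠ w := by
    intro a h1 h2 w hw h3
    exact hw ((hRmem w).2 ⟨a, h1, h2, h3⟩)
  have hsR : f s ∉ R := by
    intro h
    obtain ⟨a, -, h2, h3⟩ := (hRmem _).1 h
    exact h2 (f.injective h3)
  -- the second round
  have hG2 : ∀ w, w ∉ R → w ≠ f s → (proc H G 2).Adj (f s) w := by
    intro w hw hws
    refine pendant_core H l s c hl hlc hs G 1 f (f s) w hws.symm
      (fun a h1 h2 => hfR a h1 h2 _ hsR) (fun a h1 h2 => hfR a h1 h2 _ hw)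
      (fun a b _ _ _ _ hab => hf a b hab) hws.symm (Or.inl (hf s c ((hs c).2 (Or.inr rfl))))
      (Or.inr Sym2.eq_swap) (Or.inr Sym2.eq_swap)
  -- the third round
  have hG3 : ∀ w, w ∉ R → (proc H G 3).Adj (f c) w := by
    intro w hw
    by_cases hws : w = f s
    · rw [hws]
      exact proc_adj_mono H G (by norm_num) (hf s c ((hs c).2 (Or.inr rfl))).symm
    · refine pendant_core H l s c hl hlc hs G 2 f w (f s) hws
        (fun a h1 h2 => hfR a h1 h2 _ hw) (fun a h1 h2 => hfR a h1 h2 _ hsR)
        (fun a b _ _ _ _ hab => proc_adj_mono H G (by norm_num) (hf a b hab))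
        (hfR c hcl hsc.symm w hw) (Or.inr Sym2.eq_swap) (Or.inl (hG2 w hw hws))
        (Or.inl Sym2.eq_swap)
  -- the fourth round
  have hG4 : ∀ w w', w ∉ R → w' ∉ R → w ≠ w' → (proc H G 4).Adj w w' := by
    intro w w' hw hw' hne
    refine pendant_core H l s c hl hlc hs G 3 f w w' hne
      (fun a h1 h2 => hfR a h1 h2 _ hw) (fun a h1 h2 => hfR a h1 h2 _ hw')
      (fun a b _ _ _ _ hab => proc_adj_mono H G (by norm_num) (hf a b hab))
      hne (Or.inl (hG3 w hw).symm) (Or.inr Sym2.eq_swap) (Or.inr Sym2.eq_swap)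
  -- the fifth round
  have hG5 : ∀ w y, w ∉ R → y ∈ R → (proc H G 5).Adj w y := by
    intro w y hw hy
    obtain ⟨e, he⟩ := exists_emb_in (W := W) (Rᶜ.erase w) (by
      rw [Finset.card_erase_of_mem (Finset.mem_compl.2 hw)]
      omega)
    have he1 : ∀ a, e a ≠ w := fun a => Finset.ne_of_mem_erase (he a)
    have he2 : ∀ a, e a ∉ R := fun a => Finset.mem_compl.1 (Finset.mem_of_mem_erase (he a))
    have hwy : w ≠ y := fun h => hw (h ▸ hy)
    refine pendant_core H l s c hl hlc hs G 4 e w y hwy (fun a _ _ => he1 a)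
      (fun a _ _ h => he2 a (h ▸ hy))
      (fun a b _ _ _ _ hab => hG4 _ _ (he2 a) (he2 b) (fun h => hab.ne (e.injective h)))
      hwy (Or.inl (hG4 _ _ hw (he2 c) (he1 c).symm)) (Or.inr Sym2.eq_swap) (Or.inr Sym2.eq_swap)
  -- the sixth round
  have hG6 : ∀ y y' : V, y ≠ y' → (proc H G 6).Adj y y' := by
    intro y y' hne
    obtain ⟨e, he⟩ := exists_emb_in (W := W) ((Rᶜ.erase y).erase y') (by
      have h1 := Finset.pred_card_le_card_erase (s := Rᶜ) (a := y)
      have h2 := Finset.pred_card_le_card_erase (s := Rᶜ.erase y) (a := y')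
      omega)
    have he0 : ∀ a, e a ≠ y' := fun a => Finset.ne_of_mem_erase (he a)
    have he1 : ∀ a, e a ≠ y := fun a => Finset.ne_of_mem_erase (Finset.mem_of_mem_erase (he a))
    have he2 : ∀ a, e a ∉ R := fun a => Finset.mem_compl.1
      (Finset.mem_of_mem_erase (Finset.mem_of_mem_erase (he a)))
    have hyc : (proc H G 5).Adj y (e c) := by
      by_cases hy : y ∈ R
      · exact (hG5 _ _ (he2 c) hy).symm
      · exact proc_adj_mono H G (by norm_num) (hG4 _ _ hy (he2 c) (he1 c).symm)
    refine pendant_core H l s c hl hlc hs G 5 e y y' hne (fun a _ _ => he1 a)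
      (fun a _ _ => he0 a)
      (fun a b _ _ _ _ hab => proc_adj_mono H G (by norm_num)
        (hG4 _ _ (he2 a) (he2 b) (fun h => hab.ne (e.injective h))))
      hne (Or.inl hyc) (Or.inr Sym2.eq_swap) (Or.inr Sym2.eq_swap)
  refine runTime_le H G (le_antisymm (proc_le_succ H G 6) ?_)
  intro x y hxy
  exact hG6 x y hxy.ne

end Pool.Agent.Helper92.GB
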